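import Pool.Agent.Lib.P4f18dfW.Defs
import Pool.Agent.Lib.P4f18dfQ.Bridge

/-!
# The covariance of the character vectors

Module W.Chars.  For a prime `p ≠ 2` and `a ≠ b` in `ZMod p` the sum of `χ(x + a) χ(x + b)` is `-1`:
substitute `y = x + a`, `χ(y (y + d)) = χ(1 + d / y)` for `y ≠ 0` (as `χ(y²) = 1`), and `1 + d / y` runs over all
elements `≠ 1`; the sum of `χ` is `0` (`quadraticChar_sum_zero`).  `lg_eq_quadraticChar` (module `Bridge`)
is the bridge.
-/

set_option autoImplicit false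

namespace Pool.Agent.P4f18dfW

open Finset Pool.Agent.P4f18dfQ

namespace CharsAux

lemma sum_shift {p : ℕ} [Fact p.Prime] (hp2 : p ≠ 2) (d : ZMod p) (hd : d ≠ 0) :
    ∑ y : ZMod p, quadraticChar (ZMod p) y * quadraticChar (ZMod p) (y + d) = -1 := by
  have h0 : quadraticChar (ZMod p) (0 : ZMod p) * quadraticChar (ZMod p) (0 + d) = 0 := by
    rw [MulChar.map_zero, zero_mul]
  rw [← add_sum_erase univ _ (mem_univ (0 : ZMod p)), h0, zero_add]
  have h1 : ∑ y ∈ univ.erase (0 : ZMod p),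
      quadraticChar (ZMod p) y * quadraticChar (ZMod p) (y + d) =
      ∑ z ∈ univ.erase (1 : ZMod p), quadraticChar (ZMod p) z := by
    refine sum_nbij' (fun y => 1 + d * y⁻¹) (fun z => d * (z - 1)⁻¹) ?_ ?_ ?_ ?_ ?_
    · intro y hy
      rw [mem_erase] at hy ⊢
      refine ⟨fun h => ?_, mem_univ _⟩
      have h2 : d * y⁻¹ = 0 := by
        have := congrArg (fun t => t - 1) h
        simpa using this
      rcases mul_eq_zero.1 h2 with h3 | h3
      · exact hd h3
      · exact hy.1 (inv_eq_zero.1 h3)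
    · intro z hz
      rw [mem_erase] at hz ⊢
      refine ⟨fun h => ?_, mem_univ _⟩
      rcases mul_eq_zero.1 h with h3 | h3
      · exact hd h3
      · exact hz.1 (sub_eq_zero.1 (inv_eq_zero.1 h3))
    · intro y hy
      rw [mem_erase] at hy
      have hy0 := hy.1
      rw [add_sub_cancel_left, mul_inv, inv_inv, ← mul_assoc, mul_inv_cancel₀ hd, one_mul]
    · intro z hz
      rw [mem_erase] at hz
      have hz0 : z - 1 ≠ 0 := sub_ne_zero.2 hz.1
      rw [mul_inv, inv_inv, ← mul_assoc, mul_inv_cancel₀ hd, one_mul]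
      ring
    · intro y hy
      rw [mem_erase] at hy
      have hy0 := hy.1
      have e : y + d = y * (1 + d * y⁻¹) := by
        rw [mul_add, mul_one, mul_left_comm, mul_inv_cancel₀ hy0, mul_one]
      rw [e, map_mul, ← mul_assoc, ← map_mul, ← sq]
      rw [quadraticChar_sq_one' hy0, one_mul]
  rw [h1]
  have h2 := quadraticChar_sum_zero (F := ZMod p) (by rw [ZMod.ringChar_zmod_n]; exact hp2)
  rw [← add_sum_erase univ _ (mem_univ (1 : ZMod p)), map_one] at h2
  linarith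

end CharsAux

open CharsAux

theorem jacobsthal {p h : ℕ} (hp : p.Prime) (hp2 : p ≠ 2) (hh : h ≤ p) [NeZero p] {j j' : Fin h}
    (hj : j ≠ j') : ∑ x : ZMod p, vv h p x.val j * vv h p x.val j' = -1 := by
  have : Fact p.Prime := ⟨hp⟩
  have e : ∀ x : ZMod p, vv h p x.val j * vv h p x.val j' =
      ((quadraticChar (ZMod p) (x + (1 + (j : ℕ) : ZMod p)) *
        quadraticChar (ZMod p) (x + (1 + (j : ℕ) : ZMod p) + ((j' : ℕ) - (j : ℕ) : ZMod p)) : ℤ) : ℝ) := by
    intro x
    unfold vv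
    rw [Bridge.lg_eq_quadraticChar, Bridge.lg_eq_quadraticChar, ← Int.cast_mul]
    have e1 : (((x.val + 1 + (j : ℕ) : ℕ)) : ZMod p) = x + (1 + (j : ℕ) : ZMod p) := by
      push_cast
      rw [ZMod.natCast_zmod_val]
      ring
    have e2 : (((x.val + 1 + (j' : ℕ) : ℕ)) : ZMod p) =
        x + (1 + (j : ℕ) : ZMod p) + ((j' : ℕ) - (j : ℕ) : ZMod p) := by
      push_cast
      rw [ZMod.natCast_zmod_val]
      ring
    rw [e1, e2]
  rw [sum_congr rfl fun x _ => e x, ← Int.cast_sum]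
  have hd : ((j' : ℕ) - (j : ℕ) : ZMod p) ≠ 0 := by
    intro h0
    have h1 : ((j' : ℕ) : ZMod p) = ((j : ℕ) : ZMod p) := sub_eq_zero.1 h0
    rw [ZMod.natCast_eq_natCast_iff] at h1
    have h2 := Nat.ModEq.eq_of_lt_of_lt h1 (lt_of_lt_of_le j'.2 hh) (lt_of_lt_of_le j.2 hh)
    exact hj (Fin.ext h2.symm)
  have h3 : ∑ x : ZMod p, quadraticChar (ZMod p) (x + (1 + (j : ℕ) : ZMod p)) *
        quadraticChar (ZMod p) (x + (1 + (j : ℕ) : ZMod p) + ((j' : ℕ) - (j : ℕ) : ZMod p)) = -1 := by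
    rw [← sum_shift hp2 _ hd]
    exact Fintype.sum_equiv (Equiv.addRight (1 + (j : ℕ) : ZMod p)) _ _ fun x => rfl
  rw [h3]
  norm_num

end Pool.Agent.P4f18dfW
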