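import Pool.Agent.Lib.P4f18dfW.Defs
import Pool.Agent.Lib.P4f18dfT.Pairs
import Pool.Agent.Lib.KeZhao.Divisor

/-!
# Pairs of close squarefree numbers whose product is in a given class

Module W.Cnt.  For `z = (i, j) ∈ Prs L h` let `g = gcd i j`, `red z = (i / g, j / g) = (u, v)`; `u ≠ v`, `u, v ≤ L`,
`u v` is squarefree (`i`, `j` squarefree, `u`, `v` coprime), `i j = g² u v`, so for `z, z'` the product
`i j i' j'` is a square iff `u v = u' v'` (`Pairs.eq_of_sq`).  `G(u,v) = #{z : red z = (u,v)} ≤ min (L / max u v, h / |u-v|)`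
(`z = (g u, g v)`, `g max u v ≤ L`, `g |u-v| < h`), so `G² ≤ (L / max u v) (h / |u - v|)`.  Number of pairs
`= ∑_(uv = u'v') G G' ≤ ∑_(u ≠ v) G(u,v)² card (divisors (u v))` (`a b ≤ (a² + b²) / 2`)
`≤ C L^ε' · 2 L h (∑_(v ≤ L) 1/v)²`, and `∑ 1/v ≤ 1 + log L ≤ C' L^ε'`.
-/

set_option autoImplicit false

namespace Pool.Agent.P4f18dfW

open Finset Pool.Agent.P4f18dfQ Pool.Agent.P4f18df

/-- pairs of different squarefree numbers up to `L` at distance less than `h` -/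
def Prs (L h : ℕ) : Finset (ℕ × ℕ) :=
  ((Icc 1 L) ×ˢ (Icc 1 L)).filter
    (fun z => z.1 ≠ z.2 ∧ Squarefree z.1 ∧ Squarefree z.2 ∧ z.1 < z.2 + h ∧ z.2 < z.1 + h)

namespace CntAux

/-- the reduced pair -/
def red (z : ℕ × ℕ) : ℕ × ℕ := (z.1 / Nat.gcd z.1 z.2, z.2 / Nat.gcd z.1 z.2)

/-- the reduced pairs with different entries -/
def DD (L : ℕ) : Finset (ℕ × ℕ) := ((Icc 1 L) ×ˢ (Icc 1 L)).filter (fun x => x.1 ≠ x.2)

lemma red_spec {L h : ℕ} {z : ℕ × ℕ} (hz : z ∈ Prs L h) :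
    1 ≤ Nat.gcd z.1 z.2 ∧ Nat.gcd z.1 z.2 * (red z).1 = z.1 ∧ Nat.gcd z.1 z.2 * (red z).2 = z.2 ∧
      Squarefree ((red z).1 * (red z).2) ∧ red z ∈ DD L := by
  unfold Prs at hz
  rw [mem_filter, mem_product, mem_Icc, mem_Icc] at hz
  obtain ⟨⟨⟨h1, h2⟩, h3, h4⟩, h5, h6, h7, -, -⟩ := hz
  have hg : 0 < Nat.gcd z.1 z.2 := Nat.gcd_pos_of_pos_left _ h1
  have e1 : Nat.gcd z.1 z.2 * (z.1 / Nat.gcd z.1 z.2) = z.1 :=
    Nat.mul_div_cancel' (Nat.gcd_dvd_left _ _)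
  have e2 : Nat.gcd z.1 z.2 * (z.2 / Nat.gcd z.1 z.2) = z.2 :=
    Nat.mul_div_cancel' (Nat.gcd_dvd_right _ _)
  refine ⟨hg, e1, e2, ?_, ?_⟩
  · have hc : Nat.Coprime (z.1 / Nat.gcd z.1 z.2) (z.2 / Nat.gcd z.1 z.2) :=
      Nat.coprime_div_gcd_div_gcd hg
    unfold red
    rw [Nat.squarefree_mul hc]
    exact ⟨h6.squarefree_of_dvd (Dvd.intro_left _ e1), h7.squarefree_of_dvd (Dvd.intro_left _ e2)⟩
  · unfold DD red
    rw [mem_filter, mem_product, mem_Icc, mem_Icc]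
    refine ⟨⟨⟨?_, ?_⟩, ?_, ?_⟩, ?_⟩
    · exact Nat.div_pos (Nat.le_of_dvd h1 (Nat.gcd_dvd_left _ _)) hg
    · exact (Nat.div_le_self _ _).trans h2
    · exact Nat.div_pos (Nat.le_of_dvd h3 (Nat.gcd_dvd_right _ _)) hg
    · exact (Nat.div_le_self _ _).trans h4
    · intro he
      simp only at he
      apply h5
      calc z.1 = Nat.gcd z.1 z.2 * (z.1 / Nat.gcd z.1 z.2) := e1.symm
        _ = Nat.gcd z.1 z.2 * (z.2 / Nat.gcd z.1 z.2) := by rw [he]
        _ = z.2 := e2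

lemma sq_cancel {a X : ℕ} (ha : 0 < a) (h : IsSquare (a ^ 2 * X)) : IsSquare X := by
  obtain ⟨w, hw⟩ := h
  have h1 : a ∣ w := by
    rw [← Nat.pow_dvd_pow_iff (n := 2) (by norm_num), pow_two w, ← hw]
    exact dvd_mul_right _ _
  obtain ⟨e, rfl⟩ := h1
  refine ⟨e, ?_⟩
  have h2 : 0 < a ^ 2 := by positivity
  apply Nat.eq_of_mul_eq_mul_left h2
  rw [hw]
  ring

lemma key_eq {L h : ℕ} {z z' : ℕ × ℕ} (hz : z ∈ Prs L h) (hz' : z' ∈ Prs L h)
    (hs : IsSquare (z.1 * z.2 * (z'.1 * z'.2))) :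
    (red z).1 * (red z).2 = (red z').1 * (red z').2 := by
  obtain ⟨a1, a2, a3, a4, -⟩ := red_spec hz
  obtain ⟨b1, b2, b3, b4, -⟩ := red_spec hz'
  apply Pool.Agent.P4f18dfT.Pairs.eq_of_sq a4 b4
  apply sq_cancel (a := Nat.gcd z.1 z.2 * Nat.gcd z'.1 z'.2) (Nat.mul_pos a1 b1)
  have e : (Nat.gcd z.1 z.2 * Nat.gcd z'.1 z'.2) ^ 2 *
      ((red z).1 * (red z).2 * ((red z').1 * (red z').2)) =
      (Nat.gcd z.1 z.2 * (red z).1) * (Nat.gcd z.1 z.2 * (red z).2) *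
      ((Nat.gcd z'.1 z'.2 * (red z').1) * (Nat.gcd z'.1 z'.2 * (red z').2)) := by ring
  rw [e, a2, a3, b2, b3]
  exact hs

/-- the pairs with a given reduced pair -/
def GG (L h : ℕ) (x : ℕ × ℕ) : Finset (ℕ × ℕ) := (Prs L h).filter (fun z => red z = x)

lemma gg_inj {L h : ℕ} {x : ℕ × ℕ} :
    Set.InjOn (fun z : ℕ × ℕ => Nat.gcd z.1 z.2) (GG L h x : Set (ℕ × ℕ)) := by
  intro z hz z' hz' he
  unfold GG at hz hz'
  rw [mem_coe, mem_filter] at hz hz'
  obtain ⟨-, a2, a3, -, -⟩ := red_spec hz.1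
  obtain ⟨-, b2, b3, -, -⟩ := red_spec hz'.1
  simp only at he
  rw [hz.2] at a2 a3
  rw [hz'.2] at b2 b3
  refine Prod.ext ?_ ?_
  · rw [← a2, ← b2, he]
  · rw [← a3, ← b3, he]

lemma gg_le1 {L h u v : ℕ} (hu : 1 ≤ u) (hv : 1 ≤ v) :
    ((GG L h (u, v)).card : ℝ) ≤ (L : ℝ) / v ∧ ((GG L h (u, v)).card : ℝ) ≤ (L : ℝ) / u := by
  constructor
  · have h1 : (GG L h (u, v)).card ≤ (Icc 1 (L / v)).card := by
      refine card_le_card_of_injOn _ ?_ gg_inj
      intro z hz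
      rw [mem_coe] at hz
      unfold GG at hz
      rw [mem_filter] at hz
      obtain ⟨a1, -, a3, -, -⟩ := red_spec hz.1
      rw [hz.2] at a3
      have hz2 := (mem_filter.1 hz.1).1
      rw [mem_product, mem_Icc, mem_Icc] at hz2
      simp only [coe_Icc, Set.mem_Icc]
      refine ⟨a1, ?_⟩
      rw [Nat.le_div_iff_mul_le hv, a3]
      exact hz2.2.2
    rw [Nat.card_Icc, Nat.add_sub_cancel] at h1
    exact (Nat.cast_le.2 h1).trans Nat.cast_div_le
  · have h1 : (GG L h (u, v)).card ≤ (Icc 1 (L / u)).card := by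
      refine card_le_card_of_injOn _ ?_ gg_inj
      intro z hz
      rw [mem_coe] at hz
      unfold GG at hz
      rw [mem_filter] at hz
      obtain ⟨a1, a2, -, -, -⟩ := red_spec hz.1
      rw [hz.2] at a2
      have hz2 := (mem_filter.1 hz.1).1
      rw [mem_product, mem_Icc, mem_Icc] at hz2
      simp only [coe_Icc, Set.mem_Icc]
      refine ⟨a1, ?_⟩
      rw [Nat.le_div_iff_mul_le hu, a2]
      exact hz2.1.2
    rw [Nat.card_Icc, Nat.add_sub_cancel] at h1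
    exact (Nat.cast_le.2 h1).trans Nat.cast_div_le

lemma gg_le2 {L h u v : ℕ} (huv : u ≠ v) :
    ((GG L h (u, v)).card : ℝ) ≤ (h : ℝ) / (Nat.dist u v : ℕ) := by
  have hd : 0 < Nat.dist u v := Nat.dist_pos_of_ne huv
  have h1 : (GG L h (u, v)).card ≤ (Icc 1 (h / Nat.dist u v)).card := by
    refine card_le_card_of_injOn _ ?_ gg_inj
    intro z hz
    rw [mem_coe] at hz
    unfold GG at hz
    rw [mem_filter] at hz
    obtain ⟨a1, a2, a3, -, -⟩ := red_spec hz.1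
    rw [hz.2] at a2 a3
    have hz2 := (mem_filter.1 hz.1).2
    simp only [coe_Icc, Set.mem_Icc]
    refine ⟨a1, ?_⟩
    rw [Nat.le_div_iff_mul_le hd]
    have e : Nat.gcd z.1 z.2 * Nat.dist u v = Nat.dist z.1 z.2 := by
      rw [← Nat.dist_mul_left]
      simp only at a2 a3
      rw [a2, a3]
    rw [e]
    unfold Nat.dist
    omega
  rw [Nat.card_Icc, Nat.add_sub_cancel] at h1
  exact (Nat.cast_le.2 h1).trans Nat.cast_div_le

/-- the harmonic sum -/
noncomputable def hs (L : ℕ) : ℝ := ∑ v ∈ Icc 1 L, 1 / (v : ℝ)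

lemma hs_le {L : ℕ} : hs L ≤ 1 + Real.log L := by
  have h1 := harmonic_le_one_add_log L
  rw [harmonic_eq_sum_Icc] at h1
  push_cast at h1
  unfold hs
  simp only [one_div]
  exact h1

lemma hs_nonneg (L : ℕ) : 0 ≤ hs L := sum_nonneg fun v _ => by positivity

lemma sum_lt (L h : ℕ) :
    ∑ x ∈ (DD L).filter (fun x => x.1 < x.2), ((GG L h x).card : ℝ) ^ 2 ≤ L * h * hs L ^ 2 := by
  have h1 : ∀ x ∈ (DD L).filter (fun x => x.1 < x.2), ((GG L h x).card : ℝ) ^ 2 ≤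
      L * h * ((1 / (x.2 : ℝ)) * (1 / ((x.2 - x.1 : ℕ) : ℝ))) := by
    rintro ⟨u, v⟩ hx
    rw [mem_filter] at hx
    have hx1 := hx.1
    unfold DD at hx1
    rw [mem_filter, mem_product, mem_Icc, mem_Icc] at hx1
    simp only at hx hx1 ⊢
    have a := (gg_le1 (L := L) (h := h) hx1.1.1.1 hx1.1.2.1).1
    have b := gg_le2 (L := L) (h := h) hx1.2
    have e : Nat.dist u v = v - u := by
      rw [Nat.dist_eq_sub_of_le hx.2.le]
    rw [e] at b
    calc ((GG L h (u, v)).card : ℝ) ^ 2 = (GG L h (u, v)).card * (GG L h (u, v)).card := pow_two _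
      _ ≤ (L / v) * (h / ((v - u : ℕ) : ℝ)) :=
          mul_le_mul a b (Nat.cast_nonneg _) (by positivity)
      _ = _ := by ring
  refine (sum_le_sum h1).trans ?_
  rw [← mul_sum]
  refine mul_le_mul_of_nonneg_left ?_ (by positivity)
  unfold hs
  rw [pow_two, sum_mul_sum, ← sum_product']
  have hinj : Set.InjOn (fun x : ℕ × ℕ => (x.2, x.2 - x.1))
      ((DD L).filter (fun x => x.1 < x.2) : Set (ℕ × ℕ)) := by
    rintro ⟨u, v⟩ hx ⟨u', v'⟩ hx' he
    rw [mem_coe, mem_filter] at hx hx'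
    simp only [Prod.mk.injEq] at he hx hx' ⊢
    omega
  have h2 := sum_image (f := fun y : ℕ × ℕ => (1 / (y.1 : ℝ)) * (1 / (y.2 : ℝ))) hinj
  simp only at h2
  rw [← h2]
  refine sum_le_sum_of_subset_of_nonneg ?_ fun y _ _ => by positivity
  intro y hy
  rw [mem_image] at hy
  obtain ⟨⟨u, v⟩, hx, rfl⟩ := hy
  rw [mem_filter] at hx
  have hx1 := hx.1
  unfold DD at hx1
  rw [mem_filter, mem_product, mem_Icc, mem_Icc] at hx1
  simp only at hx hx1
  rw [mem_product, mem_Icc, mem_Icc]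
  simp only
  omega

lemma sum_gt (L h : ℕ) :
    ∑ x ∈ (DD L).filter (fun x => x.2 < x.1), ((GG L h x).card : ℝ) ^ 2 ≤ L * h * hs L ^ 2 := by
  have h1 : ∀ x ∈ (DD L).filter (fun x => x.2 < x.1), ((GG L h x).card : ℝ) ^ 2 ≤
      L * h * ((1 / (x.1 : ℝ)) * (1 / ((x.1 - x.2 : ℕ) : ℝ))) := by
    rintro ⟨u, v⟩ hx
    rw [mem_filter] at hx
    have hx1 := hx.1
    unfold DD at hx1
    rw [mem_filter, mem_product, mem_Icc, mem_Icc] at hx1
    simp only at hx hx1 ⊢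
    have a := (gg_le1 (L := L) (h := h) hx1.1.1.1 hx1.1.2.1).2
    have b := gg_le2 (L := L) (h := h) hx1.2
    have e : Nat.dist u v = u - v := by
      rw [Nat.dist_eq_sub_of_le_right hx.2.le]
    rw [e] at b
    calc ((GG L h (u, v)).card : ℝ) ^ 2 = (GG L h (u, v)).card * (GG L h (u, v)).card := pow_two _
      _ ≤ (L / u) * (h / ((u - v : ℕ) : ℝ)) :=
          mul_le_mul a b (Nat.cast_nonneg _) (by positivity)
      _ = _ := by ring
  refine (sum_le_sum h1).trans ?_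
  rw [← mul_sum]
  refine mul_le_mul_of_nonneg_left ?_ (by positivity)
  unfold hs
  rw [pow_two, sum_mul_sum, ← sum_product']
  have hinj : Set.InjOn (fun x : ℕ × ℕ => (x.1, x.1 - x.2))
      ((DD L).filter (fun x => x.2 < x.1) : Set (ℕ × ℕ)) := by
    rintro ⟨u, v⟩ hx ⟨u', v'⟩ hx' he
    rw [mem_coe, mem_filter] at hx hx'
    simp only [Prod.mk.injEq] at he hx hx' ⊢
    omega
  have h2 := sum_image (f := fun y : ℕ × ℕ => (1 / (y.1 : ℝ)) * (1 / (y.2 : ℝ))) hinj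
  simp only at h2
  rw [← h2]
  refine sum_le_sum_of_subset_of_nonneg ?_ fun y _ _ => by positivity
  intro y hy
  rw [mem_image] at hy
  obtain ⟨⟨u, v⟩, hx, rfl⟩ := hy
  rw [mem_filter] at hx
  have hx1 := hx.1
  unfold DD at hx1
  rw [mem_filter, mem_product, mem_Icc, mem_Icc] at hx1
  simp only at hx hx1
  rw [mem_product, mem_Icc, mem_Icc]
  simp only
  omega

lemma sum_all (L h : ℕ) :
    ∑ x ∈ DD L, ((GG L h x).card : ℝ) ^ 2 ≤ 2 * (L * h * hs L ^ 2) := by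
  have h1 : DD L = (DD L).filter (fun x => x.1 < x.2) ∪ (DD L).filter (fun x => x.2 < x.1) := by
    ext x
    rw [mem_union, mem_filter, mem_filter]
    constructor
    · intro hx
      have hx1 := hx
      unfold DD at hx1
      rw [mem_filter] at hx1
      rcases lt_or_gt_of_ne hx1.2 with h | h
      · exact Or.inl ⟨hx, h⟩
      · exact Or.inr ⟨hx, h⟩
    · rintro (⟨h, -⟩ | ⟨h, -⟩) <;> exact h
  have h2 : Disjoint ((DD L).filter (fun x => x.1 < x.2)) ((DD L).filter (fun x => x.2 < x.1)) := by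
    rw [disjoint_filter]
    intro x _ h
    omega
  have h3 : ∑ x ∈ DD L, ((GG L h x).card : ℝ) ^ 2 =
      ∑ x ∈ (DD L).filter (fun x => x.1 < x.2), ((GG L h x).card : ℝ) ^ 2 +
      ∑ x ∈ (DD L).filter (fun x => x.2 < x.1), ((GG L h x).card : ℝ) ^ 2 := by
    rw [← sum_union h2, ← h1]
  rw [h3]
  linarith [sum_lt L h, sum_gt L h]

/-- the number of the pairs of pairs with the same product -/
lemma pairs_le (L h : ℕ) (T : ℝ) (hT : ∀ x ∈ DD L, ((x.1 * x.2).divisors.card : ℝ) ≤ T) :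
    ((((Prs L h) ×ˢ (Prs L h)).filter
      (fun w => (red w.1).1 * (red w.1).2 = (red w.2).1 * (red w.2).2)).card : ℝ) ≤
      T * ∑ x ∈ DD L, ((GG L h x).card : ℝ) ^ 2 := by
  classical
  obtain ⟨V, hV⟩ : ∃ V, V = (DD L).image (fun x => x.1 * x.2) := ⟨_, rfl⟩
  have hk : ∀ z ∈ Prs L h, (red z).1 * (red z).2 ∈ V := by
    intro z hz
    rw [hV, mem_image]
    exact ⟨red z, (red_spec hz).2.2.2.2, rfl⟩
  -- fibres over the product
  have h1 : ((((Prs L h) ×ˢ (Prs L h)).filter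
      (fun w => (red w.1).1 * (red w.1).2 = (red w.2).1 * (red w.2).2)).card : ℝ) =
      ∑ n ∈ V, (((Prs L h).filter (fun z => (red z).1 * (red z).2 = n)).card : ℝ) ^ 2 := by
    rw [card_eq_sum_card_fiberwise (f := fun w : (ℕ × ℕ) × (ℕ × ℕ) => (red w.1).1 * (red w.1).2)
      (t := V)]
    · push_cast
      refine sum_congr rfl fun n _ => ?_
      rw [pow_two, ← Nat.cast_mul, ← card_product]
      congr 2
      ext ⟨x, y⟩
      simp only [mem_filter, mem_product]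
      constructor
      · rintro ⟨⟨⟨h1, h2⟩, h3⟩, h4⟩
        exact ⟨⟨h1, h4⟩, h2, by rw [← h3, h4]⟩
      · rintro ⟨⟨h1, h2⟩, h3, h4⟩
        exact ⟨⟨⟨h1, h3⟩, by rw [h2, h4]⟩, h2⟩
    · intro w hw
      rw [mem_coe, mem_filter, mem_product] at hw
      exact hk w.1 hw.1.1
  rw [h1]
  have h2 : ∀ n ∈ V, (((Prs L h).filter (fun z => (red z).1 * (red z).2 = n)).card : ℝ) ^ 2 ≤
      T * ∑ x ∈ (DD L).filter (fun x => x.1 * x.2 = n), ((GG L h x).card : ℝ) ^ 2 := by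
    intro n hn
    have e1 : (((Prs L h).filter (fun z => (red z).1 * (red z).2 = n)).card : ℝ) =
        ∑ x ∈ (DD L).filter (fun x => x.1 * x.2 = n), ((GG L h x).card : ℝ) := by
      rw [card_eq_sum_card_fiberwise (f := red) (t := (DD L).filter (fun x => x.1 * x.2 = n))]
      · push_cast
        refine sum_congr rfl fun x hx => ?_
        congr 2
        unfold GG
        ext z
        rw [mem_filter, mem_filter, mem_filter]
        constructor
        · rintro ⟨⟨h1, -⟩, h3⟩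
          exact ⟨h1, h3⟩
        · rintro ⟨h1, h3⟩
          refine ⟨⟨h1, ?_⟩, h3⟩
          rw [h3]
          exact (mem_filter.1 hx).2
      · intro z hz
        rw [mem_coe, mem_filter] at hz
        rw [mem_coe, mem_filter]
        exact ⟨(red_spec hz.1).2.2.2.2, hz.2⟩
    rw [e1]
    refine (sq_sum_le_card_mul_sum_sq).trans ?_
    refine mul_le_mul_of_nonneg_right ?_ (sum_nonneg fun x _ => by positivity)
    rw [hV, mem_image] at hn
    obtain ⟨x0, hx0, hx0n⟩ := hn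
    refine le_trans ?_ (hT x0 hx0)
    rw [hx0n]
    refine Nat.cast_le.2 (card_le_card_of_injOn (fun x => x.1) ?_ ?_)
    · intro x hx
      rw [mem_coe, mem_filter] at hx
      rw [mem_coe, Nat.mem_divisors]
      refine ⟨Dvd.intro _ hx.2, ?_⟩
      have hx1 := hx.1
      unfold DD at hx1
      rw [mem_filter, mem_product, mem_Icc, mem_Icc] at hx1
      rw [← hx.2]
      exact Nat.mul_ne_zero (by omega) (by omega)
    · rintro ⟨a, b⟩ hx ⟨a', b'⟩ hx' he
      rw [mem_coe, mem_filter] at hx hx'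
      have hx1 := hx.1
      unfold DD at hx1
      rw [mem_filter, mem_product, mem_Icc, mem_Icc] at hx1
      simp only at he hx hx' hx1
      subst he
      have : b = b' := by
        have h5 : a * b = a * b' := by rw [hx.2, hx'.2]
        exact Nat.eq_of_mul_eq_mul_left (by omega) h5
      rw [this]
  refine (sum_le_sum h2).trans ?_
  rw [← mul_sum]
  refine le_of_eq ?_
  congr 1
  rw [hV]
  exact sum_fiberwise_of_maps_to (fun x hx => mem_image_of_mem _ hx) _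

end CntAux

open CntAux

open Classical in
theorem count (ε : ℝ) (hε : 0 < ε) : ∃ C : ℝ, 0 < C ∧ ∀ L h : ℕ, 1 ≤ L → 1 ≤ h →
    ((((Prs L h) ×ˢ (Prs L h)).filter
      (fun w => IsSquare (w.1.1 * w.1.2 * (w.2.1 * w.2.2)))).card : ℝ) ≤ C * (L : ℝ) ^ (1 + ε) * h := by
  obtain ⟨C1, hC1, hdiv⟩ := Pool.Agent.KeZhao.divisor_bound (ε / 4) (by positivity)
  refine ⟨C1 * 2 * (1 + 4 / ε) ^ 2, by positivity, ?_⟩
  intro L h hL hh
  have hLr : (1 : ℝ) ≤ L := by exact_mod_cast hL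
  have hL0 : (0 : ℝ) < L := by linarith
  have h1 : ((((Prs L h) ×ˢ (Prs L h)).filter
      (fun w => IsSquare (w.1.1 * w.1.2 * (w.2.1 * w.2.2)))).card : ℝ) ≤
      ((((Prs L h) ×ˢ (Prs L h)).filter
      (fun w => (red w.1).1 * (red w.1).2 = (red w.2).1 * (red w.2).2)).card : ℝ) := by
    refine Nat.cast_le.2 (card_le_card ?_)
    intro w hw
    rw [mem_filter, mem_product] at hw ⊢
    exact ⟨hw.1, key_eq hw.1.1 hw.1.2 hw.2⟩
  have hT : ∀ x ∈ DD L, ((x.1 * x.2).divisors.card : ℝ) ≤ C1 * (L : ℝ) ^ (ε / 2) := by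
    intro x hx
    unfold DD at hx
    rw [mem_filter, mem_product, mem_Icc, mem_Icc] at hx
    have hx0 : 0 < x.1 * x.2 := Nat.mul_pos (by omega) (by omega)
    refine (hdiv _ hx0).trans ?_
    refine mul_le_mul_of_nonneg_left ?_ (by linarith)
    have e : (L : ℝ) ^ (ε / 2) = ((L : ℝ) ^ (2 : ℕ)) ^ (ε / 4) := by
      rw [← Real.rpow_natCast, ← Real.rpow_mul hL0.le]
      congr 1
      push_cast
      ring
    rw [e]
    refine Real.rpow_le_rpow (Nat.cast_nonneg _) ?_ (by positivity)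
    have h3 : x.1 * x.2 ≤ L ^ 2 := by
      rw [pow_two]
      exact Nat.mul_le_mul hx.1.1.2 hx.1.2.2
    exact_mod_cast h3
  have h2 := pairs_le L h _ hT
  have h3 := sum_all L h
  have hlog : 1 + Real.log L ≤ (1 + 4 / ε) * (L : ℝ) ^ (ε / 4) := by
    have a := Real.log_le_rpow_div hL0.le (show 0 < ε / 4 by positivity)
    have b : (1 : ℝ) ≤ (L : ℝ) ^ (ε / 4) := Real.one_le_rpow hLr (by positivity)
    have c : (L : ℝ) ^ (ε / 4) / (ε / 4) = 4 / ε * (L : ℝ) ^ (ε / 4) := by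
      field_simp
    rw [c] at a
    linarith
  have hsq : hs L ^ 2 ≤ (1 + 4 / ε) ^ 2 * (L : ℝ) ^ (ε / 2) := by
    have a := hs_le.trans hlog
    have b := pow_le_pow_left₀ (hs_nonneg L) a 2
    refine b.trans (le_of_eq ?_)
    rw [mul_pow]
    congr 1
    rw [← Real.rpow_natCast, ← Real.rpow_mul hL0.le]
    congr 1
    push_cast
    ring
  have e : (L : ℝ) ^ (1 + ε) = (L : ℝ) ^ (ε / 2) * ((L : ℝ) * (L : ℝ) ^ (ε / 2)) := by
    rw [Real.rpow_add hL0, Real.rpow_one]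
    have : (L : ℝ) ^ ε = (L : ℝ) ^ (ε / 2) * (L : ℝ) ^ (ε / 2) := by
      rw [← Real.rpow_add hL0]
      congr 1
      ring
    rw [this]
    ring
  have hp : 0 ≤ (L : ℝ) ^ (ε / 2) := Real.rpow_nonneg hL0.le _
  calc ((((Prs L h) ×ˢ (Prs L h)).filter
      (fun w => IsSquare (w.1.1 * w.1.2 * (w.2.1 * w.2.2)))).card : ℝ)
      ≤ C1 * (L : ℝ) ^ (ε / 2) * ∑ x ∈ DD L, ((GG L h x).card : ℝ) ^ 2 := h1.trans h2
    _ ≤ C1 * (L : ℝ) ^ (ε / 2) * (2 * (L * h * ((1 + 4 / ε) ^ 2 * (L : ℝ) ^ (ε / 2)))) := by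
        refine mul_le_mul_of_nonneg_left (h3.trans ?_) (by positivity)
        refine mul_le_mul_of_nonneg_left ?_ (by norm_num)
        exact mul_le_mul_of_nonneg_left hsq (by positivity)
    _ = C1 * 2 * (1 + 4 / ε) ^ 2 * (L : ℝ) ^ (1 + ε) * h := by
        rw [e]
        ring

end Pool.Agent.P4f18dfW
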