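import Pool.Agent.Lib.P4f18dfQ.Interp
import Pool.Agent.Lib.P4f18dfQ.Sqc
import Pool.Agent.Lib.P4f18dfQ.NetM

/-!
# Variance for almost all quadratic twists up to the conductor: definitions
-/

set_option autoImplicit false

namespace Pool.Agent.P4f18dfW

open Finset Pool.Agent.P4f18df Pool.Agent.P4f18dfQ

/-- a sign -/
def sg (b : Bool) : ℝ := if b then 1 else -1

lemma sg_not (b : Bool) : sg (!b) = -sg b := by cases b <;> simp [sg]

lemma sg_sq (b : Bool) : sg b * sg b = 1 := by cases b <;> simp [sg]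

lemma abs_sg (b : Bool) : |sg b| = 1 := by cases b <;> simp [sg]

open scoped Matrix.Norms.L2Operator in
/-- operator norm of a real square matrix -/
noncomputable def nr {n : Type*} [Fintype n] [DecidableEq n] (A : Matrix n n ℝ) : ℝ := ‖A‖

/-- `v v^T` without its diagonal -/
def rk {h : ℕ} (v : Fin h → ℝ) : Matrix (Fin h) (Fin h) ℝ :=
  Matrix.of fun i j => if i = j then 0 else v i * v j

/-- `(χ_p(a+1), …, χ_p(a+h))` -/
noncomputable def vv (h p a : ℕ) : Fin h → ℝ := fun i => lg p (a + 1 + i)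

/-- the sum over the primes of `B` of `v v^T` without diagonal -/
noncomputable def Om (h : ℕ) (B : Finset ℕ) (a : ℕ) : Matrix (Fin h) (Fin h) ℝ :=
  ∑ p ∈ B, rk (vv h p a)

end Pool.Agent.P4f18dfW
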