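import Pool.Agent.Lib.P4f18dfW.NetQ
import Pool.Agent.Lib.P4f18dfQ.IntM

/-!
# The variance for almost all Legendre symbols at small scales
-/

set_option autoImplicit false

namespace Pool.Agent.P4f18dfW

open Finset Filter MeasureTheory Pool.Agent.P4f18dfQ Pool.Agent.P4f18df

namespace FinSAux

lemma ev_const (a K : ℝ) (ha : 0 < a) : ∀ᶠ P : ℕ in atTop, K ≤ (P : ℝ) ^ a :=
  ((tendsto_rpow_atTop ha).comp tendsto_natCast_atTop_atTop).eventually_ge_atTop K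

/-- the common part: from the cumulative mean squares to the integral -/
lemma finish {p : ℕ} {X H τ κ : ℝ} (hH : 1 ≤ H) (hHX : H ≤ X) (hτ : 0 ≤ τ)
    (hκ : 3 * τ + 10 * H / X ≤ κ)
    (h : ∀ m : ℕ, (m = ⌊H⌋₊ ∨ m = ⌊H⌋₊ + 1) → ∀ N : ℕ, (N = ⌊X - H / 2⌋₊ ∨ N = ⌊2 * X - H / 2⌋₊) →
      |Uk (fm p) m N - c2 * m * N| ≤ τ * m * N) :
    |(∫ x in X..(2 * X), (Ms (fm p) x H) ^ 2) / X - H / (Real.pi ^ 2 / 6)| ≤ κ * H := by
  have h1 := integral_Ms_sq (f := fm p) (abs_fm_le p) hH hHX hτ h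
  have hc2 : c2 * H = H / (Real.pi ^ 2 / 6) := by
    unfold c2
    have : (Real.pi : ℝ) ≠ 0 := Real.pi_ne_zero
    field_simp
  rw [hc2] at h1
  exact h1.trans (mul_le_mul_of_nonneg_right hκ (by linarith))

end FinSAux

open FinSAux

theorem main_s (ε : ℝ) (hε : 0 < ε) : ∃ c : ℝ, 0 < c ∧ ∃ P₀ : ℕ, ∀ P : ℕ, P₀ ≤ P →
    ∃ B : Finset ℕ, (B.card : ℝ) ≤ (P : ℝ) ^ (1 - c) ∧
      ∀ p : ℕ, p.Prime → P < p → p ≤ 2 * P → p ∉ B →
        ∀ X : ℝ, (P : ℝ) ^ ε ≤ X → X ≤ (P : ℝ) ^ (1 / 4 - ε) →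
          ∀ H : ℝ, 1 ≤ H → H ≤ X ^ (1 - ε) →
            |(∫ x in X..(2 * X), (Ms (fm p) x H) ^ 2) / X - H / (Real.pi ^ 2 / 6)| ≤
              (P : ℝ) ^ (-c) * H := by
  set e : ℝ := min ε (1 / 20) with he
  have he0 : 0 < e := lt_min hε (by norm_num)
  have heε : e ≤ ε := min_le_left _ _
  have he1 : e ≤ 1 / 20 := min_le_right _ _
  obtain ⟨c₂, hc₂, hS⟩ := bad_quarter (e / 2) (by positivity) (by linarith)
  set c : ℝ := min c₂ (e ^ 2 / 4) with hc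
  have hc0 : 0 < c := lt_min hc₂ (by positivity)
  have hcc2 : c ≤ c₂ := min_le_left _ _
  have hce : c ≤ e ^ 2 / 4 := min_le_right _ _
  obtain ⟨P₂, hP₂⟩ := hS c hc0 hcc2
  have hee : e ^ 2 ≤ e / 20 := by nlinarith
  obtain ⟨P₃, hP₃⟩ := eventually_atTop.1
    (((ev_const c 6 hc0).and (ev_const (e ^ 2 / 4) 20 (by positivity))).and
      ((ev_const (e / 2) 20 (by positivity)).and
      ((eventually_ge_atTop P₂).and (eventually_ge_atTop 10))))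
  refine ⟨c, hc0, P₃, ?_⟩
  intro P hP
  obtain ⟨⟨g1, g2⟩, g3, g5, g6⟩ := hP₃ P hP
  have hPr : (10 : ℝ) ≤ P := by exact_mod_cast g6
  have hP0 : (0 : ℝ) < P := by linarith
  have hP1 : (1 : ℝ) ≤ P := by linarith
  obtain ⟨B₂, hB₂, hB₂'⟩ := hP₂ P g5
  refine ⟨B₂, ?_, ?_⟩
  · have h2 : 0 ≤ (P : ℝ) ^ (1 - c) := by positivity
    linarith
  intro p hp hpP hpP2 hpB X hX1 hX2 H hH1 hH2
  have hpPP : p ∈ PP P := mem_PP.2 ⟨⟨hpP, hpP2⟩, hp⟩
  have hH0 : 0 < H := by linarith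
  -- powers of `P`
  have hcc : (P : ℝ) ^ (-c) * (P : ℝ) ^ c = 1 := by
    rw [← Real.rpow_add hP0]; simp
  have hcpos : 0 < (P : ℝ) ^ (-c) := Real.rpow_pos_of_pos hP0 _
  have hτ : (P : ℝ) ^ (-(2 * c)) = (P : ℝ) ^ (-c) * (P : ℝ) ^ (-c) := by
    rw [← Real.rpow_add hP0]; congr 1; ring
  have h3τ : 3 * (P : ℝ) ^ (-(2 * c)) ≤ (P : ℝ) ^ (-c) / 2 := by
    rw [hτ]; nlinarith
  have hm : ∀ m : ℕ, (m = ⌊H⌋₊ ∨ m = ⌊H⌋₊ + 1) → 1 ≤ m ∧ (m : ℝ) ≤ 2 * H := by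
    intro m hm
    have hfl1 : 1 ≤ ⌊H⌋₊ := Nat.le_floor (by exact_mod_cast hH1)
    have hfl2 : ((⌊H⌋₊ : ℕ) : ℝ) ≤ H := Nat.floor_le hH0.le
    rcases hm with h | h
    · exact ⟨by omega, by rw [h]; linarith⟩
    · exact ⟨by omega, by rw [h]; push_cast; linarith⟩
  have hNr : H ≤ X → 6 ≤ X → ∀ N : ℕ, (N = ⌊X - H / 2⌋₊ ∨ N = ⌊2 * X - H / 2⌋₊) →
      X / 3 ≤ N ∧ (N : ℝ) ≤ 2 * X := by
    intro hHX h6 N hN
    rcases hN with h | h
    · have h1 : X - H / 2 < ((⌊X - H / 2⌋₊ : ℕ) : ℝ) + 1 := Nat.lt_floor_add_one _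
      have h2 : ((⌊X - H / 2⌋₊ : ℕ) : ℝ) ≤ X - H / 2 := Nat.floor_le (by linarith)
      rw [h]
      exact ⟨by linarith, by linarith⟩
    · have h1 : 2 * X - H / 2 < ((⌊2 * X - H / 2⌋₊ : ℕ) : ℝ) + 1 := Nat.lt_floor_add_one _
      have h2 : ((⌊2 * X - H / 2⌋₊ : ℕ) : ℝ) ≤ 2 * X - H / 2 := Nat.floor_le (by linarith)
      rw [h]
      exact ⟨by linarith, by linarith⟩
  have hXe : (P : ℝ) ^ e ≤ X := (Real.rpow_le_rpow_of_exponent_le hP1 heε).trans hX1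
  have hXe2 : X ≤ (P : ℝ) ^ (1 / 4 - e) :=
    hX2.trans (Real.rpow_le_rpow_of_exponent_le hP1 (by linarith))
  have hXP : X ≤ P := by
    refine hXe2.trans ?_
    calc (P : ℝ) ^ (1 / 4 - e) ≤ (P : ℝ) ^ (1 : ℝ) :=
          Real.rpow_le_rpow_of_exponent_le hP1 (by linarith)
      _ = P := Real.rpow_one _
  have h20 : (20 : ℝ) ≤ (P : ℝ) ^ e := by
    refine g3.trans (Real.rpow_le_rpow_of_exponent_le hP1 (by linarith))
  have hX20 : 20 ≤ X := h20.trans hXe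
  have hX0 : 0 < X := by linarith
  have hX1' : 1 ≤ X := by linarith
  have hHe : H ≤ X ^ (1 - e) :=
    hH2.trans (Real.rpow_le_rpow_of_exponent_le hX1' (by linarith))
  have hHX : H ≤ X := by
    refine hHe.trans ?_
    calc X ^ (1 - e) ≤ X ^ (1 : ℝ) := Real.rpow_le_rpow_of_exponent_le hX1' (by linarith)
      _ = X := Real.rpow_one _
  -- `X ^ (e / 2) ≥ 20`
  have hXe3 : (20 : ℝ) ≤ X ^ (e / 4) := by
    calc (20 : ℝ) ≤ (P : ℝ) ^ (e ^ 2 / 4) := g2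
      _ = ((P : ℝ) ^ e) ^ (e / 4) := by
          rw [← Real.rpow_mul hP0.le]; congr 1; ring
      _ ≤ X ^ (e / 4) := Real.rpow_le_rpow (by positivity) hXe (by positivity)
  have hXe4 : (20 : ℝ) ≤ X ^ (e / 2) :=
    hXe3.trans (Real.rpow_le_rpow_of_exponent_le hX1' (by linarith))
  refine finish hH1 hHX (τ := (P : ℝ) ^ (-(2 * c))) (by positivity) ?_ ?_
  · have k1 : 10 * H / X ≤ (P : ℝ) ^ (-c) / 2 := by
      rw [div_le_iff₀ hX0]
      have a1 : X ^ (1 - e) = X * X ^ (-e) := by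
        rw [← Real.rpow_one_add' hX0.le (by linarith)]; congr 1
      have a2 : X ^ (-e) ≤ (P : ℝ) ^ (-(e ^ 2)) := by
        rw [Real.rpow_neg hX0.le, Real.rpow_neg hP0.le]
        apply inv_anti₀ (by positivity)
        calc (P : ℝ) ^ (e ^ 2) = ((P : ℝ) ^ e) ^ e := by
              rw [← Real.rpow_mul hP0.le]; congr 1; ring
          _ ≤ X ^ e := Real.rpow_le_rpow (by positivity) hXe (by positivity)
      have a3 : (P : ℝ) ^ (-(e ^ 2)) * 20 ≤ (P : ℝ) ^ (-c) := by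
        calc (P : ℝ) ^ (-(e ^ 2)) * 20 ≤ (P : ℝ) ^ (-(e ^ 2)) * (P : ℝ) ^ (e ^ 2 / 4) :=
              mul_le_mul_of_nonneg_left g2 (by positivity)
          _ = (P : ℝ) ^ (-(e ^ 2) + e ^ 2 / 4) := by rw [← Real.rpow_add hP0]
          _ ≤ (P : ℝ) ^ (-c) := Real.rpow_le_rpow_of_exponent_le hP1 (by nlinarith [sq_nonneg e])
      have a4 : H ≤ X * (P : ℝ) ^ (-(e ^ 2)) := by
        refine hHe.trans ?_
        rw [a1]
        exact mul_le_mul_of_nonneg_left a2 hX0.le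
      nlinarith
    linarith
  · intro m hm1 N hN1
    obtain ⟨m1, m2⟩ := hm m hm1
    obtain ⟨n1, n2⟩ := hNr hHX (by linarith) N hN1
    have hN0 : (0 : ℝ) < N := by linarith
    refine hB₂' p hpPP hpB m N m1 ?_ ?_ ?_
    · -- `m ≤ N ^ (1 - e / 2)`
      have b1 : X ^ (1 - e) * 20 ≤ X ^ (1 - e / 2) := by
        calc X ^ (1 - e) * 20 ≤ X ^ (1 - e) * X ^ (e / 2) :=
              mul_le_mul_of_nonneg_left hXe4 (by positivity)
          _ = X ^ (1 - e / 2) := by rw [← Real.rpow_add hX0]; congr 1; ring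
      have b2 : X ^ (1 - e / 2) ≤ 3 * (N : ℝ) ^ (1 - e / 2) := by
        have : X ≤ 3 * N := by linarith
        calc X ^ (1 - e / 2) ≤ (3 * (N : ℝ)) ^ (1 - e / 2) :=
              Real.rpow_le_rpow hX0.le this (by linarith)
          _ = 3 ^ (1 - e / 2) * (N : ℝ) ^ (1 - e / 2) := Real.mul_rpow (by norm_num) hN0.le
          _ ≤ 3 * (N : ℝ) ^ (1 - e / 2) := by
              refine mul_le_mul_of_nonneg_right ?_ (by positivity)
              calc (3 : ℝ) ^ (1 - e / 2) ≤ 3 ^ (1 : ℝ) :=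
                    Real.rpow_le_rpow_of_exponent_le (by norm_num) (by linarith)
                _ = 3 := Real.rpow_one _
      have b3 : 0 ≤ (N : ℝ) ^ (1 - e / 2) := by positivity
      linarith
    · -- `P ^ (e / 2) ≤ N`
      have b1 : (P : ℝ) ^ e = (P : ℝ) ^ (e / 2) * (P : ℝ) ^ (e / 2) := by
        rw [← Real.rpow_add hP0]; congr 1; ring
      have b2 : 0 ≤ (P : ℝ) ^ (e / 2) := by positivity
      have b3 : 20 * (P : ℝ) ^ (e / 2) ≤ X := by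
        refine le_trans ?_ hXe
        rw [b1]
        exact mul_le_mul_of_nonneg_right g3 b2
      linarith
    · have b1 : (P : ℝ) ^ (1 / 4 - e / 2) = (P : ℝ) ^ (1 / 4 - e) * (P : ℝ) ^ (e / 2) := by
        rw [← Real.rpow_add hP0]; congr 1; ring
      have b2 : 0 ≤ (P : ℝ) ^ (1 / 4 - e) := by positivity
      rw [b1]
      nlinarith

end Pool.Agent.P4f18dfW
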