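import Pool.Agent.Lib.P4f18dfW.TrIneq

/-!
# Matrix Khintchine inequality (Tropp's elementary proof)

Module W.Khin.  `T k = ∑_e trace (X_e^(2k))`, `X_e = ∑ sg(e i) A_i`.  For `k ≥ 1`:
`T k = ∑_i ∑_e sg(e i) trace (A_i X_e^(2k-1))`; let `e'` be `e` with the `i`-th sign changed
(`Function.update e i (!e i)`, an involution), `X_{e'} = X_e - 2 sg(e i) A_i`, so
`T k = 1/2 ∑_i ∑_e sg(e i) trace (A_i (X_e^(2k-1) - X_{e'}^(2k-1)))`, and
`A^r - B^r = ∑_(q<r) A^q (A - B) B^(r-1-q)` gives
`T k = ∑_i ∑_e ∑_(q ≤ 2k-2) trace (A_i X_e^q A_i X_{e'}^(2k-2-q))`; pairing `q` with `2k-2-q`, `gm_am`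
gives `T k ≤ (2k-1)/2 ∑_i ∑_e trace (A_i² (X_e^(2k-2) + X_{e'}^(2k-2))) = (2k-1) ∑_e trace ((∑ A_i²) X_e^(2k-2))
≤ (2k-1) lam T (k-1)` (`trace (V X) ≤ lam trace X` for `X = Y Y` positive semidefinite, `lam - V` positive
semidefinite).
-/

set_option autoImplicit false

namespace Pool.Agent.P4f18dfW

open Matrix Finset

section

variable {n ι : Type*} [Fintype n] [DecidableEq n] [Fintype ι] [DecidableEq ι]

/-- the random sum -/
def Xs (A : ι → Matrix n n ℝ) (e : ι → Bool) : Matrix n n ℝ := ∑ i, sg (e i) • A i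

/-- change the `i`-th sign -/
def flp (i : ι) (e : ι → Bool) : ι → Bool := Function.update e i (!e i)

lemma flp_flp (i : ι) (e : ι → Bool) : flp i (flp i e) = e := by
  unfold flp
  ext j
  by_cases h : j = i
  · subst h; simp
  · simp [h]

lemma flp_same (i : ι) (e : ι → Bool) : flp i e i = !e i := by
  unfold flp; simp

lemma sum_flp (i : ι) (F : (ι → Bool) → ℝ) : ∑ e, F (flp i e) = ∑ e, F e := by
  refine Finset.sum_bij (fun e _ => flp i e) (fun _ _ => mem_univ _) ?_ ?_ (fun _ _ => rfl)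
  · intro a _ b _ h
    have := congrArg (flp i) h
    rwa [flp_flp, flp_flp] at this
  · intro b _
    exact ⟨flp i b, mem_univ _, flp_flp i b⟩

lemma Xs_flp (A : ι → Matrix n n ℝ) (i : ι) (e : ι → Bool) :
    Xs A e - Xs A (flp i e) = (2 * sg (e i)) • A i := by
  unfold Xs
  rw [← Finset.sum_sub_distrib]
  rw [Finset.sum_eq_single i]
  · rw [flp_same, sg_not, ← sub_smul]
    congr 1
    ring
  · intro j _ hj
    have : flp i e j = e j := by unfold flp; simp [hj]
    rw [this, sub_self]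
  · intro h; exact absurd (mem_univ _) h

lemma Xs_herm {A : ι → Matrix n n ℝ} (hA : ∀ i, (A i).IsHermitian) (e : ι → Bool) :
    (Xs A e).IsHermitian := by
  unfold Xs
  unfold Matrix.IsHermitian
  rw [Matrix.conjTranspose_sum]
  refine Finset.sum_congr rfl fun i _ => ?_
  rw [Matrix.conjTranspose_smul, (hA i).eq]
  simp

lemma pow_sub (A B : Matrix n n ℝ) (r : ℕ) :
    A ^ r - B ^ r = ∑ q ∈ range r, A ^ q * (A - B) * B ^ (r - 1 - q) := by
  induction r with
  | zero => simp
  | succ r ih =>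
    rw [Finset.sum_range_succ]
    have h1 : ∑ q ∈ range r, A ^ q * (A - B) * B ^ (r + 1 - 1 - q) =
        (∑ q ∈ range r, A ^ q * (A - B) * B ^ (r - 1 - q)) * B := by
      rw [Finset.sum_mul]
      refine Finset.sum_congr rfl fun q hq => ?_
      rw [mem_range] at hq
      have : r + 1 - 1 - q = (r - 1 - q) + 1 := by omega
      rw [this, pow_succ]
      simp only [Matrix.mul_assoc]
    rw [h1, ← ih]
    have h2 : r + 1 - 1 - r = 0 := by omega
    rw [h2, pow_zero, Matrix.mul_one, pow_succ, pow_succ]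
    rw [Matrix.sub_mul, Matrix.mul_sub]
    abel

/-- `trace (V X) ≤ lam trace X` -/
lemma trace_V_le {V X : Matrix n n ℝ} {lam : ℝ} (hV : (lam • (1 : Matrix n n ℝ) - V).PosSemidef)
    (hX : X.IsHermitian) (r : ℕ) : (V * X ^ (2 * r)).trace ≤ lam * (X ^ (2 * r)).trace := by
  have hXr : (X ^ r).IsHermitian := hX.pow r
  have h1 : X ^ (2 * r) = X ^ r * X ^ r := by rw [← pow_add]; congr 1; ring
  have h2 : (0 : ℝ) ≤ ((X ^ r)ᴴ * (lam • (1 : Matrix n n ℝ) - V) * (X ^ r)).trace :=
    (hV.conjTranspose_mul_mul_same (X ^ r)).trace_nonneg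
  rw [hXr.eq] at h2
  have h3 : (X ^ r * (lam • (1 : Matrix n n ℝ) - V) * X ^ r).trace =
      lam * (X ^ (2 * r)).trace - (V * X ^ (2 * r)).trace := by
    rw [Matrix.mul_sub, Matrix.sub_mul, Matrix.trace_sub, Matrix.mul_smul, Matrix.mul_one,
      Matrix.smul_mul, Matrix.trace_smul, ← h1, smul_eq_mul]
    congr 1
    rw [Matrix.mul_assoc, Matrix.trace_mul_comm, Matrix.mul_assoc, ← h1]
  linarith

/-- one step of the recursion -/
lemma step {A : ι → Matrix n n ℝ} (hA : ∀ i, (A i).IsHermitian) {lam : ℝ}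
    (hV : (lam • (1 : Matrix n n ℝ) - ∑ i, A i * A i).PosSemidef) (k : ℕ) :
    ∑ e, (Xs A e ^ (2 * (k + 1))).trace ≤ (2 * k + 1) * lam * ∑ e, (Xs A e ^ (2 * k)).trace := by
  -- first expansion
  have e1 : ∑ e, (Xs A e ^ (2 * (k + 1))).trace =
      ∑ i, ∑ e, sg (e i) * (A i * Xs A e ^ (2 * k + 1)).trace := by
    rw [Finset.sum_comm]
    refine Finset.sum_congr rfl fun e _ => ?_
    have : 2 * (k + 1) = (2 * k + 1) + 1 := by ring
    rw [this, pow_succ']
    conv_lhs => rw [show Xs A e * Xs A e ^ (2 * k + 1) = (∑ i, sg (e i) • A i) * Xs A e ^ (2 * k + 1) from rfl]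
    rw [Finset.sum_mul, Matrix.trace_sum]
    refine Finset.sum_congr rfl fun i _ => ?_
    rw [Matrix.smul_mul, Matrix.trace_smul, smul_eq_mul]
  -- symmetrize in the `i`-th sign
  have e2 : ∀ i, ∑ e, sg (e i) * (A i * Xs A e ^ (2 * k + 1)).trace =
      ∑ e, ∑ q ∈ range (2 * k + 1), (A i * Xs A e ^ q * A i * Xs A (flp i e) ^ (2 * k - q)).trace := by
    intro i
    have h1 : ∑ e, sg (e i) * (A i * Xs A e ^ (2 * k + 1)).trace =
        ∑ e, sg (flp i e i) * (A i * Xs A (flp i e) ^ (2 * k + 1)).trace :=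
      (sum_flp i (fun e => sg (e i) * (A i * Xs A e ^ (2 * k + 1)).trace)).symm
    have h2 : ∑ e, sg (e i) * (A i * Xs A e ^ (2 * k + 1)).trace =
        (1 / 2) * ∑ e, (sg (e i) * (A i * Xs A e ^ (2 * k + 1)).trace +
          sg (flp i e i) * (A i * Xs A (flp i e) ^ (2 * k + 1)).trace) := by
      rw [Finset.sum_add_distrib, ← h1]; ring
    rw [h2, Finset.mul_sum]
    refine Finset.sum_congr rfl fun e _ => ?_
    rw [flp_same, sg_not]
    have h3 : (A i * Xs A e ^ (2 * k + 1)).trace - (A i * Xs A (flp i e) ^ (2 * k + 1)).trace =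
        ∑ q ∈ range (2 * k + 1), 2 * sg (e i) *
          (A i * Xs A e ^ q * A i * Xs A (flp i e) ^ (2 * k - q)).trace := by
      rw [← Matrix.trace_sub, ← Matrix.mul_sub, pow_sub, Matrix.mul_sum, Matrix.trace_sum]
      refine Finset.sum_congr rfl fun q _ => ?_
      rw [Xs_flp, Nat.add_sub_cancel]
      rw [Matrix.mul_smul, Matrix.smul_mul, Matrix.mul_smul, Matrix.trace_smul, smul_eq_mul]
      simp only [Matrix.mul_assoc]
    have h4 : (1 / 2 : ℝ) * (sg (e i) * (A i * Xs A e ^ (2 * k + 1)).trace +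
        -sg (e i) * (A i * Xs A (flp i e) ^ (2 * k + 1)).trace) =
        (1 / 2) * sg (e i) * ((A i * Xs A e ^ (2 * k + 1)).trace -
          (A i * Xs A (flp i e) ^ (2 * k + 1)).trace) := by ring
    rw [h4, h3, Finset.mul_sum]
    refine Finset.sum_congr rfl fun q _ => ?_
    have h5 := sg_sq (e i)
    calc (1 / 2) * sg (e i) * (2 * sg (e i) *
          (A i * Xs A e ^ q * A i * Xs A (flp i e) ^ (2 * k - q)).trace)
        = (sg (e i) * sg (e i)) * (A i * Xs A e ^ q * A i * Xs A (flp i e) ^ (2 * k - q)).trace := by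
          ring
      _ = _ := by rw [h5, one_mul]
  -- the trace inequality
  have e3 : ∀ i, ∀ e : ι → Bool,
      ∑ q ∈ range (2 * k + 1), (A i * Xs A e ^ q * A i * Xs A (flp i e) ^ (2 * k - q)).trace ≤
      (2 * k + 1) / 2 * ((A i * A i * Xs A e ^ (2 * k)).trace +
        (A i * A i * Xs A (flp i e) ^ (2 * k)).trace) := by
    intro i e
    have h1 : ∑ q ∈ range (2 * k + 1), (A i * Xs A e ^ q * A i * Xs A (flp i e) ^ (2 * k - q)).trace =
        ∑ q ∈ range (2 * k + 1), (A i * Xs A e ^ (2 * k - q) * A i * Xs A (flp i e) ^ q).trace := by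
      rw [← Finset.sum_range_reflect]
      refine Finset.sum_congr rfl fun q hq => ?_
      rw [mem_range] at hq
      have h3 : 2 * k + 1 - 1 - q = 2 * k - q := by omega
      have h4 : 2 * k - (2 * k - q) = q := by omega
      rw [h3, h4]
    have h2 : ∑ q ∈ range (2 * k + 1), (A i * Xs A e ^ q * A i * Xs A (flp i e) ^ (2 * k - q)).trace =
        (1 / 2) * ∑ q ∈ range (2 * k + 1),
          ((A i * Xs A e ^ q * A i * Xs A (flp i e) ^ (2 * k - q)).trace +
          (A i * Xs A e ^ (2 * k - q) * A i * Xs A (flp i e) ^ q).trace) := by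
      rw [Finset.sum_add_distrib, ← h1]; ring
    rw [h2]
    have h5 : ∑ q ∈ range (2 * k + 1),
          ((A i * Xs A e ^ q * A i * Xs A (flp i e) ^ (2 * k - q)).trace +
          (A i * Xs A e ^ (2 * k - q) * A i * Xs A (flp i e) ^ q).trace) ≤
        ∑ _q ∈ range (2 * k + 1), ((A i * A i * Xs A e ^ (2 * k)).trace +
        (A i * A i * Xs A (flp i e) ^ (2 * k)).trace) := by
      refine Finset.sum_le_sum fun q hq => ?_
      rw [mem_range] at hq
      have h6 : q + (2 * k - q) = 2 * k := by omega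
      have h7 := gm_am (hA i) (Xs_herm hA e) (Xs_herm hA (flp i e)) (q := q) (s := 2 * k - q)
        (by rw [h6]; exact even_two_mul k)
      rw [h6] at h7
      exact h7
    rw [Finset.sum_const, card_range, nsmul_eq_mul] at h5
    push_cast at h5
    linarith
  rw [e1]
  calc ∑ i, ∑ e, sg (e i) * (A i * Xs A e ^ (2 * k + 1)).trace
      = ∑ i, ∑ e, ∑ q ∈ range (2 * k + 1),
          (A i * Xs A e ^ q * A i * Xs A (flp i e) ^ (2 * k - q)).trace :=
        Finset.sum_congr rfl fun i _ => e2 i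
    _ ≤ ∑ i, ∑ e, (2 * k + 1) / 2 * ((A i * A i * Xs A e ^ (2 * k)).trace +
        (A i * A i * Xs A (flp i e) ^ (2 * k)).trace) :=
        Finset.sum_le_sum fun i _ => Finset.sum_le_sum fun e _ => e3 i e
    _ = ∑ i, ∑ e, (2 * k + 1) * (A i * A i * Xs A e ^ (2 * k)).trace := by
        refine Finset.sum_congr rfl fun i _ => ?_
        rw [← Finset.mul_sum, Finset.sum_add_distrib,
          sum_flp i (fun e => (A i * A i * Xs A e ^ (2 * k)).trace), ← Finset.mul_sum]
        ring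
    _ = ∑ e, (2 * k + 1) * ((∑ i, A i * A i) * Xs A e ^ (2 * k)).trace := by
        rw [Finset.sum_comm]
        refine Finset.sum_congr rfl fun e _ => ?_
        rw [← Finset.mul_sum, Finset.sum_mul, Matrix.trace_sum]
    _ ≤ ∑ e, (2 * k + 1) * (lam * (Xs A e ^ (2 * k)).trace) := by
        refine Finset.sum_le_sum fun e _ => ?_
        exact mul_le_mul_of_nonneg_left (trace_V_le hV (Xs_herm hA e) k) (by positivity)
    _ = _ := by
        rw [Finset.mul_sum]
        refine Finset.sum_congr rfl fun e _ => ?_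
        ring

end

theorem khintchine {n ι : Type*} [Fintype n] [DecidableEq n] [Fintype ι] [DecidableEq ι]
    (A : ι → Matrix n n ℝ) (hA : ∀ i, (A i).IsHermitian) {lam : ℝ} (hlam : 0 ≤ lam)
    (hV : (lam • (1 : Matrix n n ℝ) - ∑ i, A i * A i).PosSemidef) (k : ℕ) :
    ∑ e : ι → Bool, ((∑ i, sg (e i) • A i) ^ (2 * k)).trace ≤
      2 ^ Fintype.card ι * ((2 * k : ℝ) ^ k * lam ^ k * Fintype.card n) := by
  have h : ∀ m : ℕ, m ≤ k → ∑ e : ι → Bool, (Xs A e ^ (2 * m)).trace ≤
      2 ^ Fintype.card ι * ((2 * k : ℝ) ^ m * lam ^ m * Fintype.card n) := by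
    intro m
    induction m with
    | zero =>
      intro _
      simp
    | succ m ih =>
      intro hm
      have h1 := ih (by omega)
      have h2 := step hA hV m
      have h3 : ((2 : ℝ) * m + 1) ≤ 2 * k := by
        have : ((m + 1 : ℕ) : ℝ) ≤ k := by exact_mod_cast hm
        push_cast at this
        linarith
      have h0 : 0 ≤ ∑ e : ι → Bool, (Xs A e ^ (2 * m)).trace := by
        refine Finset.sum_nonneg fun e _ => ?_
        have h5 : (Xs A e ^ (2 * m)) = (Xs A e ^ m)ᴴ * (Xs A e ^ m) := by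
          rw [((Xs_herm hA e).pow m).eq, ← pow_add]; congr 1; ring
        rw [h5]
        exact (Matrix.posSemidef_conjTranspose_mul_self _).trace_nonneg
      calc ∑ e : ι → Bool, (Xs A e ^ (2 * (m + 1))).trace
          ≤ (2 * m + 1) * lam * ∑ e, (Xs A e ^ (2 * m)).trace := h2
        _ ≤ (2 * k) * lam * ∑ e, (Xs A e ^ (2 * m)).trace :=
            mul_le_mul_of_nonneg_right (mul_le_mul_of_nonneg_right h3 hlam) h0
        _ ≤ (2 * k) * lam * (2 ^ Fintype.card ι * ((2 * k : ℝ) ^ m * lam ^ m * Fintype.card n)) :=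
            mul_le_mul_of_nonneg_left h1 (by positivity)
        _ = _ := by ring
  exact h k le_rfl

end Pool.Agent.P4f18dfW
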