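import Pool.Agent.Lib.P4f18dfW.Norm

/-!
# The sum of the mean squares over a set of primes

Module W.Quad.  `Wd (fm p) h a = ∑_(i : Fin h) μ(a+1+i) vv h p a i`, so
`∑_(p ∈ B) (Wd (fm p) h a)^2 = ∑_(p ∈ B) ∑_i μ(a+1+i)^2 lg p (a+1+i)^2 + ∑_ij μ_i (Om h B a)_ij μ_j`; the diagonal
is `∑_(p ∈ B) (card (Q h a) - #{n ∈ Q h a : p ∣ n})`, and `∑_(a ≤ N) #{n ∈ Ioc a (a+h) : p ∣ n} ≤ h (N + h) / p`.
For the second part: `∑_a nr ≤ N ((∑_a nr^(2k)) / N)^(1/(2k))` (power means) and `pow_le_trace`.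
-/

set_option autoImplicit false

namespace Pool.Agent.P4f18dfW

open Matrix Finset Pool.Agent.P4f18dfQ Pool.Agent.P4f18df

theorem Om_symm (h : ℕ) (B : Finset ℕ) (a : ℕ) : (Om h B a).IsHermitian := by
  unfold Om
  apply Matrix.IsHermitian.ext
  intro i j
  rw [star_trivial, Matrix.sum_apply, Matrix.sum_apply]
  refine Finset.sum_congr rfl fun p _ => ?_
  simp only [rk, Matrix.of_apply]
  by_cases hij : i = j
  · subst hij; rfl
  · rw [if_neg hij, if_neg (Ne.symm hij), mul_comm]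

namespace QuadAux

/-- the Möbius values -/
noncomputable def mv (h a : ℕ) : Fin h → ℝ := fun i => (ArithmeticFunction.moebius (a + 1 + i) : ℝ)

/-- the diagonal -/
noncomputable def dg (h p a : ℕ) : ℝ := ∑ i : Fin h, (mv h a i * vv h p a i) ^ 2

lemma sum_Ioc_eq (f : ℕ → ℝ) (h a : ℕ) : ∑ n ∈ Ioc a (a + h), f n = ∑ i : Fin h, f (a + 1 + i) := by
  rw [Finset.sum_fin_eq_sum_range]
  have h1 : ∑ i ∈ range h, (if hi : i < h then f (a + 1 + ((⟨i, hi⟩ : Fin h) : ℕ)) else 0) =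
      ∑ i ∈ range h, f (a + 1 + i) := by
    refine Finset.sum_congr rfl fun i hi => ?_
    rw [dif_pos (mem_range.1 hi)]
  rw [h1]
  symm
  refine Finset.sum_bij (fun i _ => a + 1 + i) ?_ ?_ ?_ ?_
  · intro i hi
    rw [mem_range] at hi
    rw [Finset.mem_Ioc]
    omega
  · intro i _ j _ hij
    exact Nat.add_left_cancel hij
  · intro n hn
    rw [Finset.mem_Ioc] at hn
    exact ⟨n - (a + 1), by rw [mem_range]; omega, by omega⟩
  · intro i _
    rfl

lemma Wd_eq (p h a : ℕ) : Wd (fm p) h a = ∑ i : Fin h, mv h a i * vv h p a i := by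
  unfold Wd
  rw [sum_Ioc_eq]
  rfl

lemma Wd_sq (p h a : ℕ) : Wd (fm p) h a ^ 2 =
    dg h p a + ∑ i, ∑ j, mv h a i * rk (vv h p a) i j * mv h a j := by
  rw [Wd_eq, sq, Finset.sum_mul_sum]
  unfold dg
  rw [← Finset.sum_add_distrib]
  refine Finset.sum_congr rfl fun i _ => ?_
  have h1 : (mv h a i * vv h p a i) ^ 2 =
      ∑ j, if i = j then (mv h a i * vv h p a i) * (mv h a j * vv h p a j) else 0 := by
    rw [Finset.sum_ite_eq Finset.univ i, if_pos (mem_univ i), sq]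
  rw [h1, ← Finset.sum_add_distrib]
  refine Finset.sum_congr rfl fun j _ => ?_
  simp only [rk, Matrix.of_apply]
  by_cases hij : i = j
  · rw [if_pos hij, if_pos hij]; ring
  · rw [if_neg hij, if_neg hij]; ring

lemma sum_Wd_sq (B : Finset ℕ) (h a : ℕ) : ∑ p ∈ B, Wd (fm p) h a ^ 2 =
    ∑ p ∈ B, dg h p a + ∑ i, ∑ j, mv h a i * Om h B a i j * mv h a j := by
  rw [Finset.sum_congr rfl fun p _ => Wd_sq p h a, Finset.sum_add_distrib]
  congr 1
  rw [Finset.sum_comm]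
  refine Finset.sum_congr rfl fun i _ => ?_
  rw [Finset.sum_comm]
  refine Finset.sum_congr rfl fun j _ => ?_
  unfold Om
  rw [Matrix.sum_apply, Finset.mul_sum, Finset.sum_mul]

lemma sum_mv_sq_le (h a : ℕ) : ∑ i, mv h a i ^ 2 ≤ h := by
  calc ∑ i, mv h a i ^ 2 ≤ ∑ _i : Fin h, (1 : ℝ) := by
        refine Finset.sum_le_sum fun i _ => ?_
        have := abs_moebius_le (a + 1 + i)
        have h2 : mv h a i ^ 2 = |(ArithmeticFunction.moebius (a + 1 + (i : ℕ)) : ℝ)| ^ 2 := by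
          rw [sq_abs]; rfl
        rw [h2]
        exact pow_le_one₀ (abs_nonneg _) this
    _ = h := by simp

lemma abs_quad (B : Finset ℕ) (h a : ℕ) :
    |∑ i, ∑ j, mv h a i * Om h B a i j * mv h a j| ≤ nr (Om h B a) * h :=
  (abs_quad_le (Om_symm h B a) _).trans
    (mul_le_mul_of_nonneg_left (sum_mv_sq_le h a) (nr_nonneg _))

lemma dg_eq {p : ℕ} (hp : p.Prime) (h a : ℕ) : dg h p a =
    ∑ i : Fin h, if Squarefree (a + 1 + (i : ℕ)) ∧ ¬ p ∣ a + 1 + i then (1 : ℝ) else 0 := by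
  unfold dg
  refine Finset.sum_congr rfl fun i _ => ?_
  unfold mv vv
  rw [mul_pow]
  by_cases hd : p ∣ a + 1 + i
  · rw [lg_of_dvd hp hd, if_neg (fun h => h.2 hd)]; ring
  · have h1 : lg p (a + 1 + i) ^ 2 = 1 := by
      rcases lg_sq_of_not_dvd hp hd with h | h <;> rw [h] <;> norm_num
    rw [h1, mul_one]
    by_cases hs : Squarefree (a + 1 + (i : ℕ))
    · rw [if_pos ⟨hs, hd⟩]
      have := ArithmeticFunction.moebius_sq_eq_one_of_squarefree hs
      exact_mod_cast this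
    · rw [if_neg (fun h => hs h.1), ArithmeticFunction.moebius_eq_zero_of_not_squarefree hs]
      simp

lemma card_Q_eq (h a : ℕ) : ((Q h a).card : ℝ) =
    ∑ i : Fin h, if Squarefree (a + 1 + (i : ℕ)) then (1 : ℝ) else 0 := by
  rw [← sum_Ioc_eq (fun n => if Squarefree n then (1 : ℝ) else 0), Q, Finset.card_filter]
  push_cast
  rfl

lemma dg_le {p : ℕ} (hp : p.Prime) (h a : ℕ) : dg h p a ≤ (Q h a).card := by
  rw [dg_eq hp, card_Q_eq]
  refine Finset.sum_le_sum fun i _ => ?_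
  split_ifs with h1 h2 h2
  · exact le_rfl
  · exact absurd h1.1 h2
  · exact zero_le_one
  · exact le_rfl

lemma le_dg {p : ℕ} (hp : p.Prime) (h a : ℕ) : ((Q h a).card : ℝ) -
    ∑ i ∈ Ioc 0 h, (if p ∣ a + i then (1 : ℝ) else 0) ≤ dg h p a := by
  have h0 : ∑ i ∈ Ioc 0 h, (if p ∣ a + i then (1 : ℝ) else 0) =
      ∑ i : Fin h, if p ∣ a + 1 + (i : ℕ) then (1 : ℝ) else 0 := by
    have := sum_Ioc_eq (fun i => if p ∣ a + i then (1 : ℝ) else 0) h 0
    rw [zero_add] at this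
    rw [this]
    refine Finset.sum_congr rfl fun i _ => ?_
    simp only [zero_add, ← add_assoc]
  rw [h0, dg_eq hp, card_Q_eq, ← Finset.sum_sub_distrib]
  refine Finset.sum_le_sum fun i _ => ?_
  by_cases h1 : Squarefree (a + 1 + (i : ℕ)) <;> by_cases h2 : p ∣ a + 1 + (i : ℕ) <;>
    simp [h1, h2]

lemma sum_dvd_le {p : ℕ} (hp : 0 < p) (N i : ℕ) :
    ∑ a ∈ Ioc 0 N, (if p ∣ a + i then (1 : ℝ) else 0) ≤ ((N + i : ℕ) : ℝ) / p := by
  have h1 : ∑ a ∈ Ioc 0 N, (if p ∣ a + i then (1 : ℝ) else 0) ≤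
      ((((Ioc 0 (N + i)).filter fun n => p ∣ n).card : ℕ) : ℝ) := by
    rw [← Finset.sum_filter, Finset.sum_const, nsmul_eq_mul, mul_one]
    have : ((Ioc 0 N).filter fun a => p ∣ a + i).card ≤
        ((Ioc 0 (N + i)).filter fun n => p ∣ n).card := by
      refine Finset.card_le_card_of_injOn (fun a => a + i) ?_ ?_
      · intro a ha
        have ha := Finset.mem_filter.1 (Finset.mem_coe.1 ha)
        have h2 := Finset.mem_Ioc.1 ha.1
        have h3 : a + i ∈ Ioc 0 (N + i) := Finset.mem_Ioc.2 ⟨by omega, by omega⟩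
        exact Finset.mem_coe.2 (Finset.mem_filter.2 ⟨h3, ha.2⟩)
      · intro a _ b _ hab
        exact Nat.add_right_cancel hab
    exact_mod_cast this
  refine h1.trans ?_
  rw [Nat.Ioc_filter_dvd_card_eq_div]
  exact Nat.cast_div_le

/-- the diagonal, for one prime -/
lemma abs_diag {P p h N : ℕ} (hp : p ∈ PP P) (hP : 1 ≤ P) (hhN : h ≤ N) :
    |∑ a ∈ Ioc 0 N, dg h p a - c2 * h * N| ≤ 10 * h * Real.sqrt N + 2 * h * N / P := by
  rw [mem_PP] at hp
  have hpp := hp.2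
  have hP0 : (0 : ℝ) < P := by exact_mod_cast hP
  have hPp : (P : ℝ) ≤ p := by exact_mod_cast hp.1.1.le
  have h1 := sum_card_Q_cum hhN
  have h2 : ∑ a ∈ Ioc 0 N, dg h p a ≤ ∑ a ∈ Ioc 0 N, ((Q h a).card : ℝ) :=
    Finset.sum_le_sum fun a _ => dg_le hpp h a
  have h3 : ∑ a ∈ Ioc 0 N, ((Q h a).card : ℝ) - 2 * h * N / P ≤ ∑ a ∈ Ioc 0 N, dg h p a := by
    have h4 : ∑ a ∈ Ioc 0 N, (((Q h a).card : ℝ) -
        ∑ i ∈ Ioc 0 h, (if p ∣ a + i then (1 : ℝ) else 0)) ≤ ∑ a ∈ Ioc 0 N, dg h p a :=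
      Finset.sum_le_sum fun a _ => le_dg hpp h a
    rw [Finset.sum_sub_distrib, Finset.sum_comm (s := Ioc 0 N)] at h4
    have h5 : ∑ i ∈ Ioc 0 h, ∑ a ∈ Ioc 0 N, (if p ∣ a + i then (1 : ℝ) else 0) ≤
        2 * h * N / P := by
      calc ∑ i ∈ Ioc 0 h, ∑ a ∈ Ioc 0 N, (if p ∣ a + i then (1 : ℝ) else 0)
          ≤ ∑ i ∈ Ioc 0 h, (2 * N / P : ℝ) := by
            refine Finset.sum_le_sum fun i hi => (sum_dvd_le hpp.pos N i).trans ?_
            rw [Finset.mem_Ioc] at hi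
            have h6 : ((N + i : ℕ) : ℝ) ≤ 2 * N := by
              have : N + i ≤ 2 * N := by omega
              exact_mod_cast this
            calc ((N + i : ℕ) : ℝ) / p ≤ ((N + i : ℕ) : ℝ) / P :=
                  div_le_div_of_nonneg_left (Nat.cast_nonneg _) hP0 hPp
              _ ≤ 2 * N / P := div_le_div_of_nonneg_right h6 hP0.le
        _ = 2 * h * N / P := by
            rw [Finset.sum_const, Nat.card_Ioc, nsmul_eq_mul]
            simp only [Nat.sub_zero]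
            ring
    linarith
  rw [abs_le] at h1 ⊢
  have h7 : (0 : ℝ) ≤ 2 * h * N / P := by positivity
  constructor <;> linarith [h1.1, h1.2]

lemma sum_nr_le {h N k : ℕ} {R : ℝ} (B : Finset ℕ) (hN : 1 ≤ N) (hk : 1 ≤ k) (hR : 0 ≤ R)
    (hT : (∑ a ∈ Ioc 0 N, (Om h B a ^ (2 * k)).trace) / N ≤ R ^ (2 * k)) :
    ∑ a ∈ Ioc 0 N, nr (Om h B a) ≤ N * R := by
  have hN0 : (0 : ℝ) < N := by exact_mod_cast hN
  have hcard : ((Ioc 0 N).card : ℝ) = N := by rw [Nat.card_Ioc]; simp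
  have h1 := Real.pow_arith_mean_le_arith_mean_pow (Ioc 0 N) (fun _ => (N : ℝ)⁻¹)
    (fun a => nr (Om h B a)) (fun _ _ => by positivity)
    (by rw [Finset.sum_const, nsmul_eq_mul, hcard, mul_inv_cancel₀ hN0.ne'])
    (fun a _ => nr_nonneg _) (2 * k)
  rw [← Finset.mul_sum, ← Finset.mul_sum] at h1
  have h2 : (N : ℝ)⁻¹ * ∑ a ∈ Ioc 0 N, nr (Om h B a) ^ (2 * k) ≤ R ^ (2 * k) := by
    refine le_trans ?_ hT
    rw [div_eq_inv_mul]
    exact mul_le_mul_of_nonneg_left (Finset.sum_le_sum fun a _ =>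
      pow_le_trace (Om_symm h B a) hk) (by positivity)
  have h3 := le_of_pow_le_pow_left₀ (by omega : 2 * k ≠ 0) hR (h1.trans h2)
  rw [inv_mul_le_iff₀ hN0] at h3
  exact h3

end QuadAux

open QuadAux

theorem sum_Uk {P h N k : ℕ} {R : ℝ} (B : Finset ℕ) (hB : B ⊆ PP P) (hP : 1 ≤ P) (hh : 1 ≤ h)
    (hhN : h ≤ N) (hk : 1 ≤ k) (hR : 0 ≤ R)
    (hT : (∑ a ∈ Ioc 0 N, (Om h B a ^ (2 * k)).trace) / N ≤ R ^ (2 * k)) :
    |∑ p ∈ B, (Uk (fm p) h N - c2 * h * N)| ≤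
      h * N * R + B.card * (10 * h * Real.sqrt N + 2 * h * N / P) := by
  have h1 : ∑ p ∈ B, (Uk (fm p) h N - c2 * h * N) =
      ∑ p ∈ B, (∑ a ∈ Ioc 0 N, dg h p a - c2 * h * N) +
        ∑ a ∈ Ioc 0 N, ∑ i, ∑ j, mv h a i * Om h B a i j * mv h a j := by
    rw [Finset.sum_sub_distrib, Finset.sum_sub_distrib]
    have h2 : ∑ p ∈ B, Uk (fm p) h N = ∑ p ∈ B, ∑ a ∈ Ioc 0 N, dg h p a +
        ∑ a ∈ Ioc 0 N, ∑ i, ∑ j, mv h a i * Om h B a i j * mv h a j := by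
      unfold Uk
      rw [Finset.sum_comm, Finset.sum_congr rfl fun a _ => sum_Wd_sq B h a,
        Finset.sum_add_distrib, Finset.sum_comm]
    rw [h2]
    ring
  rw [h1]
  refine (abs_add_le _ _).trans ?_
  have h3 : |∑ p ∈ B, (∑ a ∈ Ioc 0 N, dg h p a - c2 * h * N)| ≤
      B.card * (10 * h * Real.sqrt N + 2 * h * N / P) := by
    refine (Finset.abs_sum_le_sum_abs _ _).trans ?_
    refine (Finset.sum_le_sum fun p hp => abs_diag (hB hp) hP hhN).trans ?_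
    rw [Finset.sum_const, nsmul_eq_mul]
  have h4 : |∑ a ∈ Ioc 0 N, ∑ i, ∑ j, mv h a i * Om h B a i j * mv h a j| ≤ h * N * R := by
    refine (Finset.abs_sum_le_sum_abs _ _).trans ?_
    refine (Finset.sum_le_sum fun a _ => abs_quad B h a).trans ?_
    rw [← Finset.sum_mul]
    have := sum_nr_le B (hh.trans hhN) hk hR hT
    calc (∑ a ∈ Ioc 0 N, nr (Om h B a)) * h ≤ (N * R) * h :=
          mul_le_mul_of_nonneg_right this (Nat.cast_nonneg _)
      _ = h * N * R := by ring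
  linarith

end Pool.Agent.P4f18dfW
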