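import Pool.Agent.Lib.P4f18dfW.TrIneq

/-!
# Operator norm of real matrices

Module W.Norm.  `nr A = ‖A‖` (scoped instance `Matrix.Norms.L2Operator`; `Matrix.l2_opNorm_diagonal`,
`Matrix.l2_opNorm_conjTranspose_mul_self`).
-/

set_option autoImplicit false

namespace Pool.Agent.P4f18dfW

open Matrix Finset

section

variable {n : Type*} [Fintype n] [DecidableEq n]

open scoped Matrix.Norms.L2Operator in
theorem nr_nonneg (A : Matrix n n ℝ) : 0 ≤ nr A := norm_nonneg A

open scoped Matrix.Norms.L2Operator in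
theorem nr_add_le (A B : Matrix n n ℝ) : nr (A + B) ≤ nr A + nr B := norm_add_le A B

open scoped Matrix.Norms.L2Operator in
theorem nr_smul (c : ℝ) (A : Matrix n n ℝ) : nr (c • A) = |c| * nr A := by
  unfold nr
  rw [norm_smul, Real.norm_eq_abs]

open scoped Matrix.Norms.L2Operator in
theorem nr_sum_le {ι : Type*} (s : Finset ι) (A : ι → Matrix n n ℝ) :
    nr (∑ i ∈ s, A i) ≤ ∑ i ∈ s, nr (A i) := norm_sum_le s A

open scoped Matrix.Norms.L2Operator in
theorem nr_mul_le (A B : Matrix n n ℝ) : nr (A * B) ≤ nr A * nr B := Matrix.l2_opNorm_mul A B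

open scoped Matrix.Norms.L2Operator in
theorem nr_diagonal (d : n → ℝ) : nr (diagonal d) = ‖d‖ := Matrix.l2_opNorm_diagonal d

open scoped Matrix.Norms.L2Operator in
lemma nr_orth_le {U : Matrix n n ℝ} (h : Uᵀ * U = 1) : nr U ≤ 1 := by
  have h1 : ‖Uᴴ * U‖ = ‖U‖ * ‖U‖ := Matrix.l2_opNorm_conjTranspose_mul_self U
  rw [Matrix.conjTranspose_eq_transpose_of_trivial, h] at h1
  have h2 : ‖(1 : Matrix n n ℝ)‖ ≤ 1 := by
    rw [← Matrix.diagonal_one, Matrix.l2_opNorm_diagonal]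
    exact (pi_norm_le_iff_of_nonneg zero_le_one).2 (fun i => by simp)
  have h3 : 0 ≤ ‖U‖ := norm_nonneg U
  unfold nr
  nlinarith

/-- the norm of a symmetric matrix is the largest modulus of an eigenvalue -/
lemma nr_eq {A U : Matrix n n ℝ} {d : n → ℝ} (h1 : Uᵀ * U = 1) (h2 : U * Uᵀ = 1)
    (hA : A = U * diagonal d * Uᵀ) : nr A = ‖d‖ := by
  have hU := nr_orth_le h1
  have hU' : nr Uᵀ ≤ 1 := nr_orth_le (by rw [Matrix.transpose_transpose]; exact h2)
  have n1 := nr_nonneg U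
  have n2 := nr_nonneg Uᵀ
  apply le_antisymm
  · rw [hA]
    calc nr (U * diagonal d * Uᵀ) ≤ nr (U * diagonal d) * nr Uᵀ := nr_mul_le _ _
      _ ≤ (nr U * nr (diagonal d)) * nr Uᵀ := mul_le_mul_of_nonneg_right (nr_mul_le _ _) n2
      _ ≤ (1 * nr (diagonal d)) * 1 := by
          have := nr_nonneg (diagonal d)
          exact mul_le_mul (mul_le_mul_of_nonneg_right hU this) hU' n2 (by positivity)
      _ = ‖d‖ := by rw [nr_diagonal]; ring
  · have hd : diagonal d = Uᵀ * A * U := by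
      rw [hA]
      calc diagonal d = 1 * diagonal d * 1 := by simp
        _ = (Uᵀ * U) * diagonal d * (Uᵀ * U) := by rw [h1]
        _ = _ := by simp only [Matrix.mul_assoc]
    rw [← nr_diagonal, hd]
    have n3 := nr_nonneg A
    calc nr (Uᵀ * A * U) ≤ nr (Uᵀ * A) * nr U := nr_mul_le _ _
      _ ≤ (nr Uᵀ * nr A) * nr U := mul_le_mul_of_nonneg_right (nr_mul_le _ _) n1
      _ ≤ (1 * nr A) * 1 :=
          mul_le_mul (mul_le_mul_of_nonneg_right hU' n3) hU n1 (by positivity)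
      _ = nr A := by ring

/-- everything about a symmetric matrix -/
lemma spec' {A : Matrix n n ℝ} (hA : A.IsHermitian) :
    ∃ (U : Matrix n n ℝ) (d : n → ℝ), Uᵀ * U = 1 ∧ U * Uᵀ = 1 ∧ A = U * diagonal d * Uᵀ ∧
      nr A = ‖d‖ ∧ ∀ q : ℕ, (A ^ q).trace = ∑ i, d i ^ q := by
  obtain ⟨U, d, h1, h2, h3⟩ := spec hA
  have h4 : A = U * diagonal d * Uᵀ := by
    have := h3 1
    simpa using this
  refine ⟨U, d, h1, h2, h4, nr_eq h1 h2 h4, fun q => ?_⟩
  rw [h3 q, Matrix.mul_assoc, Matrix.trace_mul_comm, Matrix.mul_assoc, h1, Matrix.mul_one,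
    Matrix.trace_diagonal]

/-- the quadratic form -/
theorem abs_quad_le {A : Matrix n n ℝ} (hA : A.IsHermitian) (v : n → ℝ) :
    |∑ i, ∑ j, v i * A i j * v j| ≤ nr A * ∑ i, v i ^ 2 := by
  obtain ⟨U, d, h1, h2, h3, h4, -⟩ := spec' hA
  set w : n → ℝ := Uᵀ *ᵥ v with hw
  have hq : ∑ i, ∑ j, v i * A i j * v j = v ⬝ᵥ (A *ᵥ v) := by
    simp only [dotProduct, Matrix.mulVec, Finset.mul_sum]
    refine Finset.sum_congr rfl fun i _ => Finset.sum_congr rfl fun j _ => by ring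
  have hq2 : v ⬝ᵥ (A *ᵥ v) = w ⬝ᵥ (diagonal d *ᵥ w) := by
    rw [hw, h3]
    rw [← Matrix.mulVec_mulVec, ← Matrix.mulVec_mulVec, Matrix.dotProduct_mulVec,
      ← Matrix.mulVec_transpose]
  have hsum : ∑ i, w i ^ 2 = ∑ i, v i ^ 2 := by
    have e1 : ∑ i, w i ^ 2 = w ⬝ᵥ w := by simp [dotProduct, sq]
    have e2 : ∑ i, v i ^ 2 = v ⬝ᵥ v := by simp [dotProduct, sq]
    rw [e1, e2, hw, Matrix.dotProduct_mulVec, ← Matrix.mulVec_transpose, Matrix.transpose_transpose,
      Matrix.mulVec_mulVec, h2, Matrix.one_mulVec]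
  rw [hq, hq2, h4, ← hsum]
  have e3 : w ⬝ᵥ (diagonal d *ᵥ w) = ∑ i, d i * w i ^ 2 := by
    simp only [dotProduct, Matrix.mulVec_diagonal]
    refine Finset.sum_congr rfl fun i _ => by ring
  rw [e3, Finset.mul_sum]
  refine (Finset.abs_sum_le_sum_abs _ _).trans (Finset.sum_le_sum fun i _ => ?_)
  rw [abs_mul, abs_of_nonneg (sq_nonneg (w i))]
  refine mul_le_mul_of_nonneg_right ?_ (sq_nonneg _)
  have := norm_le_pi_norm d i
  rwa [Real.norm_eq_abs] at this

theorem pow_le_trace {A : Matrix n n ℝ} (hA : A.IsHermitian) {k : ℕ} (hk : 1 ≤ k) :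
    nr A ^ (2 * k) ≤ (A ^ (2 * k)).trace := by
  obtain ⟨U, d, h1, h2, h3, h4, h5⟩ := spec' hA
  rw [h4, h5]
  have hev : Even (2 * k) := even_two_mul k
  rcases isEmpty_or_nonempty n with hn | hn
  · have : ‖d‖ = 0 := by
      rw [norm_eq_zero]
      exact Subsingleton.elim _ _
    rw [this, zero_pow (by omega)]
    simp
  · obtain ⟨i, hi⟩ := Finite.exists_max (fun i => ‖d i‖)
    have h6 : ‖d‖ ≤ |d i| := by
      rw [← Real.norm_eq_abs]
      exact (pi_norm_le_iff_of_nonneg (norm_nonneg _)).2 hi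
    calc ‖d‖ ^ (2 * k) ≤ |d i| ^ (2 * k) := pow_le_pow_left₀ (norm_nonneg _) h6 _
      _ = d i ^ (2 * k) := hev.pow_abs _
      _ ≤ ∑ j, d j ^ (2 * k) :=
          Finset.single_le_sum (f := fun j => d j ^ (2 * k)) (fun j _ => hev.pow_nonneg _) (mem_univ i)

theorem trace_le {A : Matrix n n ℝ} (hA : A.IsHermitian) (k : ℕ) :
    (A ^ (2 * k)).trace ≤ Fintype.card n * nr A ^ (2 * k) := by
  obtain ⟨U, d, h1, h2, h3, h4, h5⟩ := spec' hA
  rw [h4, h5]
  have hev : Even (2 * k) := even_two_mul k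
  calc ∑ i, d i ^ (2 * k) ≤ ∑ _i : n, ‖d‖ ^ (2 * k) := by
        refine Finset.sum_le_sum fun i _ => ?_
        rw [← hev.pow_abs]
        refine pow_le_pow_left₀ (abs_nonneg _) ?_ _
        have := norm_le_pi_norm d i
        rwa [Real.norm_eq_abs] at this
    _ = _ := by rw [Finset.sum_const, card_univ, nsmul_eq_mul]

theorem nr_le_of_entries {A : Matrix n n ℝ} (hA : A.IsHermitian) {δ : ℝ} (hδ : 0 ≤ δ)
    (h : ∀ i j, |A i j| ≤ δ) : nr A ≤ Fintype.card n * δ := by
  have h1 := pow_le_trace hA (k := 1) le_rfl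
  rw [mul_one] at h1
  have h2 : (A ^ 2).trace ≤ (Fintype.card n * δ) ^ 2 := by
    have hAt : Aᵀ = A := by
      rw [← Matrix.conjTranspose_eq_transpose_of_trivial]; exact hA
    have e1 : (A ^ 2).trace = ∑ i, ∑ j, A i j ^ 2 := by
      rw [pow_two]
      unfold Matrix.trace
      refine Finset.sum_congr rfl fun i _ => ?_
      rw [Matrix.diag_apply, Matrix.mul_apply]
      refine Finset.sum_congr rfl fun j _ => ?_
      have : A j i = A i j := by
        conv_rhs => rw [← hAt]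
        rfl
      rw [this]; ring
    rw [e1]
    calc ∑ i, ∑ j, A i j ^ 2 ≤ ∑ _i : n, ∑ _j : n, δ ^ 2 := by
          refine Finset.sum_le_sum fun i _ => Finset.sum_le_sum fun j _ => ?_
          rw [← sq_abs]
          exact pow_le_pow_left₀ (abs_nonneg _) (h i j) 2
      _ = (Fintype.card n * δ) ^ 2 := by
          simp only [Finset.sum_const, card_univ, nsmul_eq_mul]
          ring
  have h3 : 0 ≤ (Fintype.card n : ℝ) * δ := by positivity
  exact le_of_sq_le_sq (h1.trans h2) h3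

theorem psd_of_nr {A : Matrix n n ℝ} (hA : A.IsHermitian) {c : ℝ} (h : nr A ≤ c) :
    (c • (1 : Matrix n n ℝ) - A).PosSemidef := by
  obtain ⟨U, d, h1, h2, h3, h4, -⟩ := spec' hA
  have e1 : c • (1 : Matrix n n ℝ) - A = U * diagonal (fun i => c - d i) * Uᴴ := by
    rw [Matrix.conjTranspose_eq_transpose_of_trivial]
    have e2 : diagonal (fun i => c - d i) = c • (1 : Matrix n n ℝ) - diagonal d := by
      rw [← Matrix.diagonal_one, ← Matrix.diagonal_smul, Matrix.diagonal_sub]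
      congr 1
      ext i
      simp
    rw [e2, Matrix.mul_sub, Matrix.sub_mul, ← h3, Matrix.mul_smul, Matrix.mul_one, Matrix.smul_mul,
      h2]
  rw [e1]
  refine Matrix.PosSemidef.mul_mul_conjTranspose_same ?_ U
  refine Matrix.PosSemidef.diagonal (fun i => ?_)
  have := norm_le_pi_norm d i
  rw [Real.norm_eq_abs] at this
  have h6 := le_abs_self (d i)
  simp only [Pi.zero_apply]
  linarith

end

end Pool.Agent.P4f18dfW
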