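import Pool.Agent.Lib.P4f18dfW.Sym
import Pool.Agent.Lib.P4f18dfW.Khin
import Pool.Agent.Lib.P4f18dfW.Norm

/-!
# The trace moment in the product model

Module W.Model.  `C_i = rk (v_i) = v vᵀ - diag (v²)`, `O = ∑ C_i`, `Y = ∑ (C_i - E C_i)`,
`Z = E (nr Y)^(2k)`.  `C_i² ≤ 2h v vᵀ + 2 I` (`(W - D)² ≤ 2 W² + 2 D²`, `W² = |v|² W ≤ h W`, `D ≤ I`), so
`∑ C_i² ≤ (2h nr O + 4hb) I`; `nr (E O) ≤ b h δ ≤ b` (`nr_le_of_entries`), `nr O ≤ nr Y + b`.
`Z ≤ 4^k E E_e nr(∑ ± C_i)^(2k) ≤ 4^k (2k)^k h E (2h nr Y + 6hb)^k ≤ Z/2 + …`, so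
`Z ≤ (100k)^(2k) h^(k+2) b^k`, and `trace O^(2k) ≤ h (nr O)^(2k) ≤ h 4^k ((nr Y)^(2k) + (b h δ)^(2k))`.
-/

set_option autoImplicit false

namespace Pool.Agent.P4f18dfW

open Matrix Finset

namespace ModelAux

lemma rk_eq {h : ℕ} (v : Fin h → ℝ) : rk v = vecMulVec v v - diagonal (fun i => v i ^ 2) := by
  ext i j
  by_cases hij : i = j
  · subst hij
    simp [rk, vecMulVec_apply, sq]
  · simp [rk, vecMulVec_apply, hij]

lemma vec_symm {h : ℕ} (v : Fin h → ℝ) : (vecMulVec v v)ᵀ = vecMulVec v v := by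
  ext i j
  simp [vecMulVec_apply, mul_comm]

lemma rk_symm {h : ℕ} (v : Fin h → ℝ) : (rk v).IsHermitian := by
  unfold Matrix.IsHermitian
  rw [Matrix.conjTranspose_eq_transpose_of_trivial, rk_eq, Matrix.transpose_sub, vec_symm,
    Matrix.diagonal_transpose]

lemma vec_psd {h : ℕ} (v : Fin h → ℝ) : (vecMulVec v v).PosSemidef := by
  have := Matrix.posSemidef_vecMulVec_self_star v
  rwa [star_trivial] at this

lemma vec_sq {h : ℕ} (v : Fin h → ℝ) :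
    vecMulVec v v * vecMulVec v v = (∑ i, v i ^ 2) • vecMulVec v v := by
  ext i j
  rw [Matrix.mul_apply, Matrix.smul_apply, smul_eq_mul, Finset.sum_mul]
  refine Finset.sum_congr rfl fun l _ => ?_
  simp only [vecMulVec_apply]
  ring

lemma sq_psd {h : ℕ} {A : Matrix (Fin h) (Fin h) ℝ} (hA : Aᵀ = A) : (A * A).PosSemidef := by
  have := Matrix.posSemidef_self_mul_conjTranspose A
  rwa [Matrix.conjTranspose_eq_transpose_of_trivial, hA] at this

lemma smul_psd {h : ℕ} {A : Matrix (Fin h) (Fin h) ℝ} (hA : A.PosSemidef) {c : ℝ} (hc : 0 ≤ c) :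
    (c • A).PosSemidef := hA.smul hc

lemma sq_le {h : ℕ} (v : Fin h → ℝ) (hv : ∀ j, |v j| ≤ 1) :
    (((2 : ℝ) * h) • vecMulVec v v + (2 : ℝ) • (1 : Matrix (Fin h) (Fin h) ℝ) - rk v * rk v).PosSemidef := by
  set W := vecMulVec v v with hW
  set D := diagonal (fun i => v i ^ 2) with hD
  have hsq : ∀ j, v j ^ 2 ≤ 1 := fun j => by
    have := hv j
    rw [← sq_abs]
    have h0 := abs_nonneg (v j)
    nlinarith
  have e1 : ((2 : ℝ) * h) • W + (2 : ℝ) • (1 : Matrix (Fin h) (Fin h) ℝ) - rk v * rk v =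
      (W + D) * (W + D) + (2 * ((h : ℝ) - ∑ i, v i ^ 2)) • W + (2 : ℝ) • ((1 : Matrix (Fin h) (Fin h) ℝ) - D * D) := by
    rw [rk_eq, ← hW, ← hD]
    have e2 : W * W = (∑ i, v i ^ 2) • W := vec_sq v
    have e3 : (W + D) * (W + D) = W * W + W * D + D * W + D * D := by noncomm_ring
    have e4 : (W - D) * (W - D) = W * W - W * D - D * W + D * D := by noncomm_ring
    rw [e3, e4, e2]
    module
  rw [e1]
  have p1 : ((W + D) * (W + D)).PosSemidef := by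
    refine sq_psd ?_
    rw [Matrix.transpose_add, hW, vec_symm, hD, Matrix.diagonal_transpose]
  have p2 : ((2 * ((h : ℝ) - ∑ i, v i ^ 2)) • W).PosSemidef := by
    refine smul_psd (vec_psd v) ?_
    have : ∑ i, v i ^ 2 ≤ (h : ℝ) := by
      calc ∑ i, v i ^ 2 ≤ ∑ _i : Fin h, (1 : ℝ) := Finset.sum_le_sum fun j _ => hsq j
        _ = h := by simp
    linarith
  have p3 : ((1 : Matrix (Fin h) (Fin h) ℝ) - D * D).PosSemidef := by
    rw [hD, Matrix.diagonal_mul_diagonal, ← Matrix.diagonal_one, Matrix.diagonal_sub]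
    refine Matrix.PosSemidef.diagonal (fun i => ?_)
    simp only [Pi.zero_apply]
    have h1 := hsq i
    have h2 := sq_nonneg (v i)
    nlinarith
  exact (p1.add p2).add (smul_psd p3 (by norm_num))

/-- the variance matrix -/
lemma var_psd {ι : Type*} [Fintype ι] {h : ℕ} (hh : 1 ≤ h) (v : ι → Fin h → ℝ)
    (hv : ∀ i j, |v i j| ≤ 1) {lam : ℝ}
    (hlam : 2 * h * nr (∑ i, rk (v i)) + 4 * h * Fintype.card ι ≤ lam) :
    (lam • (1 : Matrix (Fin h) (Fin h) ℝ) - ∑ i, rk (v i) * rk (v i)).PosSemidef := by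
  set b : ℝ := (Fintype.card ι : ℝ) with hb
  set O := ∑ i, rk (v i) with hO
  have hOs : O.IsHermitian := by
    unfold Matrix.IsHermitian
    rw [hO, Matrix.conjTranspose_sum]
    exact Finset.sum_congr rfl fun i _ => rk_symm (v i)
  set DD := ∑ i, diagonal (fun j => v i j ^ 2) with hDD
  have hW : ∑ i, vecMulVec (v i) (v i) = O + DD := by
    rw [hO, hDD, ← Finset.sum_add_distrib]
    refine Finset.sum_congr rfl fun i _ => ?_
    rw [rk_eq]
    abel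
  have p1 : (∑ i, (((2 : ℝ) * h) • vecMulVec (v i) (v i) + (2 : ℝ) • (1 : Matrix (Fin h) (Fin h) ℝ) -
      rk (v i) * rk (v i))).PosSemidef := Matrix.posSemidef_sum _ fun i _ => sq_le (v i) (hv i)
  have e1 : ∑ i, (((2 : ℝ) * h) • vecMulVec (v i) (v i) + (2 : ℝ) • (1 : Matrix (Fin h) (Fin h) ℝ) -
      rk (v i) * rk (v i)) = ((2 : ℝ) * h) • (O + DD) + (2 * b) • (1 : Matrix (Fin h) (Fin h) ℝ) -
      ∑ i, rk (v i) * rk (v i) := by
    rw [Finset.sum_sub_distrib, Finset.sum_add_distrib, ← Finset.smul_sum, hW, Finset.sum_const,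
      card_univ, ← Nat.cast_smul_eq_nsmul ℝ, smul_smul, mul_comm (2 : ℝ) b]
  have p2 : (b • (1 : Matrix (Fin h) (Fin h) ℝ) - DD).PosSemidef := by
    have e2 : b • (1 : Matrix (Fin h) (Fin h) ℝ) - DD =
        ∑ i, ((1 : Matrix (Fin h) (Fin h) ℝ) - diagonal (fun j => v i j ^ 2)) := by
      rw [Finset.sum_sub_distrib, Finset.sum_const, card_univ, ← Nat.cast_smul_eq_nsmul ℝ]
    rw [e2]
    refine Matrix.posSemidef_sum _ fun i _ => ?_
    rw [← Matrix.diagonal_one, Matrix.diagonal_sub]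
    refine Matrix.PosSemidef.diagonal (fun j => ?_)
    simp only [Pi.zero_apply]
    have h1 := hv i j
    have h2 := abs_nonneg (v i j)
    have h3 := sq_abs (v i j)
    nlinarith
  have p3 : (nr O • (1 : Matrix (Fin h) (Fin h) ℝ) - O).PosSemidef := psd_of_nr hOs le_rfl
  have hh' : (1 : ℝ) ≤ h := by exact_mod_cast hh
  have hb0 : 0 ≤ b := by positivity
  have p4 : ((lam - 2 * b - 2 * h * nr O - 2 * h * b) • (1 : Matrix (Fin h) (Fin h) ℝ)).PosSemidef := by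
    refine smul_psd Matrix.PosSemidef.one ?_
    nlinarith
  have e5 : lam • (1 : Matrix (Fin h) (Fin h) ℝ) - ∑ i, rk (v i) * rk (v i) =
      (((2 : ℝ) * h) • (O + DD) + (2 * b) • (1 : Matrix (Fin h) (Fin h) ℝ) - ∑ i, rk (v i) * rk (v i)) +
      ((2 : ℝ) * h) • (nr O • (1 : Matrix (Fin h) (Fin h) ℝ) - O) +
      ((2 : ℝ) * h) • (b • (1 : Matrix (Fin h) (Fin h) ℝ) - DD) +
      (lam - 2 * b - 2 * h * nr O - 2 * h * b) • (1 : Matrix (Fin h) (Fin h) ℝ) := by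
    module
  rw [e5, ← e1]
  exact (((p1.add (smul_psd p3 (by positivity))).add (smul_psd p2 (by positivity))).add p4)

/-- the scalar inequality behind the self-bounding argument -/
lemma scalar {h k : ℕ} {y b : ℝ} (hk : 1 ≤ k) (hy : 0 ≤ y) (hb : 0 ≤ b) :
    (2 : ℝ) ^ (2 * k) * ((2 * k : ℝ) ^ k * (2 * h * y + 6 * h * b) ^ k * h) ≤
      1 / 2 * y ^ (2 * k) + (1 / 2 * ((h : ℝ) ^ 2 * (32 * k * h) ^ (2 * k)) + h * (96 * k * h * b) ^ k) := by
  have h1 : (2 * h * y + 6 * h * b : ℝ) ^ k ≤ 2 ^ k * ((2 * h * y) ^ k + (6 * h * b) ^ k) := by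
    have a1 : 0 ≤ 2 * h * y := by positivity
    have a2 : 0 ≤ 6 * h * b := by positivity
    have := add_pow_le a1 a2 k
    refine this.trans ?_
    have h3 : (2 : ℝ) ^ (k - 1) ≤ 2 ^ k := pow_le_pow_right₀ (by norm_num) (by omega)
    exact mul_le_mul_of_nonneg_right h3 (by positivity)
  have h2 : (2 : ℝ) ^ (2 * k) * ((2 * k : ℝ) ^ k * (2 ^ k * ((2 * h * y) ^ k + (6 * h * b) ^ k)) * h) =
      h * (32 * k * h) ^ k * y ^ k + h * (96 * k * h * b) ^ k := by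
    have e1 : (32 * k * h : ℝ) ^ k = 2 ^ (2 * k) * (2 * k) ^ k * 2 ^ k * (2 * h) ^ k := by
      rw [pow_mul, ← mul_pow, ← mul_pow, ← mul_pow]
      congr 1; ring
    have e2 : (96 * k * h * b : ℝ) ^ k = 2 ^ (2 * k) * (2 * k) ^ k * 2 ^ k * (6 * h * b) ^ k := by
      rw [pow_mul, ← mul_pow, ← mul_pow, ← mul_pow]
      congr 1; ring
    rw [e1, e2, mul_pow (2 * (h : ℝ)) y k]
    ring
  calc (2 : ℝ) ^ (2 * k) * ((2 * k : ℝ) ^ k * (2 * h * y + 6 * h * b) ^ k * h)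
      ≤ (2 : ℝ) ^ (2 * k) * ((2 * k : ℝ) ^ k * (2 ^ k * ((2 * h * y) ^ k + (6 * h * b) ^ k)) * h) := by
        gcongr
    _ = h * (32 * k * h) ^ k * y ^ k + h * (96 * k * h * b) ^ k := h2
    _ ≤ 1 / 2 * y ^ (2 * k) + (1 / 2 * ((h : ℝ) ^ 2 * (32 * k * h) ^ (2 * k)) + h * (96 * k * h * b) ^ k) := by
        have e3 : y ^ (2 * k) = (y ^ k) ^ 2 := by rw [← pow_mul, mul_comm]
        have e4 : (32 * k * h : ℝ) ^ (2 * k) = ((32 * k * h) ^ k) ^ 2 := by rw [← pow_mul, mul_comm k 2]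
        rw [e3, e4]
        nlinarith [sq_nonneg (y ^ k - h * (32 * k * h : ℝ) ^ k)]

lemma scalar2 {h k : ℕ} {b : ℝ} (hh : 1 ≤ h) (hk : 1 ≤ k) (hb : (h : ℝ) ≤ b) :
    2 * (1 / 2 * ((h : ℝ) ^ 2 * (32 * k * h) ^ (2 * k)) + h * (96 * k * h * b) ^ k) ≤
      (100 * k : ℝ) ^ (2 * k) * (h : ℝ) ^ (k + 2) * b ^ k := by
  have hh' : (1 : ℝ) ≤ h := by exact_mod_cast hh
  have hk' : (1 : ℝ) ≤ k := by exact_mod_cast hk
  have hb0 : 0 ≤ b := by linarith
  have e1 : (h : ℝ) ^ 2 * (32 * k * h) ^ (2 * k) = (1024 * k ^ 2 : ℝ) ^ k * (h ^ (k + 2) * h ^ k) := by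
    have : (32 * k * h : ℝ) ^ (2 * k) = (1024 * k ^ 2 : ℝ) ^ k * (h ^ k * h ^ k) := by
      rw [pow_mul, ← mul_pow, ← mul_pow]
      congr 1; ring
    rw [this]; ring
  have e2 : (h : ℝ) * (96 * k * h * b) ^ k = (96 * k : ℝ) ^ k * (h ^ (k + 1) * b ^ k) := by
    have : (96 * k * h * b : ℝ) ^ k = (96 * k) ^ k * h ^ k * b ^ k := by
      rw [← mul_pow, ← mul_pow]
    rw [this]; ring
  rw [e1, e2]
  have h1 : (h : ℝ) ^ k ≤ b ^ k := pow_le_pow_left₀ (by positivity) hb k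
  have h2 : (h : ℝ) ^ (k + 1) ≤ h ^ (k + 2) := pow_le_pow_right₀ hh' (by omega)
  have h3 : (1024 * k ^ 2 : ℝ) ^ k + 2 * (96 * k : ℝ) ^ k ≤ (100 * k : ℝ) ^ (2 * k) := by
    have a1 : (96 * k : ℝ) ^ k ≤ (96 * k ^ 2 : ℝ) ^ k := by
      refine pow_le_pow_left₀ (by positivity) ?_ k
      nlinarith
    have a2 : 2 * (96 * k ^ 2 : ℝ) ^ k ≤ (192 * k ^ 2 : ℝ) ^ k := by
      have : (192 * k ^ 2 : ℝ) ^ k = 2 ^ k * (96 * k ^ 2) ^ k := by
        rw [← mul_pow]; congr 1; ring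
      rw [this]
      refine mul_le_mul_of_nonneg_right ?_ (by positivity)
      calc (2 : ℝ) = 2 ^ 1 := by norm_num
        _ ≤ 2 ^ k := pow_le_pow_right₀ (by norm_num) hk
    have a3 : (1024 * k ^ 2 : ℝ) ^ k + (192 * k ^ 2 : ℝ) ^ k ≤ (1024 * k ^ 2 + 192 * k ^ 2 : ℝ) ^ k :=
      pow_add_pow_le (by positivity) (by positivity) (by omega)
    have a4 : (1024 * k ^ 2 + 192 * k ^ 2 : ℝ) ^ k ≤ (100 * k : ℝ) ^ (2 * k) := by
      rw [pow_mul]
      refine pow_le_pow_left₀ (by positivity) ?_ k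
      nlinarith
    linarith
  calc 2 * (1 / 2 * ((1024 * k ^ 2 : ℝ) ^ k * (h ^ (k + 2) * h ^ k)) + (96 * k : ℝ) ^ k * (h ^ (k + 1) * b ^ k))
      = (1024 * k ^ 2 : ℝ) ^ k * (h ^ (k + 2) * h ^ k) + 2 * (96 * k : ℝ) ^ k * (h ^ (k + 1) * b ^ k) := by ring
    _ ≤ (1024 * k ^ 2 : ℝ) ^ k * (h ^ (k + 2) * b ^ k) + 2 * (96 * k : ℝ) ^ k * (h ^ (k + 2) * b ^ k) := by
        gcongr
    _ = ((1024 * k ^ 2 : ℝ) ^ k + 2 * (96 * k : ℝ) ^ k) * (h ^ (k + 2) * b ^ k) := by ring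
    _ ≤ (100 * k : ℝ) ^ (2 * k) * (h ^ (k + 2) * b ^ k) := by
        refine mul_le_mul_of_nonneg_right h3 (by positivity)
    _ = _ := by ring

end ModelAux

open ModelAux

theorem model {ι : Type*} [Fintype ι] [DecidableEq ι] {Ω : ι → Type*} [∀ i, Fintype (Ω i)]
    [∀ i, Nonempty (Ω i)] {h k : ℕ} (hh : 1 ≤ h) (hk : 1 ≤ k) (v : ∀ i, Ω i → Fin h → ℝ)
    (hv : ∀ i x j, |v i x j| ≤ 1) {δ : ℝ} (hδ : 0 ≤ δ) (hδ1 : h * δ ≤ 1)
    (hmean : ∀ i, ∀ j j' : Fin h, j ≠ j' →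
      |(∑ x, v i x j * v i x j') / (Fintype.card (Ω i) : ℝ)| ≤ δ)
    (hb : h ≤ Fintype.card ι) :
    (∑ ω : ∀ i, Ω i, ((∑ i, rk (v i (ω i))) ^ (2 * k)).trace) / (Fintype.card (∀ i, Ω i) : ℝ) ≤
      h * 4 ^ k * ((100 * k : ℝ) ^ (2 * k) * (h : ℝ) ^ (k + 2) * (Fintype.card ι : ℝ) ^ k +
        ((Fintype.card ι : ℝ) * h * δ) ^ (2 * k)) := by
  set b : ℝ := (Fintype.card ι : ℝ) with hbdef
  have hb' : (h : ℝ) ≤ b := by rw [hbdef]; exact_mod_cast hb
  have hh' : (1 : ℝ) ≤ h := by exact_mod_cast hh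
  have hb0 : 0 ≤ b := by linarith
  set T : ℝ := (Fintype.card (∀ i, Ω i) : ℝ) with hT
  have hT0 : 0 < T := by
    rw [hT]
    exact_mod_cast Fintype.card_pos
  -- the means
  set M : ι → Matrix (Fin h) (Fin h) ℝ := fun i => (1 / (Fintype.card (Ω i) : ℝ)) • ∑ x, rk (v i x) with hM
  have hMs : ∀ i, (M i).IsHermitian := by
    intro i
    unfold Matrix.IsHermitian
    simp only [hM]
    rw [Matrix.conjTranspose_smul, Matrix.conjTranspose_sum, star_trivial]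
    congr 1
    exact Finset.sum_congr rfl fun x _ => rk_symm (v i x)
  have hMe : ∀ i j j', |M i j j'| ≤ δ := by
    intro i j j'
    simp only [hM]
    rw [Matrix.smul_apply, Matrix.sum_apply, smul_eq_mul]
    by_cases hj : j = j'
    · subst hj
      have : ∑ x, rk (v i x) j j = 0 := Finset.sum_eq_zero fun x _ => by simp [rk]
      rw [this]
      simpa using hδ
    · have h1 := hmean i j j' hj
      have : ∑ x, rk (v i x) j j' = ∑ x, v i x j * v i x j' :=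
        Finset.sum_congr rfl fun x _ => by simp [rk, hj]
      rw [this, one_div, inv_mul_eq_div]
      exact h1
  have hMn : ∀ i, nr (M i) ≤ h * δ := by
    intro i
    have := nr_le_of_entries (hMs i) hδ (hMe i)
    rwa [Fintype.card_fin] at this
  have hMsum : nr (∑ i, M i) ≤ b * h * δ := by
    refine (nr_sum_le _ _).trans ?_
    calc ∑ i, nr (M i) ≤ ∑ _i : ι, (h * δ : ℝ) := Finset.sum_le_sum fun i _ => hMn i
      _ = b * h * δ := by rw [Finset.sum_const, card_univ, nsmul_eq_mul, ← hbdef]; ring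
  set y : (∀ i, Ω i) → ℝ := fun ω => nr (∑ i, (rk (v i (ω i)) - M i)) with hy
  have hy0 : ∀ ω, 0 ≤ y ω := fun ω => nr_nonneg _
  have hO : ∀ ω : ∀ i, Ω i, nr (∑ i, rk (v i (ω i))) ≤ y ω + b * h * δ := by
    intro ω
    have e1 : ∑ i, rk (v i (ω i)) = ∑ i, (rk (v i (ω i)) - M i) + ∑ i, M i := by
      rw [Finset.sum_sub_distrib]; abel
    rw [e1]
    exact (nr_add_le _ _).trans (by simp only [hy]; linarith)
  have hbd : b * h * δ ≤ b := by nlinarith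
  -- symmetrization and Khintchine
  have key : ∑ ω, y ω ^ (2 * k) ≤ T * ((100 * k : ℝ) ^ (2 * k) * (h : ℝ) ^ (k + 2) * b ^ k) := by
    have s1 := symmetrize (fun i x => rk (v i x)) (m := 2 * k) (by omega)
    have s2 : ∀ ω : ∀ i, Ω i, ∑ e : ι → Bool, nr (∑ i, sg (e i) • rk (v i (ω i))) ^ (2 * k) ≤
        2 ^ Fintype.card ι * ((2 * k : ℝ) ^ k * (2 * h * y ω + 6 * h * b) ^ k * h) := by
      intro ω
      have h1 : ∀ e : ι → Bool, nr (∑ i, sg (e i) • rk (v i (ω i))) ^ (2 * k) ≤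
          ((∑ i, sg (e i) • rk (v i (ω i))) ^ (2 * k)).trace := by
        intro e
        refine pow_le_trace ?_ hk
        unfold Matrix.IsHermitian
        rw [Matrix.conjTranspose_sum]
        refine Finset.sum_congr rfl fun i _ => ?_
        rw [Matrix.conjTranspose_smul, star_trivial, rk_symm (v i (ω i))]
      refine (Finset.sum_le_sum fun e _ => h1 e).trans ?_
      have h2 := khintchine (fun i => rk (v i (ω i))) (fun i => rk_symm _)
        (lam := 2 * h * y ω + 6 * h * b) (by have := hy0 ω; positivity)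
        (var_psd hh (fun i => v i (ω i)) (fun i j => hv i (ω i) j) (by
          have := hO ω
          rw [← hbdef]
          nlinarith)) k
      rwa [Fintype.card_fin] at h2
    have s3 : ∑ ω, y ω ^ (2 * k) ≤
        ∑ ω, (2 : ℝ) ^ (2 * k) * ((2 * k : ℝ) ^ k * (2 * h * y ω + 6 * h * b) ^ k * h) := by
      refine s1.trans ?_
      rw [← Finset.mul_sum]
      refine mul_le_mul_of_nonneg_left ?_ (by positivity)
      rw [div_le_iff₀ (by positivity), Finset.sum_mul]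
      refine Finset.sum_le_sum fun ω _ => (s2 ω).trans (le_of_eq ?_)
      ring
    have s4 : ∑ ω, (2 : ℝ) ^ (2 * k) * ((2 * k : ℝ) ^ k * (2 * h * y ω + 6 * h * b) ^ k * h) ≤
        1 / 2 * ∑ ω, y ω ^ (2 * k) +
          T * (1 / 2 * ((h : ℝ) ^ 2 * (32 * k * h) ^ (2 * k)) + h * (96 * k * h * b) ^ k) := by
      refine (Finset.sum_le_sum fun ω _ => scalar hk (hy0 ω) hb0).trans (le_of_eq ?_)
      rw [Finset.sum_add_distrib, ← Finset.mul_sum, Finset.sum_const, card_univ, nsmul_eq_mul, ← hT]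
    have s5 := scalar2 hh hk hb'
    nlinarith [s3.trans s4]
  -- the trace
  rw [div_le_iff₀ hT0]
  have t1 : ∀ ω : ∀ i, Ω i, ((∑ i, rk (v i (ω i))) ^ (2 * k)).trace ≤
      h * 4 ^ k * (y ω ^ (2 * k) + (b * h * δ) ^ (2 * k)) := by
    intro ω
    have hs : (∑ i, rk (v i (ω i))).IsHermitian := by
      unfold Matrix.IsHermitian
      rw [Matrix.conjTranspose_sum]
      exact Finset.sum_congr rfl fun i _ => rk_symm _
    have h1 := trace_le hs k
    rw [Fintype.card_fin] at h1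
    refine h1.trans ?_
    rw [mul_assoc]
    refine mul_le_mul_of_nonneg_left ?_ (by positivity)
    have h2 : nr (∑ i, rk (v i (ω i))) ^ (2 * k) ≤ (y ω + b * h * δ) ^ (2 * k) :=
      pow_le_pow_left₀ (nr_nonneg _) (hO ω) _
    refine h2.trans ((add_pow_le (hy0 ω) (by positivity) (2 * k)).trans ?_)
    have h3 : (2 : ℝ) ^ (2 * k - 1) ≤ 4 ^ k := by
      calc (2 : ℝ) ^ (2 * k - 1) ≤ 2 ^ (2 * k) := pow_le_pow_right₀ (by norm_num) (by omega)
        _ = 4 ^ k := by rw [pow_mul]; norm_num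
    have := hy0 ω
    exact mul_le_mul_of_nonneg_right h3 (by positivity)
  calc ∑ ω : ∀ i, Ω i, ((∑ i, rk (v i (ω i))) ^ (2 * k)).trace
      ≤ ∑ ω, h * 4 ^ k * (y ω ^ (2 * k) + (b * h * δ) ^ (2 * k)) := Finset.sum_le_sum fun ω _ => t1 ω
    _ = h * 4 ^ k * (∑ ω, y ω ^ (2 * k) + T * (b * h * δ) ^ (2 * k)) := by
        rw [← Finset.mul_sum, Finset.sum_add_distrib, Finset.sum_const, card_univ, nsmul_eq_mul, ← hT]
    _ ≤ h * 4 ^ k * (T * ((100 * k : ℝ) ^ (2 * k) * (h : ℝ) ^ (k + 2) * b ^ k) + T * (b * h * δ) ^ (2 * k)) := by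
        gcongr
    _ = _ := by ring

end Pool.Agent.P4f18dfW
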