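import Pool.Agent.Lib.P4f18dfW.Defs
import Pool.Agent.Lib.P4f18dfQ.Per
import Pool.Agent.Lib.P4f18dfQ.Bridge

/-!
# From the integers to the product model

Module W.Transfer.  Part 1 (`Cls Q q M g`): `g : ℕ → ℝ` is a sum of at most `M` functions bounded by
`1`, each periodic with a positive period `≤ q` dividing `Q`.  Closed under sums (`M + M'`, same `q`) and
products (`M M'`, `q q'`; the period of a product is the `lcm`).  A function of the class has
`|∑_(n ∈ Ioc 0 N) g n - N/Q ∑_(n<Q) g n| ≤ M q`.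
Part 2: for `Q = ∏_(p ∈ B) p` the map `n ↦ (n mod p)_p` is a bijection from `range Q` to `∀ p : B, ZMod p`
(`ZMod.prodEquivPi`), so the mean of `G (n mod p)_p` over `range Q` is the mean over the product.
Part 3: `vv h p a` depends on `a mod p` only, the entries of `Om h B n` are in the class
`(2P, b)`, so `trace (Om h B n ^ m)` is in the class `((2P)^m, (h b)^m)`.
-/

set_option autoImplicit false

namespace Pool.Agent.P4f18dfW

open Matrix Finset Pool.Agent.P4f18dfQ Pool.Agent.P4f18df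

namespace TransferAux

/-- sums of `M` bounded periodic functions with periods `≤ q` dividing `Q` -/
inductive Cls (Q q : ℕ) : ℕ → (ℕ → ℝ) → Prop
  | zero : Cls Q q 0 (fun _ => 0)
  | one (f : ℕ → ℝ) (r : ℕ) (h0 : 0 < r) (h1 : r ≤ q) (h2 : r ∣ Q) (h3 : ∀ n, |f n| ≤ 1)
      (h4 : ∀ n, f (n + r) = f n) : Cls Q q 1 f
  | add {M M' : ℕ} {g g' : ℕ → ℝ} (h : Cls Q q M g) (h' : Cls Q q M' g') :
      Cls Q q (M + M') (fun n => g n + g' n)

/-- the deviation from the mean -/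
noncomputable def dv (Q N : ℕ) (g : ℕ → ℝ) : ℝ :=
  ∑ n ∈ Ioc 0 N, g n - (N : ℝ) / Q * ∑ n ∈ range Q, g n

theorem dv_add (Q N : ℕ) (g g' : ℕ → ℝ) : dv Q N (fun n => g n + g' n) = dv Q N g + dv Q N g' := by
  unfold dv
  rw [Finset.sum_add_distrib, Finset.sum_add_distrib]
  ring

theorem dv_one {Q N r : ℕ} {f : ℕ → ℝ} (hQ : 0 < Q) (h0 : 0 < r) (h2 : r ∣ Q) (h3 : ∀ n, |f n| ≤ 1)
    (h4 : ∀ n, f (n + r) = f n) : |dv Q N f| ≤ r := by
  obtain ⟨k, hk⟩ := h2
  have hk0 : 0 < k := by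
    rcases Nat.eq_zero_or_pos k with h | h
    · rw [h, mul_zero] at hk
      omega
    · exact h
  have hr : (0 : ℝ) < r := by exact_mod_cast h0
  have hkr : (0 : ℝ) < k := by exact_mod_cast hk0
  have hS : ∑ n ∈ range Q, f n = k * ∑ n ∈ range r, f n := by
    have h5 := Per.sum_blocks h4 0 k
    rw [hk]
    simpa using h5
  have h6 : ∑ n ∈ Ioc 0 N, f n = ∑ n ∈ range N, f (1 + n) := by
    rw [← Finset.Ico_succ_succ_eq_Ioc, Finset.sum_Ico_eq_sum_range]
    simp
  have hN : r * (N / r) + N % r = N := Nat.div_add_mod N r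
  have h7 : ∑ n ∈ range N, f (1 + n) = ((N / r : ℕ) : ℝ) * ∑ n ∈ range r, f n +
      ∑ n ∈ range (N % r), f (1 + (r * (N / r) + n)) := by
    rw [← Per.sum_blocks h4 1 (N / r)]
    conv_lhs => rw [← hN]
    rw [Finset.sum_range_add]
  obtain ⟨s, hs⟩ : ∃ s : ℕ, s = N % r := ⟨_, rfl⟩
  obtain ⟨a, ha⟩ : ∃ a : ℕ, a = 1 + r * (N / r) := ⟨_, rfl⟩
  obtain ⟨d, hd⟩ : ∃ d : ℕ, d = N / r := ⟨_, rfl⟩
  have hsr : s < r := by rw [hs]; exact Nat.mod_lt _ h0
  have hshift : ∑ n ∈ range r, f n = ∑ n ∈ range s, f (a + n) + ∑ n ∈ range (r - s), f (a + (s + n)) := by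
    rw [← Per.shift h4 a]
    conv_lhs => rw [show r = s + (r - s) by omega]
    rw [Finset.sum_range_add]
  have h8 : ∑ n ∈ range (N % r), f (1 + (r * (N / r) + n)) = ∑ n ∈ range s, f (a + n) := by
    rw [← hs]
    refine Finset.sum_congr rfl fun n _ => ?_
    rw [ha, add_assoc]
  obtain ⟨X, hX⟩ : ∃ X : ℝ, X = ∑ n ∈ range s, f (a + n) := ⟨_, rfl⟩
  obtain ⟨Y, hY⟩ : ∃ Y : ℝ, Y = ∑ n ∈ range (r - s), f (a + (s + n)) := ⟨_, rfl⟩
  have hXb : |X| ≤ s := by
    rw [hX]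
    calc |∑ n ∈ range s, f (a + n)| ≤ ∑ n ∈ range s, |f (a + n)| := Finset.abs_sum_le_sum_abs _ _
      _ ≤ ∑ n ∈ range s, (1 : ℝ) := Finset.sum_le_sum fun n _ => h3 _
      _ = s := by simp
  have hYb : |Y| ≤ (r : ℝ) - s := by
    rw [hY]
    calc |∑ n ∈ range (r - s), f (a + (s + n))| ≤ ∑ n ∈ range (r - s), |f (a + (s + n))| :=
          Finset.abs_sum_le_sum_abs _ _
      _ ≤ ∑ n ∈ range (r - s), (1 : ℝ) := Finset.sum_le_sum fun n _ => h3 _
      _ = (r : ℝ) - s := by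
          rw [Finset.sum_const, Finset.card_range, nsmul_eq_mul, mul_one, Nat.cast_sub hsr.le]
  have hNr : (N : ℝ) = r * d + s := by
    have : ((r * (N / r) + N % r : ℕ) : ℝ) = (N : ℝ) := by rw [hN]
    rw [← this, hd, hs]
    push_cast
    ring
  have hQr : (Q : ℝ) = r * k := by
    rw [hk]
    push_cast
    ring
  have hval : dv Q N f = (((r : ℝ) - s) * X - s * Y) / r := by
    unfold dv
    rw [h6, h7, hS, h8, hshift, ← hX, ← hY, ← hd, hNr, hQr]
    field_simp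
    ring
  have hs0 : (0 : ℝ) ≤ s := Nat.cast_nonneg s
  have hsr' : (s : ℝ) ≤ r := by exact_mod_cast hsr.le
  rw [hval, abs_div, abs_of_pos hr, div_le_iff₀ hr]
  calc |((r : ℝ) - s) * X - s * Y| ≤ |((r : ℝ) - s) * X| + |(s : ℝ) * Y| := abs_sub _ _
    _ = ((r : ℝ) - s) * |X| + s * |Y| := by
        rw [abs_mul, abs_mul, abs_of_nonneg (by linarith : (0 : ℝ) ≤ (r : ℝ) - s), abs_of_nonneg hs0]
    _ ≤ ((r : ℝ) - s) * s + s * ((r : ℝ) - s) := by
        have := mul_le_mul_of_nonneg_left hXb (by linarith : (0 : ℝ) ≤ (r : ℝ) - s)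
        have := mul_le_mul_of_nonneg_left hYb hs0
        linarith
    _ ≤ r * r := by nlinarith [sq_nonneg ((r : ℝ) - 2 * s)]

theorem dv_le {Q q M N : ℕ} {g : ℕ → ℝ} (hQ : 0 < Q) (h : Cls Q q M g) : |dv Q N g| ≤ M * q := by
  induction h with
  | zero => simp [dv]
  | one f r h0 h1 h2 h3 h4 =>
    refine (dv_one hQ h0 h2 h3 h4).trans ?_
    have : (r : ℝ) ≤ q := by exact_mod_cast h1
    simpa using this
  | add h h' ih ih' =>
    rw [dv_add]
    push_cast
    rw [add_mul]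
    exact (abs_add_le _ _).trans (add_le_add ih ih')

theorem Cls.congr {Q q M M' : ℕ} {g g' : ℕ → ℝ} (h : Cls Q q M g) (hM : M = M') (hg : ∀ n, g n = g' n) :
    Cls Q q M' g' := by
  subst hM
  have : g = g' := funext hg
  rwa [this] at h

theorem Cls.sum {Q q M : ℕ} {ι : Type*} (s : Finset ι) (g : ι → ℕ → ℝ) (h : ∀ i ∈ s, Cls Q q M (g i)) :
    Cls Q q (s.card * M) (fun n => ∑ i ∈ s, g i n) := by
  classical
  induction s using Finset.induction_on with
  | empty => exact Cls.zero.congr (by simp) (fun n => by simp)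
  | insert i s hi ih =>
    have h1 := ih fun j hj => h j (Finset.mem_insert_of_mem hj)
    have h2 := h i (Finset.mem_insert_self i s)
    refine (h2.add h1).congr ?_ fun n => ?_
    · rw [Finset.card_insert_of_notMem hi]
      ring
    · rw [Finset.sum_insert hi]

theorem Cls.mul {Q q q' M M' : ℕ} {g g' : ℕ → ℝ} (h : Cls Q q M g) (h' : Cls Q q' M' g') :
    Cls Q (q * q') (M * M') (fun n => g n * g' n) := by
  induction h with
  | zero => exact Cls.zero.congr (by simp) (fun n => by simp)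
  | one f r h0 h1 h2 h3 h4 =>
    induction h' with
    | zero => exact Cls.zero.congr (by simp) (fun n => by simp)
    | one f' r' h0' h1' h2' h3' h4' =>
      have h5 : ∀ (f : ℕ → ℝ) (r : ℕ), (∀ n, f (n + r) = f n) → ∀ k n, f (n + r * k) = f n := by
        intro f r hf k
        induction k with
        | zero => intro n; simp
        | succ k ih =>
          intro n
          rw [Nat.mul_succ, ← add_assoc, hf, ih]
      refine Cls.one _ (Nat.lcm r r') (Nat.lcm_pos h0 h0') ?_ (Nat.lcm_dvd h2 h2') (fun n => ?_) (fun n => ?_)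
      · exact (Nat.le_of_dvd (Nat.mul_pos h0 h0') (Nat.lcm_dvd_mul r r')).trans (Nat.mul_le_mul h1 h1')
      · rw [abs_mul]
        exact mul_le_one₀ (h3 n) (abs_nonneg _) (h3' n)
      · obtain ⟨k, hk⟩ := Nat.dvd_lcm_left r r'
        obtain ⟨k', hk'⟩ := Nat.dvd_lcm_right r r'
        have e1 : f (n + Nat.lcm r r') = f n := by rw [hk]; exact h5 f r h4 k n
        have e2 : f' (n + Nat.lcm r r') = f' n := by rw [hk']; exact h5 f' r' h4' k' n
        show f (n + Nat.lcm r r') * f' (n + Nat.lcm r r') = f n * f' n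
        rw [e1, e2]
    | add h h' ih ih' =>
      exact (ih.add ih').congr (by ring) (fun n => by ring)
  | add h h' ih ih' =>
    exact (ih.add ih').congr (by ring) (fun n => by ring)

theorem Cls.mono {Q q q' M : ℕ} {g : ℕ → ℝ} (h : Cls Q q M g) (hq : q ≤ q') : Cls Q q' M g := by
  induction h with
  | zero => exact Cls.zero
  | one f r h0 h1 h2 h3 h4 => exact Cls.one f r h0 (h1.trans hq) h2 h3 h4
  | add h h' ih ih' => exact ih.add ih'

theorem lg_per (p n : ℕ) : lg p (n + p) = lg p n := by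
  have h2 : ((n + p : ℕ) : ℤ) % (p : ℤ) = ((n : ℕ) : ℤ) % (p : ℤ) := by
    push_cast
    simp
  unfold lg
  rw [jacobiSym.mod_left' h2]

theorem lg_mod (p n k : ℕ) : lg p (n % p + k) = lg p (n + k) := by
  have h := Per.map_mod (φ := fun n => lg p (n + k)) (q := p) (fun n => by
    show lg p (n + p + k) = lg p (n + k)
    rw [show n + p + k = n + k + p by ring, lg_per]) n
  exact h

theorem vv_mod (h p n : ℕ) : vv h p (n % p) = vv h p n := by
  funext i
  unfold vv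
  rw [add_assoc, add_assoc, lg_mod]

theorem rk_cls {Q P h p : ℕ} (hp : 0 < p) (hpP : p ≤ 2 * P) (hpQ : p ∣ Q) (i j : Fin h) :
    Cls Q (2 * P) 1 (fun a => rk (vv h p a) i j) := by
  refine Cls.one _ p hp hpP hpQ (fun n => ?_) (fun n => ?_)
  · unfold rk vv
    simp only [Matrix.of_apply]
    split_ifs
    · simp
    · rw [abs_mul]
      exact mul_le_one₀ (abs_lg_le _ _) (abs_nonneg _) (abs_lg_le _ _)
  · have h1 : vv h p (n + p) = vv h p n := by
      funext i
      unfold vv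
      rw [show n + p + 1 + (i : ℕ) = n + 1 + (i : ℕ) + p by ring, lg_per]
    simp only [h1]

theorem Om_cls {Q P h : ℕ} (B : Finset ℕ) (hB : ∀ p ∈ B, 0 < p ∧ p ≤ 2 * P ∧ p ∣ Q) (i j : Fin h) :
    Cls Q (2 * P) B.card (fun a => Om h B a i j) := by
  refine (Cls.sum B (fun p a => rk (vv h p a) i j) fun p hp =>
    rk_cls (hB p hp).1 (hB p hp).2.1 (hB p hp).2.2 i j).congr (by ring) fun n => ?_
  unfold Om
  rw [Matrix.sum_apply]

theorem pow_cls {Q P h : ℕ} (B : Finset ℕ) (hB : ∀ p ∈ B, 0 < p ∧ p ≤ 2 * P ∧ p ∣ Q) (m : ℕ) (i j : Fin h) :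
    Cls Q ((2 * P) ^ (m + 1)) (h ^ m * B.card ^ (m + 1)) (fun a => (Om h B a ^ (m + 1)) i j) := by
  induction m generalizing i j with
  | zero =>
    have h1 := Om_cls B hB i j
    have h2 : Cls Q ((2 * P) ^ (0 + 1)) B.card (fun a => Om h B a i j) := h1.mono (by simp)
    exact h2.congr (by simp) (fun n => by simp)
  | succ m ih =>
    have h1 : ∀ k ∈ (Finset.univ : Finset (Fin h)), Cls Q ((2 * P) ^ (m + 1) * (2 * P))
        ((h ^ m * B.card ^ (m + 1)) * B.card) (fun a => (Om h B a ^ (m + 1)) i k * Om h B a k j) :=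
      fun k _ => (ih i k).mul (Om_cls B hB k j)
    have h2 := Cls.sum Finset.univ _ h1
    refine (h2.mono (le_of_eq (pow_succ _ _).symm)).congr ?_ fun n => ?_
    · rw [Finset.card_univ, Fintype.card_fin]
      ring
    · rw [pow_succ (Om h B n) (m + 1), Matrix.mul_apply]

theorem trace_cls {Q P h m : ℕ} (B : Finset ℕ) (hB : ∀ p ∈ B, 0 < p ∧ p ≤ 2 * P ∧ p ∣ Q) (hm : 1 ≤ m) :
    Cls Q ((2 * P) ^ m) ((h * B.card) ^ m) (fun a => (Om h B a ^ m).trace) := by
  obtain ⟨k, rfl⟩ : ∃ k, m = k + 1 := ⟨m - 1, by omega⟩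
  have h2 := Cls.sum Finset.univ _ fun (i : Fin h) (_ : i ∈ Finset.univ) => pow_cls B hB k i i
  refine h2.congr ?_ fun n => ?_
  · rw [Finset.card_univ, Fintype.card_fin, mul_pow]
    ring
  · rfl

/-- the Chinese remainder theorem -/
theorem crt (B : Finset ℕ) (hB : ∀ p ∈ B, p.Prime) [∀ p : B, NeZero (p : ℕ)] (G : (∀ p : B, ZMod (p : ℕ)) → ℝ) :
    ∑ n ∈ range (∏ p : B, (p : ℕ)), G (fun p => (n : ZMod (p : ℕ))) = ∑ x, G x := by
  have hco : Pairwise (Function.onFun Nat.Coprime fun p : B => (p : ℕ)) := by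
    intro p p' hpp'
    exact (Nat.coprime_primes (hB p.1 p.2) (hB p'.1 p'.2)).2 fun h => hpp' (Subtype.ext h)
  have hQ : (∏ p : B, (p : ℕ)) ≠ 0 := Finset.prod_ne_zero_iff.2 fun p _ => (hB p.1 p.2).ne_zero
  have : NeZero (∏ p : B, (p : ℕ)) := ⟨hQ⟩
  have h1 : ∑ n ∈ range (∏ p : B, (p : ℕ)), G (fun p => (n : ZMod (p : ℕ))) =
      ∑ x : ZMod (∏ p : B, (p : ℕ)), G (ZMod.prodEquivPi (fun p : B => (p : ℕ)) hco x) := by
    refine Finset.sum_nbij' (fun n => (n : ZMod (∏ p : B, (p : ℕ)))) (fun x => x.val) ?_ ?_ ?_ ?_ ?_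
    · intro n _; exact Finset.mem_univ _
    · intro x _; exact Finset.mem_range.2 (ZMod.val_lt x)
    · intro n hn
      exact ZMod.val_cast_of_lt (Finset.mem_range.1 hn)
    · intro x _; exact ZMod.natCast_zmod_val x
    · intro n _
      congr 1
      rw [map_natCast]
      rfl
  rw [h1]
  exact (ZMod.prodEquivPi (fun p : B => (p : ℕ)) hco).toEquiv.sum_comp G

end TransferAux

open TransferAux

theorem transfer {P h m N : ℕ} (B : Finset ℕ) (hB : ∀ p ∈ B, p.Prime ∧ p ≤ 2 * P) (hm : 1 ≤ m)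
    (hN : 1 ≤ N) [∀ p : B, NeZero (p : ℕ)] :
    |(∑ a ∈ Ioc 0 N, (Om h B a ^ m).trace) / N -
      (∑ x : ∀ p : B, ZMod (p : ℕ), ((∑ p : B, rk (vv h p (x p).val)) ^ m).trace) /
        (Fintype.card (∀ p : B, ZMod (p : ℕ)) : ℝ)| ≤ ((h : ℝ) * B.card) ^ m * (2 * P : ℝ) ^ m / N := by
  classical
  obtain ⟨Q, hQdef⟩ : ∃ Q : ℕ, Q = ∏ p : B, (p : ℕ) := ⟨_, rfl⟩
  have hQ0 : 0 < Q := by
    rw [hQdef]
    exact Finset.prod_pos fun p _ => (hB p.1 p.2).1.pos
  have hdvd : ∀ p ∈ B, 0 < p ∧ p ≤ 2 * P ∧ p ∣ Q := by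
    intro p hp
    refine ⟨(hB p hp).1.pos, (hB p hp).2, ?_⟩
    rw [hQdef]
    exact Finset.dvd_prod_of_mem (fun p : B => (p : ℕ)) (Finset.mem_univ (⟨p, hp⟩ : B))
  have hcls := trace_cls (Q := Q) (P := P) (h := h) (m := m) B hdvd hm
  have hdv := dv_le (N := N) hQ0 hcls
  have hcard : (Fintype.card (∀ p : B, ZMod (p : ℕ)) : ℝ) = (Q : ℝ) := by
    rw [Fintype.card_pi, hQdef]
    congr 1
    exact Finset.prod_congr rfl fun p _ => ZMod.card _
  have hcrt : ∑ x : ∀ p : B, ZMod (p : ℕ), ((∑ p : B, rk (vv h p (x p).val)) ^ m).trace =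
      ∑ n ∈ range Q, (Om h B n ^ m).trace := by
    rw [← crt B (fun p hp => (hB p hp).1)
      (fun x => ((∑ p : B, rk (vv h p (x p).val)) ^ m).trace), hQdef]
    refine Finset.sum_congr rfl fun n _ => ?_
    have h1 : ∑ p : B, rk (vv h p ((n : ZMod (p : ℕ))).val) = Om h B n := by
      unfold Om
      rw [← Finset.sum_coe_sort B (fun p => rk (vv h p n))]
      refine Finset.sum_congr rfl fun p _ => ?_
      rw [ZMod.val_natCast, vv_mod]
    rw [h1]
  have hN0 : (0 : ℝ) < N := by exact_mod_cast hN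
  have hQr : (0 : ℝ) < Q := by exact_mod_cast hQ0
  rw [hcrt, hcard]
  have e : (∑ a ∈ Ioc 0 N, (Om h B a ^ m).trace) / N - (∑ n ∈ range Q, (Om h B n ^ m).trace) / (Q : ℝ) =
      dv Q N (fun a => (Om h B a ^ m).trace) / N := by
    unfold dv
    field_simp
  rw [e, abs_div, abs_of_pos hN0]
  refine div_le_div_of_nonneg_right (hdv.trans (le_of_eq ?_)) hN0.le
  push_cast
  ring

end Pool.Agent.P4f18dfW
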