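import Pool.Agent.Lib.P4f18dfW.Model
import Pool.Agent.Lib.P4f18dfW.Transfer
import Pool.Agent.Lib.P4f18dfW.Chars

/-!
# The trace moment over the integers

Module W.Mom.  `transfer` with `m = 2k`, `model` with `Ω p = ZMod p`, `v p x = vv h p x.val`, `δ = 1 / P`
(`jacobsthal`: the mean is `-1 / p`).
-/

set_option autoImplicit false

namespace Pool.Agent.P4f18dfW

open Matrix Finset Pool.Agent.P4f18dfQ

theorem trace_moment {P h k N : ℕ} (B : Finset ℕ) (hB : B ⊆ PP P) (hP : 2 ≤ P) (hh : 1 ≤ h)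
    (hhP : h ≤ P) (hk : 1 ≤ k) (hN : 1 ≤ N) (hb : h ≤ B.card) :
    (∑ a ∈ Ioc 0 N, (Om h B a ^ (2 * k)).trace) / N ≤
      h * 4 ^ k * ((100 * k : ℝ) ^ (2 * k) * (h : ℝ) ^ (k + 2) * (B.card : ℝ) ^ k +
        ((B.card : ℝ) * h / P) ^ (2 * k)) + ((h : ℝ) * B.card) ^ (2 * k) * (2 * P : ℝ) ^ (2 * k) / N := by
  classical
  have hpr : ∀ p ∈ B, p.Prime ∧ P < p ∧ p ≤ 2 * P := fun p hp => by
    have := mem_PP.1 (hB hp)
    exact ⟨this.2, this.1.1, this.1.2⟩
  haveI : ∀ p : B, NeZero (p : ℕ) := fun p => ⟨(hpr p.1 p.2).1.ne_zero⟩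
  haveI : ∀ p : B, Nonempty (ZMod (p : ℕ)) := fun p => ⟨0⟩
  have hP0 : (0 : ℝ) < P := by exact_mod_cast (by omega : 0 < P)
  have h1 := transfer (P := P) (h := h) (m := 2 * k) (N := N) B
    (fun p hp => ⟨(hpr p hp).1, (hpr p hp).2.2⟩) (by omega) hN
  have h2 := model (ι := B) (Ω := fun p : B => ZMod (p : ℕ)) (h := h) (k := k) hh hk
    (fun p x => vv h p x.val) (fun p x j => by
      show |vv h p x.val j| ≤ 1
      unfold vv
      exact abs_lg_le _ _) (δ := 1 / P) (by positivity)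
    (by rw [mul_one_div, div_le_one hP0]; exact_mod_cast hhP)
    (fun p j j' hj => by
      have hp := hpr p.1 p.2
      rw [jacobsthal hp.1 (by omega) (by omega) hj, abs_div, ZMod.card]
      rw [abs_neg, abs_one, abs_of_nonneg (by positivity)]
      refine one_div_le_one_div_of_le hP0 ?_
      exact_mod_cast hp.2.1.le) (by rw [Fintype.card_coe]; exact hb)
  rw [Fintype.card_coe] at h2
  have h3 := (abs_le.1 h1).2
  have e : ((B.card : ℝ) * h * (1 / P)) = (B.card : ℝ) * h / P := by ring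
  rw [e] at h2
  linarith

end Pool.Agent.P4f18dfW
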