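import Pool.Agent.Lib.P4f18dfW.LargeA
import Pool.Agent.Lib.P4f18dfQ.BadV

/-!
# The exceptional primes for all lengths and scales, beyond the conductor: the sharp form

Module W.NetA (after NetL by helper78).  Union over the nets `Net s E₁` (lengths) and `Net s E₂` (scales) of the sets
of `large_a (α + η / 4) (η / 4)`, then `Uk_all`.
-/

set_option autoImplicit false

namespace Pool.Agent.P4f18dfW

open Finset Pool.Agent.P4f18dfQ Pool.Agent.P4f18df

theorem bad_a (α η : ℝ) (hα : 0 < α) (hη : 0 < η) (hαη : α + η ≤ 1) : ∃ C : ℕ, ∃ c₁ : ℝ, 0 < c₁ ∧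
    ∀ c : ℝ, 0 < c → c ≤ c₁ → ∃ P₀ : ℕ, ∀ P : ℕ, P₀ ≤ P →
      ∃ B : Finset ℕ, (B.card : ℝ) ≤ (P : ℝ) ^ (α + η) / 2 ∧
        ∀ p ∈ PP P, p ∉ B → ∀ m : ℕ, 1 ≤ m → (m : ℝ) ≤ 2 * (P : ℝ) ^ α →
          ∀ N : ℕ, (P : ℝ) ^ C ≤ N → (N : ℝ) ≤ 2 * Real.exp ((P : ℝ) ^ c) →
            |Uk (fm p) m N - c2 * m * N| ≤ (P : ℝ) ^ (-(2 * c)) * m * N := by
  obtain ⟨C, Q₀, hC⟩ := large_a (α + η / 4) (η / 4) (by linarith) (by linarith) (by linarith)
  refine ⟨C + 1, η / 2000, by linarith, ?_⟩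
  intro c hc hc0
  have hlim : ∀ᶠ P : ℕ in Filter.atTop, (1000 : ℝ) ≤ (P : ℝ) ^ c :=
    ((tendsto_rpow_atTop hc).comp tendsto_natCast_atTop_atTop).eventually_ge_atTop _
  have hlog : ∀ᶠ P : ℕ in Filter.atTop, Real.log P ≤ (1 / 10) * (P : ℝ) ^ c := by
    have h1 := (isLittleO_log_rpow_atTop hc).bound (show (0 : ℝ) < 1 / 10 by norm_num)
    have h2 := (tendsto_natCast_atTop_atTop (R := ℝ)).eventually h1
    filter_upwards [h2] with P hP
    rw [Real.norm_eq_abs, Real.norm_eq_abs,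
      abs_of_nonneg (Real.rpow_nonneg (Nat.cast_nonneg P) c)] at hP
    exact (le_abs_self _).trans hP
  obtain ⟨P₀, hP₀⟩ := Filter.eventually_atTop.1 (hlim.and hlog)
  refine ⟨max P₀ (max Q₀ 3), fun P hP => ?_⟩
  have hP1 : P₀ ≤ P := (le_max_left _ _).trans hP
  have hP2 : Q₀ ≤ P := (le_max_left _ _).trans ((le_max_right _ _).trans hP)
  have hP3 : 3 ≤ P := (le_max_right _ _).trans ((le_max_right _ _).trans hP)
  have hP3r : (3 : ℝ) ≤ P := by exact_mod_cast hP3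
  have hPr : (1 : ℝ) ≤ P := by linarith
  have hPpos : (0 : ℝ) < P := by linarith
  obtain ⟨hTM, hTlog⟩ := hP₀ P hP1
  -- powers of `P`
  have hPneg : (P : ℝ) ^ (-(2 * c)) = 1 / ((P : ℝ) ^ c) ^ 2 := by
    rw [Real.rpow_neg hPpos.le, one_div, ← Real.rpow_natCast, ← Real.rpow_mul hPpos.le]
    congr 2
    push_cast
    ring
  have hneg3 : (P : ℝ) ^ (-(η / 4 / 20)) ≤ 1 / ((P : ℝ) ^ c) ^ 3 := by
    have e1 : 1 / ((P : ℝ) ^ c) ^ 3 = (P : ℝ) ^ (-(3 * c)) := by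
      rw [Real.rpow_neg hPpos.le, one_div, ← Real.rpow_natCast, ← Real.rpow_mul hPpos.le]
      congr 2
      push_cast
      ring
    rw [e1]
    exact Real.rpow_le_rpow_of_exponent_le hPr (by linarith)
  have hlen : ((P : ℝ) ^ c) ^ 7 * (P : ℝ) ^ α ≤ (P : ℝ) ^ (α + η / 4) := by
    rw [← Real.rpow_natCast, ← Real.rpow_mul hPpos.le, ← Real.rpow_add hPpos]
    refine Real.rpow_le_rpow_of_exponent_le hPr ?_
    push_cast
    linarith
  have hlenP : ((P : ℝ) ^ c) ^ 7 * (P : ℝ) ^ α ≤ P := by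
    refine hlen.trans ?_
    calc (P : ℝ) ^ (α + η / 4) ≤ (P : ℝ) ^ (1 : ℝ) :=
          Real.rpow_le_rpow_of_exponent_le hPr (by linarith)
      _ = P := Real.rpow_one _
  have hcnt : ((P : ℝ) ^ c) ^ 15 * (P : ℝ) ^ (α + η / 4 + η / 4) ≤ (P : ℝ) ^ (α + η) := by
    rw [← Real.rpow_natCast, ← Real.rpow_mul hPpos.le, ← Real.rpow_add hPpos]
    refine Real.rpow_le_rpow_of_exponent_le hPr ?_
    push_cast
    linarith
  have hK0 : 0 ≤ (P : ℝ) ^ (α + η / 4 + η / 4) := Real.rpow_nonneg hPpos.le _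
  have hA1 : 1 ≤ (P : ℝ) ^ α := Real.one_le_rpow hPr (by linarith)
  rw [hPneg]
  set T : ℝ := (P : ℝ) ^ c with hT
  set A : ℝ := (P : ℝ) ^ α with hA
  set K : ℝ := (P : ℝ) ^ (α + η / 4 + η / 4) with hK
  have hA0 : 0 < A := by linarith
  have hT100 : 1000 ≤ T := hTM
  have hT1 : 1 ≤ T := by linarith
  have hT0 : 0 < T := by linarith
  have hTpow : ∀ j : ℕ, 1 ≤ T ^ j := fun j => one_le_pow₀ hT1
  obtain ⟨s₀, hs₀, hs₀'⟩ := exists_nat_pow_near (hTpow 6) (by norm_num : (1 : ℝ) < 2)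
  obtain ⟨e₀, he₀, he₀'⟩ := exists_nat_pow_near (show (1 : ℝ) ≤ 2 * A by linarith)
    (by norm_num : (1 : ℝ) < 2)
  obtain ⟨E₂, hE2, hE2'⟩ := BadV.exists_E hT0.le
  set s : ℕ := s₀ + 1 with hs
  set E₁ : ℕ := e₀ + 1 with hE₁
  have hs1 : T ^ 6 ≤ 2 ^ s := hs₀'.le
  have hs2 : (2 : ℝ) ^ s ≤ 2 * T ^ 6 := by
    rw [hs, pow_succ]
    linarith
  have hE1 : 2 * A < 2 ^ E₁ := he₀'
  have hE1' : (2 : ℝ) ^ E₁ ≤ 4 * A := by
    rw [hE₁, pow_succ]
    linarith
  have hs4 : 2 ≤ s := by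
    by_contra hlt
    have h1 : (2 : ℝ) ^ s ≤ 2 ^ 1 := pow_le_pow_right₀ (by norm_num) (by omega)
    have h2 : T ≤ T ^ 6 := by
      calc T = T ^ 1 := (pow_one T).symm
        _ ≤ T ^ 6 := pow_le_pow_right₀ hT1 (by norm_num)
    linarith
  have hAP : 2 * A ≤ P := by
    refine le_trans ?_ hlenP
    refine mul_le_mul_of_nonneg_right ?_ hA0.le
    calc (2 : ℝ) ≤ T ^ 1 := by rw [pow_one]; linarith
      _ ≤ T ^ 7 := pow_le_pow_right₀ hT1 (by norm_num)
  have hE1T : (E₁ : ℝ) + 1 ≤ T := by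
    have h1 : Real.log ((2 : ℝ) ^ E₁) ≤ Real.log (4 * P) :=
      Real.log_le_log (by positivity) (by linarith)
    rw [Real.log_pow, Real.log_mul (by norm_num) hPpos.ne'] at h1
    have h2 : Real.log 4 = 2 * Real.log 2 := by
      rw [show (4 : ℝ) = 2 ^ 2 by norm_num, Real.log_pow]
      norm_num
    have h3 := Real.log_two_gt_d9
    have h4 := Real.log_two_lt_d9
    have h5 : (0 : ℝ) ≤ E₁ := Nat.cast_nonneg _
    nlinarith
  -- the elements of the first net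
  have hm_le : ∀ m ∈ Net s E₁, (m : ℝ) ≤ (P : ℝ) ^ (α + η / 4) := by
    intro m hm
    refine (BadV.mem_Net_lt hm).trans (le_trans ?_ hlen)
    have h1 : (2 : ℝ) ^ (s + 1) ≤ 4 * T ^ 6 := by
      rw [pow_succ]
      linarith
    calc (2 : ℝ) ^ (s + 1) * 2 ^ E₁ ≤ (4 * T ^ 6) * (4 * A) :=
          mul_le_mul h1 hE1' (by positivity) (by positivity)
      _ = (16 * T ^ 6) * A := by ring
      _ ≤ (T * T ^ 6) * A := by
          refine mul_le_mul_of_nonneg_right ?_ hA0.le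
          refine mul_le_mul_of_nonneg_right ?_ (by positivity)
          linarith
      _ = T ^ 7 * A := by ring
  set B : Finset ℕ := ((Net s E₁).filter (fun m => 1 ≤ m)).biUnion fun m =>
    ((Net s E₂).filter (fun N => P ^ C ≤ N)).biUnion fun N =>
      (PP P).filter (fun p => (P : ℝ) ^ (-(η / 4 / 20)) * m * N < |Uk (fm p) m N - c2 * m * N|)
    with hB
  refine ⟨B, ?_, ?_⟩
  · have hnet_card : ∀ E : ℕ, ∀ y : ℝ, (E : ℝ) + 1 ≤ y → ∀ q : ℕ → Prop, ∀ _ : DecidablePred q,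
        (((Net s E).filter q).card : ℝ) ≤ 4 * T ^ 6 * y := by
      intro E y hy q _
      have e1 : (((Net s E).filter q).card : ℝ) ≤ 2 ^ (s + 1) * ((E : ℝ) + 1) := by
        have := (Finset.card_filter_le (Net s E) q).trans (card_Net_le s E)
        exact_mod_cast this
      refine e1.trans ?_
      have e2 : (2 : ℝ) ^ (s + 1) ≤ 4 * T ^ 6 := by
        rw [pow_succ]
        linarith
      exact mul_le_mul e2 hy (by positivity) (by positivity)
    have c1 : ∀ m ∈ (Net s E₁).filter (fun m => 1 ≤ m),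
        ∀ N ∈ (Net s E₂).filter (fun N => P ^ C ≤ N),
        (((PP P).filter (fun p => (P : ℝ) ^ (-(η / 4 / 20)) * m * N <
          |Uk (fm p) m N - c2 * m * N|)).card : ℝ) ≤ K := by
      intro m hm N hN
      rw [mem_filter] at hm hN
      exact hC P hP2 m hm.2 (hm_le m hm.1) N hN.2
    have c2' : ∀ m ∈ (Net s E₁).filter (fun m => 1 ≤ m),
        ((((Net s E₂).filter (fun N => P ^ C ≤ N)).biUnion fun N =>
          (PP P).filter (fun p => (P : ℝ) ^ (-(η / 4 / 20)) * m * N <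
            |Uk (fm p) m N - c2 * m * N|)).card : ℝ) ≤ (4 * T ^ 6 * (13 * T)) * K := by
      intro m hm
      refine (BadV.card_bU (c1 m hm)).trans ?_
      refine mul_le_mul_of_nonneg_right ?_ hK0
      exact hnet_card E₂ (13 * T) (by linarith) _ _
    have c3 : (B.card : ℝ) ≤ (4 * T ^ 6 * T) * ((4 * T ^ 6 * (13 * T)) * K) := by
      refine (BadV.card_bU c2').trans ?_
      refine mul_le_mul_of_nonneg_right ?_ (by positivity)
      exact hnet_card E₁ T hE1T _ _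
    refine c3.trans ?_
    have c4 : (4 * T ^ 6 * T) * ((4 * T ^ 6 * (13 * T)) * K) = 208 * (T ^ 14 * K) := by
      ring
    rw [c4, le_div_iff₀ (by norm_num)]
    have c5 : 0 ≤ T ^ 14 * K := by positivity
    calc 208 * (T ^ 14 * K) * 2 = 416 * (T ^ 14 * K) := by ring
      _ ≤ T * (T ^ 14 * K) := mul_le_mul_of_nonneg_right (by linarith) c5
      _ = T ^ 15 * K := by ring
      _ ≤ (P : ℝ) ^ (α + η) := hcnt
  · intro p hp hpB m hm1 hmA N hN1 hN2
    have hnet : ∀ m ∈ Net s E₁, 1 ≤ m → ∀ N ∈ Net s E₂, P ^ C ≤ N →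
        |Uk (fm p) m N - c2 * m * N| ≤ (1 / T ^ 3) * m * N := by
      intro m hm h1m N hN hN0
      have h1 : |Uk (fm p) m N - c2 * m * N| ≤ (P : ℝ) ^ (-(η / 4 / 20)) * m * N := by
        by_contra hlt
        push Not at hlt
        apply hpB
        rw [hB]
        simp only [mem_biUnion]
        exact ⟨m, mem_filter.2 ⟨hm, h1m⟩, N, mem_filter.2 ⟨hN, hN0⟩, mem_filter.2 ⟨hp, hlt⟩⟩
      refine h1.trans ?_
      have h2 : (0 : ℝ) ≤ (m : ℝ) * N := by positivity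
      calc (P : ℝ) ^ (-(η / 4 / 20)) * m * N = (P : ℝ) ^ (-(η / 4 / 20)) * ((m : ℝ) * N) := by ring
        _ ≤ (1 / T ^ 3) * ((m : ℝ) * N) := mul_le_mul_of_nonneg_right hneg3 h2
        _ = 1 / T ^ 3 * m * N := by ring
    have hN1' : P ^ (C + 1) ≤ N := by exact_mod_cast hN1
    have hN8' : 2 * P ^ C ≤ N := by
      refine le_trans ?_ hN1'
      rw [pow_succ, mul_comm]
      exact Nat.mul_le_mul_left _ (by omega)
    have hPN : P ≤ N := by
      refine le_trans ?_ hN1'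
      calc P = P ^ 1 := (pow_one P).symm
        _ ≤ P ^ (C + 1) := Nat.pow_le_pow_right (by omega) (by omega)
    have hE2N : 4 * N < 2 ^ (s + E₂) := by
      have h1 : (4 * N : ℝ) < 2 ^ E₂ := by linarith
      have h2 : (2 : ℝ) ^ E₂ ≤ 2 ^ (s + E₂) := pow_le_pow_right₀ (by norm_num) (by omega)
      exact_mod_cast h1.trans_le h2
    have hmE : m < 2 ^ E₁ := by exact_mod_cast hmA.trans_lt hE1
    have hmN : m ≤ N := by
      have h1 : (m : ℝ) ≤ P := hmA.trans hAP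
      have h2 : m ≤ P := by exact_mod_cast h1
      exact h2.trans hPN
    have hT3 : (1 : ℝ) ≤ T ^ 3 := hTpow 3
    have h := Uk_all (f := fm p) (s := s) (E₁ := E₁) (E₂ := E₂) (N₀ := P ^ C) (lam := 1 / T ^ 3)
      hs4 (by positivity) (by rw [div_le_one (by positivity)]; exact hT3) hnet m hm1 hmE N hN8'
      hE2N hmN
    refine h.trans ?_
    have h5 : Real.sqrt (1 / 2 ^ s) ≤ 1 / T ^ 3 := by
      rw [Real.sqrt_le_left (by positivity), div_pow, one_pow]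
      refine one_div_le_one_div_of_le (by positivity) ?_
      calc (T ^ 3) ^ 2 = T ^ 6 := by ring
        _ ≤ 2 ^ s := hs1
    have h6 : 2 * (1 / T ^ 3) + 50 * Real.sqrt (1 / 2 ^ s) ≤ 1 / T ^ 2 := by
      have e1 : 2 * (1 / T ^ 3) + 50 * (1 / T ^ 3) = 52 / T ^ 3 := by ring
      have e2 : 52 / T ^ 3 ≤ 1 / T ^ 2 := by
        rw [div_le_div_iff₀ (by positivity) (by positivity), one_mul]
        calc 52 * T ^ 2 ≤ T * T ^ 2 := by
              refine mul_le_mul_of_nonneg_right ?_ (by positivity)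
              linarith
          _ = T ^ 3 := by ring
      linarith
    have h7 : (0 : ℝ) ≤ (m : ℝ) * N := by positivity
    calc (2 * (1 / T ^ 3) + 50 * Real.sqrt (1 / 2 ^ s)) * m * N
        = (2 * (1 / T ^ 3) + 50 * Real.sqrt (1 / 2 ^ s)) * ((m : ℝ) * N) := by ring
      _ ≤ (1 / T ^ 2) * ((m : ℝ) * N) := mul_le_mul_of_nonneg_right h6 h7
      _ = 1 / T ^ 2 * m * N := by ring

end Pool.Agent.P4f18dfW
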