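import Pool.Agent.Lib.P4f18dfW.SmallQ
import Pool.Agent.Lib.P4f18dfQ.BadV

/-!
# The exceptional primes for all lengths and scales, small scales

Module W.NetQ, from `small_quarter`: for each `t` (`2^t ≤ N < 2^(t+1)`) nets `Net s E₁` for the lengths,
`2^(E₁ - 1) ≤ 2 (2^(t+1))^(1-ε) < 2^E₁`, `Net s (t + 3 - s)` for the scales, `2^s ≈ P^(6c)`, `N₀ = 2^(t-1)`.
-/

set_option autoImplicit false

namespace Pool.Agent.P4f18dfW

open Finset Pool.Agent.P4f18dfQ Pool.Agent.P4f18df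

namespace NetQAux

/-- the length of the net for the scale `2^t` -/
theorem exists_E1 (δ : ℝ) (hδ : 0 ≤ δ) :
    ∃ E : ℕ → ℕ, ∀ t : ℕ, 2 * ((2 : ℝ) ^ (t + 1)) ^ δ < 2 ^ E t ∧
      (2 : ℝ) ^ E t ≤ 4 * ((2 : ℝ) ^ (t + 1)) ^ δ := by
  have h1 : ∀ t : ℕ, ∃ E : ℕ, 2 * ((2 : ℝ) ^ (t + 1)) ^ δ < 2 ^ E ∧
      (2 : ℝ) ^ E ≤ 4 * ((2 : ℝ) ^ (t + 1)) ^ δ := by
    intro t
    have h2 : (1 : ℝ) ≤ ((2 : ℝ) ^ (t + 1)) ^ δ := Real.one_le_rpow (one_le_pow₀ (by norm_num)) hδ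
    obtain ⟨e₀, he₀, he₀'⟩ := exists_nat_pow_near
      (show (1 : ℝ) ≤ 2 * ((2 : ℝ) ^ (t + 1)) ^ δ by linarith) (by norm_num : (1 : ℝ) < 2)
    refine ⟨e₀ + 1, he₀', ?_⟩
    rw [pow_succ]
    linarith
  choose E hE using h1
  exact ⟨E, hE⟩

end NetQAux

theorem bad_quarter (ε : ℝ) (hε : 0 < ε) (hε1 : ε < 1 / 4) : ∃ c₁ : ℝ, 0 < c₁ ∧
    ∀ c : ℝ, 0 < c → c ≤ c₁ → ∃ P₀ : ℕ, ∀ P : ℕ, P₀ ≤ P →
      ∃ B : Finset ℕ, (B.card : ℝ) ≤ (P : ℝ) ^ (1 - c) / 2 ∧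
        ∀ p ∈ PP P, p ∉ B → ∀ m N : ℕ, 1 ≤ m → (m : ℝ) ≤ (N : ℝ) ^ (1 - ε) → (P : ℝ) ^ ε ≤ N →
          (N : ℝ) ≤ (P : ℝ) ^ (1 / 4 - ε) →
            |Uk (fm p) m N - c2 * m * N| ≤ (P : ℝ) ^ (-(2 * c)) * m * N := by
  classical
  obtain ⟨c₀, hc₀, Q₁, hone⟩ := small_quarter (ε / 2) (by linarith) (by linarith)
  refine ⟨min (c₀ / 20) (ε ^ 2 / 20), by positivity, ?_⟩
  intro c hc hc1
  have hcc : c ≤ c₀ / 20 := hc1.trans (min_le_left _ _)
  have hce : c ≤ ε ^ 2 / 20 := hc1.trans (min_le_right _ _)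
  have hce' : c ≤ ε / 20 := by nlinarith
  have hlim : ∀ᶠ P : ℕ in Filter.atTop, (1000 : ℝ) ≤ (P : ℝ) ^ c :=
    ((tendsto_rpow_atTop hc).comp tendsto_natCast_atTop_atTop).eventually_ge_atTop _
  have hlog : ∀ᶠ P : ℕ in Filter.atTop, Real.log P ≤ (1 / 10) * (P : ℝ) ^ c := by
    have h1 := (isLittleO_log_rpow_atTop hc).bound (show (0 : ℝ) < 1 / 10 by norm_num)
    have h2 := (tendsto_natCast_atTop_atTop (R := ℝ)).eventually h1
    filter_upwards [h2] with P hP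
    rw [Real.norm_eq_abs, Real.norm_eq_abs,
      abs_of_nonneg (Real.rpow_nonneg (Nat.cast_nonneg P) c)] at hP
    exact (le_abs_self _).trans hP
  obtain ⟨P₀, hP₀⟩ := Filter.eventually_atTop.1 (hlim.and hlog)
  refine ⟨max P₀ (max Q₁ 3), fun P hP => ?_⟩
  have hP1 : P₀ ≤ P := (le_max_left _ _).trans hP
  have hP2 : Q₁ ≤ P := (le_max_left _ _).trans ((le_max_right _ _).trans hP)
  have hP3 : 3 ≤ P := (le_max_right _ _).trans ((le_max_right _ _).trans hP)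
  have hP3r : (3 : ℝ) ≤ P := by exact_mod_cast hP3
  have hPr : (1 : ℝ) ≤ P := by linarith
  have hPpos : (0 : ℝ) < P := by linarith
  obtain ⟨hTM, hTlog⟩ := hP₀ P hP1
  -- powers of `P`
  have hPneg : (P : ℝ) ^ (-(2 * c)) = 1 / ((P : ℝ) ^ c) ^ 2 := by
    rw [Real.rpow_neg hPpos.le, one_div, ← Real.rpow_natCast, ← Real.rpow_mul hPpos.le]
    congr 2
    push_cast
    ring
  have hneg3 : (P : ℝ) ^ (-c₀) ≤ 1 / ((P : ℝ) ^ c) ^ 3 := by
    have e1 : 1 / ((P : ℝ) ^ c) ^ 3 = (P : ℝ) ^ (-(3 * c)) := by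
      rw [Real.rpow_neg hPpos.le, one_div, ← Real.rpow_natCast, ← Real.rpow_mul hPpos.le]
      congr 2
      push_cast
      ring
    rw [e1]
    exact Real.rpow_le_rpow_of_exponent_le hPr (by linarith)
  have hlen2 : ((P : ℝ) ^ c) ^ 7 ≤ ((P : ℝ) ^ ε) ^ (ε / 2) := by
    rw [← Real.rpow_natCast, ← Real.rpow_mul hPpos.le, ← Real.rpow_mul hPpos.le]
    refine Real.rpow_le_rpow_of_exponent_le hPr ?_
    push_cast
    nlinarith
  have hlen3 : ((P : ℝ) ^ c) ^ 7 ≤ (P : ℝ) ^ ε := by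
    rw [← Real.rpow_natCast, ← Real.rpow_mul hPpos.le]
    refine Real.rpow_le_rpow_of_exponent_le hPr ?_
    push_cast
    linarith
  have hcnt : ((P : ℝ) ^ c) ^ 16 * (P : ℝ) ^ (1 - c₀) ≤ (P : ℝ) ^ (1 - c) := by
    rw [← Real.rpow_natCast, ← Real.rpow_mul hPpos.le, ← Real.rpow_add hPpos]
    refine Real.rpow_le_rpow_of_exponent_le hPr ?_
    push_cast
    linarith
  have hqe : (P : ℝ) ^ (ε / 2) * (P : ℝ) ^ c ≤ (P : ℝ) ^ ε := by
    rw [← Real.rpow_add hPpos]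
    exact Real.rpow_le_rpow_of_exponent_le hPr (by linarith)
  have hqq : (P : ℝ) ^ (1 / 4 - ε) * (P : ℝ) ^ c ≤ (P : ℝ) ^ (1 / 4 - ε / 2) := by
    rw [← Real.rpow_add hPpos]
    exact Real.rpow_le_rpow_of_exponent_le hPr (by linarith)
  have hqP : (P : ℝ) ^ (1 / 4 - ε) ≤ P := by
    calc (P : ℝ) ^ (1 / 4 - ε) ≤ (P : ℝ) ^ (1 : ℝ) :=
          Real.rpow_le_rpow_of_exponent_le hPr (by linarith)
      _ = P := Real.rpow_one _
  have hK0 : 0 ≤ (P : ℝ) ^ (1 - c₀) := Real.rpow_nonneg hPpos.le _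
  have hG1 : 1 ≤ (P : ℝ) ^ (ε / 2) := Real.one_le_rpow hPr (by linarith)
  have hZ0 : 0 < (P : ℝ) ^ (1 / 4 - ε) := Real.rpow_pos_of_pos hPpos _
  rw [hPneg]
  set T : ℝ := (P : ℝ) ^ c with hT
  set Z : ℝ := (P : ℝ) ^ (1 / 4 - ε) with hZ
  set K : ℝ := (P : ℝ) ^ (1 - c₀) with hK
  set G : ℝ := (P : ℝ) ^ (ε / 2) with hG
  have hT100 : 1000 ≤ T := hTM
  have hT1 : 1 ≤ T := by linarith
  have hT0 : 0 < T := by linarith
  have hTpow : ∀ j : ℕ, 1 ≤ T ^ j := fun j => one_le_pow₀ hT1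
  obtain ⟨s₀, hs₀, hs₀'⟩ := exists_nat_pow_near (hTpow 6) (by norm_num : (1 : ℝ) < 2)
  obtain ⟨E₁, hE1⟩ := NetQAux.exists_E1 (1 - ε) (by linarith)
  set s : ℕ := s₀ + 1 with hs
  have hs1 : T ^ 6 ≤ 2 ^ s := hs₀'.le
  have hs2 : (2 : ℝ) ^ s ≤ 2 * T ^ 6 := by
    rw [hs, pow_succ]
    linarith
  have hs3 : (2 : ℝ) ^ (s + 1) ≤ 4 * T ^ 6 := by
    rw [pow_succ]
    linarith
  have hs4 : 2 ≤ s := by
    by_contra hlt
    have h1 : (2 : ℝ) ^ s ≤ 2 ^ 1 := pow_le_pow_right₀ (by norm_num) (by omega)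
    have h2 : T ≤ T ^ 6 := by
      calc T = T ^ 1 := (pow_one T).symm
        _ ≤ T ^ 6 := pow_le_pow_right₀ hT1 (by norm_num)
    linarith
  -- the range of `t`
  have ht_le : ∀ t : ℕ, (2 : ℝ) ^ t ≤ Z → (t : ℝ) + 5 ≤ T := by
    intro t ht
    have h1 : Real.log ((2 : ℝ) ^ t) ≤ Real.log P :=
      Real.log_le_log (by positivity) (ht.trans hqP)
    rw [Real.log_pow] at h1
    have h3 := Real.log_two_gt_d9
    have h5 : (0 : ℝ) ≤ t := Nat.cast_nonneg _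
    nlinarith
  have hst : ∀ t : ℕ, (P : ℝ) ^ ε ≤ 2 ^ (t + 1) → s ≤ t + 3 := by
    intro t ht
    have h1 : (2 : ℝ) ^ s ≤ 2 ^ (t + 1) := by
      calc (2 : ℝ) ^ s ≤ 2 * T ^ 6 := hs2
        _ ≤ T * T ^ 6 := mul_le_mul_of_nonneg_right (by linarith) (by positivity)
        _ = T ^ 7 := by ring
        _ ≤ (P : ℝ) ^ ε := hlen3
        _ ≤ 2 ^ (t + 1) := ht
    have h2 : s ≤ t + 1 := (pow_le_pow_iff_right₀ (by norm_num : (1 : ℝ) < 2)).1 h1
    omega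
  have hE1T : ∀ t, (2 : ℝ) ^ t ≤ Z → (E₁ t : ℝ) + 1 ≤ T := by
    intro t ht
    have h0 : (2 : ℝ) ^ E₁ t ≤ 2 ^ (t + 3) := by
      refine (hE1 t).2.trans ?_
      have h1 : ((2 : ℝ) ^ (t + 1)) ^ (1 - ε) ≤ ((2 : ℝ) ^ (t + 1)) ^ (1 : ℝ) :=
        Real.rpow_le_rpow_of_exponent_le (one_le_pow₀ (by norm_num)) (by linarith)
      rw [Real.rpow_one] at h1
      calc 4 * ((2 : ℝ) ^ (t + 1)) ^ (1 - ε) ≤ 4 * 2 ^ (t + 1) := by linarith
        _ = 2 ^ (t + 3) := by rw [show t + 3 = t + 1 + 2 by ring, pow_add _ (t + 1) 2]; ring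
    have h1 : E₁ t ≤ t + 3 := (pow_le_pow_iff_right₀ (by norm_num : (1 : ℝ) < 2)).1 h0
    have h2 : (E₁ t : ℝ) ≤ t + 3 := by exact_mod_cast h1
    have h3 := ht_le t ht
    linarith
  -- the hypotheses of `small_quarter`
  have hm_le : ∀ t : ℕ, (P : ℝ) ^ ε ≤ 2 ^ (t + 1) → (2 : ℝ) ^ t ≤ Z → ∀ m ∈ Net s (E₁ t), ∀ N : ℕ,
      N ∈ Net s (t + 3 - s) → 2 ^ (t - 1) ≤ N → (m : ℝ) ≤ (N : ℝ) ^ (1 - ε / 2) ∧
        G ≤ N ∧ (N : ℝ) ≤ (P : ℝ) ^ (1 / 4 - ε / 2) := by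
    intro t ht htZ m hm N hNnet hN
    set Y : ℝ := (2 : ℝ) ^ (t + 1) with hY
    have hY1 : 1 ≤ Y := one_le_pow₀ (by norm_num)
    have hY0 : 0 < Y := by linarith
    have hNY : Y / 4 ≤ N := by
      have h1 : (2 : ℝ) ^ (t - 1) ≤ N := by exact_mod_cast hN
      have h2 : Y ≤ 4 * 2 ^ (t - 1) := by
        rw [hY]
        calc (2 : ℝ) ^ (t + 1) ≤ 2 ^ ((t - 1) + 2) := pow_le_pow_right₀ (by norm_num) (by omega)
          _ = 4 * 2 ^ (t - 1) := by rw [pow_add]; ring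
      linarith
    have h0 := BadV.mem_Net_lt hm
    have h1 : (m : ℝ) ≤ (4 * T ^ 6) * (4 * Y ^ (1 - ε)) :=
      h0.trans (mul_le_mul hs3 (hE1 t).2 (by positivity) (by positivity))
    have hTT : 64 * T ^ 6 ≤ T ^ 7 := by
      calc 64 * T ^ 6 ≤ T * T ^ 6 := mul_le_mul_of_nonneg_right (by linarith) (by positivity)
        _ = T ^ 7 := by ring
    refine ⟨?_, ?_, ?_⟩
    · have h2 : (m : ℝ) ≤ (16 * T ^ 6) * Y ^ (1 - ε) := by
        refine h1.trans (le_of_eq ?_)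
        ring
      have h3 : 64 * T ^ 6 ≤ Y ^ (ε / 2) := by
        refine hTT.trans (hlen2.trans ?_)
        exact Real.rpow_le_rpow (Real.rpow_nonneg hPpos.le _) ht (by linarith)
      have h4 : Y ^ (1 - ε / 2) = Y ^ (ε / 2) * Y ^ (1 - ε) := by
        rw [← Real.rpow_add hY0]
        congr 1
        ring
      have h5 : Y ^ (1 - ε / 2) / 4 ≤ (Y / 4) ^ (1 - ε / 2) := by
        rw [Real.div_rpow hY0.le (by norm_num)]
        apply div_le_div_of_nonneg_left (Real.rpow_nonneg hY0.le _) (by positivity)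
        calc (4 : ℝ) ^ (1 - ε / 2) ≤ (4 : ℝ) ^ (1 : ℝ) :=
              Real.rpow_le_rpow_of_exponent_le (by norm_num) (by linarith)
          _ = 4 := Real.rpow_one _
      have h6 : (Y / 4) ^ (1 - ε / 2) ≤ (N : ℝ) ^ (1 - ε / 2) :=
        Real.rpow_le_rpow (by positivity) hNY (by linarith)
      have h7 : (64 * T ^ 6) * Y ^ (1 - ε) ≤ Y ^ (ε / 2) * Y ^ (1 - ε) :=
        mul_le_mul_of_nonneg_right h3 (Real.rpow_nonneg hY0.le _)
      linarith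
    · have h2 : G * 4 ≤ G * T := mul_le_mul_of_nonneg_left (by linarith) (by linarith)
      linarith
    · have h2 := BadV.mem_Net_lt hNnet
      have h3 : (2 : ℝ) ^ (s + 1) * 2 ^ (t + 3 - s) = 16 * 2 ^ t := by
        rw [← pow_add]
        have h4 := hst t ht
        have h5 : s + 1 + (t + 3 - s) = t + 4 := by omega
        rw [h5, pow_add]
        ring
      rw [h3] at h2
      refine h2.trans (le_trans ?_ hqq)
      calc 16 * (2 : ℝ) ^ t ≤ 16 * Z := by linarith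
        _ ≤ T * Z := mul_le_mul_of_nonneg_right (by linarith) hZ0.le
        _ = Z * T := mul_comm _ _
  obtain ⟨E, hE⟩ : ∃ E : ℕ, E = ⌊T⌋₊ := ⟨_, rfl⟩
  have hET : (E : ℝ) ≤ T := by rw [hE]; exact Nat.floor_le hT0.le
  have hEt : ∀ t : ℕ, (2 : ℝ) ^ t ≤ Z → t < E := by
    intro t ht
    have h1 := ht_le t ht
    have h2 : T < (E : ℝ) + 1 := by rw [hE]; exact Nat.lt_floor_add_one T
    have h3 : (t : ℝ) < E := by linarith
    exact_mod_cast h3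
  set B : Finset ℕ :=
    ((range E).filter (fun t => (P : ℝ) ^ ε ≤ 2 ^ (t + 1) ∧ (2 : ℝ) ^ t ≤ Z)).biUnion fun t =>
    ((Net s (E₁ t)).filter (fun m => 1 ≤ m)).biUnion fun m =>
    ((Net s (t + 3 - s)).filter (fun N => 2 ^ (t - 1) ≤ N)).biUnion fun N =>
      (PP P).filter (fun p => (P : ℝ) ^ (-c₀) * m * N < |Uk (fm p) m N - c2 * m * N|)
    with hB
  refine ⟨B, ?_, ?_⟩
  · have hnet_card : ∀ E : ℕ, ∀ y : ℝ, (E : ℝ) + 1 ≤ y → ∀ r : ℕ → Prop, ∀ _ : DecidablePred r,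
        (((Net s E).filter r).card : ℝ) ≤ 4 * T ^ 6 * y := by
      intro E y hy r _
      have e1 : (((Net s E).filter r).card : ℝ) ≤ 2 ^ (s + 1) * ((E : ℝ) + 1) := by
        have := (Finset.card_filter_le (Net s E) r).trans (card_Net_le s E)
        exact_mod_cast this
      refine e1.trans ?_
      exact mul_le_mul hs3 hy (by positivity) (by positivity)
    have c1 : ∀ t ∈ (range E).filter (fun t => (P : ℝ) ^ ε ≤ 2 ^ (t + 1) ∧ (2 : ℝ) ^ t ≤ Z),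
        ∀ m ∈ (Net s (E₁ t)).filter (fun m => 1 ≤ m),
        ∀ N ∈ (Net s (t + 3 - s)).filter (fun N => 2 ^ (t - 1) ≤ N),
        (((PP P).filter (fun p =>
          (P : ℝ) ^ (-c₀) * m * N < |Uk (fm p) m N - c2 * m * N|)).card : ℝ) ≤ K := by
      intro t ht m hm N hN
      rw [mem_filter] at ht hm hN
      obtain ⟨a1, a2, a3⟩ := hm_le t ht.2.1 ht.2.2 m hm.1 N hN.1 hN.2
      exact hone P hP2 m N hm.2 a1 a2 a3
    have c2' : ∀ t ∈ (range E).filter (fun t => (P : ℝ) ^ ε ≤ 2 ^ (t + 1) ∧ (2 : ℝ) ^ t ≤ Z),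
        ∀ m ∈ (Net s (E₁ t)).filter (fun m => 1 ≤ m),
        ((((Net s (t + 3 - s)).filter (fun N => 2 ^ (t - 1) ≤ N)).biUnion fun N =>
          (PP P).filter (fun p =>
          (P : ℝ) ^ (-c₀) * m * N < |Uk (fm p) m N - c2 * m * N|)).card : ℝ) ≤
          (4 * T ^ 6 * T) * K := by
      intro t ht m hm
      refine (BadV.card_bU (c1 t ht m hm)).trans ?_
      refine mul_le_mul_of_nonneg_right ?_ hK0
      refine hnet_card (t + 3 - s) T ?_ _ _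
      rw [mem_filter] at ht
      have h1 := ht_le t ht.2.2
      have h2 : ((t + 3 - s : ℕ) : ℝ) ≤ t + 3 := by
        have : t + 3 - s ≤ t + 3 := Nat.sub_le _ _
        exact_mod_cast this
      linarith
    have c3 : ∀ t ∈ (range E).filter (fun t => (P : ℝ) ^ ε ≤ 2 ^ (t + 1) ∧ (2 : ℝ) ^ t ≤ Z),
        ((((Net s (E₁ t)).filter (fun m => 1 ≤ m)).biUnion fun m =>
        ((Net s (t + 3 - s)).filter (fun N => 2 ^ (t - 1) ≤ N)).biUnion fun N =>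
          (PP P).filter (fun p =>
          (P : ℝ) ^ (-c₀) * m * N < |Uk (fm p) m N - c2 * m * N|)).card : ℝ) ≤
          (4 * T ^ 6 * T) * ((4 * T ^ 6 * T) * K) := by
      intro t ht
      refine (BadV.card_bU (c2' t ht)).trans ?_
      refine mul_le_mul_of_nonneg_right ?_ (by positivity)
      rw [mem_filter] at ht
      exact hnet_card (E₁ t) T (hE1T t ht.2.2) _ _
    have c4 : (B.card : ℝ) ≤ T * ((4 * T ^ 6 * T) * ((4 * T ^ 6 * T) * K)) := by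
      refine (BadV.card_bU c3).trans ?_
      refine mul_le_mul_of_nonneg_right ?_ (by positivity)
      have h1 : ((((range E).filter (fun t => (P : ℝ) ^ ε ≤ 2 ^ (t + 1) ∧
          (2 : ℝ) ^ t ≤ Z)).card : ℕ) : ℝ) ≤ E := by
        have := Finset.card_filter_le (range E) (fun t => (P : ℝ) ^ ε ≤ 2 ^ (t + 1) ∧
          (2 : ℝ) ^ t ≤ Z)
        rw [card_range] at this
        exact_mod_cast this
      linarith
    refine c4.trans ?_
    have c5 : T * ((4 * T ^ 6 * T) * ((4 * T ^ 6 * T) * K)) = 16 * (T ^ 15 * K) := by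
      ring
    rw [c5, le_div_iff₀ (by norm_num)]
    have c6 : 0 ≤ T ^ 15 * K := by positivity
    calc 16 * (T ^ 15 * K) * 2 = 32 * (T ^ 15 * K) := by ring
      _ ≤ T * (T ^ 15 * K) := mul_le_mul_of_nonneg_right (by linarith) c6
      _ = T ^ 16 * K := by ring
      _ ≤ (P : ℝ) ^ (1 - c) := hcnt
  · intro p hp hpB m N hm1 hmN0 hN1 hN2
    have hN0 : N ≠ 0 := by
      rintro rfl
      have h1 : (1 : ℝ) ≤ (P : ℝ) ^ ε := Real.one_le_rpow hPr hε.le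
      rw [Nat.cast_zero] at hN1
      linarith
    set t : ℕ := Nat.log 2 N with ht
    have ht1 : 2 ^ t ≤ N := Nat.pow_log_le_self 2 hN0
    have ht2 : N < 2 ^ (t + 1) := Nat.lt_pow_succ_log_self (by norm_num) N
    have ht1r : (2 : ℝ) ^ t ≤ N := by exact_mod_cast ht1
    have ht2r : (N : ℝ) < 2 ^ (t + 1) := by exact_mod_cast ht2
    have htZ : (2 : ℝ) ^ t ≤ Z := ht1r.trans hN2
    have htE : t < E := hEt t htZ
    have htP : (P : ℝ) ^ ε ≤ 2 ^ (t + 1) := hN1.trans ht2r.le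
    have ht0 : 1 ≤ t := by
      by_contra hlt
      have h0 : t = 0 := by omega
      rw [h0] at htP
      have h1 : (1000 : ℝ) ≤ (P : ℝ) ^ ε := by
        have h3 : 1 * T ≤ G * T := mul_le_mul_of_nonneg_right hG1 hT0.le
        linarith
      norm_num at htP
      linarith
    have hnet : ∀ m ∈ Net s (E₁ t), 1 ≤ m → ∀ N ∈ Net s (t + 3 - s), 2 ^ (t - 1) ≤ N →
        |Uk (fm p) m N - c2 * m * N| ≤ (1 / T ^ 3) * m * N := by
      intro m hm h1m N hN hN0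
      have h1 : |Uk (fm p) m N - c2 * m * N| ≤ (P : ℝ) ^ (-c₀) * m * N := by
        by_contra hlt
        push Not at hlt
        apply hpB
        rw [hB]
        simp only [mem_biUnion]
        exact ⟨t, mem_filter.2 ⟨mem_range.2 htE, htP, htZ⟩, m, mem_filter.2 ⟨hm, h1m⟩, N,
          mem_filter.2 ⟨hN, hN0⟩, mem_filter.2 ⟨hp, hlt⟩⟩
      refine h1.trans ?_
      have h2 : (0 : ℝ) ≤ (m : ℝ) * N := by positivity
      calc (P : ℝ) ^ (-c₀) * m * N = (P : ℝ) ^ (-c₀) * ((m : ℝ) * N) := by ring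
        _ ≤ (1 / T ^ 3) * ((m : ℝ) * N) := mul_le_mul_of_nonneg_right hneg3 h2
        _ = 1 / T ^ 3 * m * N := by ring
    have hN8' : 2 * 2 ^ (t - 1) ≤ N := by
      refine le_trans (le_of_eq ?_) ht1
      rw [← pow_succ']
      congr 1
      omega
    have hE2N : 4 * N < 2 ^ (s + (t + 3 - s)) := by
      have h2 := hst t htP
      rw [show s + (t + 3 - s) = t + 3 by omega]
      have h3 : 2 ^ (t + 3) = 4 * 2 ^ (t + 1) := by rw [show t + 3 = t + 1 + 2 by ring, pow_add]; ring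
      omega
    have hNr0 : (0 : ℝ) < N := by exact_mod_cast Nat.pos_of_ne_zero hN0
    have hN1r : (1 : ℝ) ≤ N := by exact_mod_cast Nat.one_le_iff_ne_zero.2 hN0
    have hmE : m < 2 ^ (E₁ t) := by
      have h1 : (m : ℝ) ≤ ((2 : ℝ) ^ (t + 1)) ^ (1 - ε) := by
        refine hmN0.trans ?_
        exact Real.rpow_le_rpow hNr0.le ht2r.le (by linarith)
      have h2 : (m : ℝ) < 2 ^ (E₁ t) := by
        have h3 := (hE1 t).1
        have h4 : (0 : ℝ) ≤ m := Nat.cast_nonneg _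
        linarith
      exact_mod_cast h2
    have hmN : m ≤ N := by
      have h1 : (N : ℝ) ^ (1 - ε) ≤ (N : ℝ) ^ (1 : ℝ) :=
        Real.rpow_le_rpow_of_exponent_le hN1r (by linarith)
      rw [Real.rpow_one] at h1
      exact_mod_cast hmN0.trans h1
    have hT3 : (1 : ℝ) ≤ T ^ 3 := hTpow 3
    have h := Uk_all (f := fm p)
      (s := s) (E₁ := E₁ t) (E₂ := t + 3 - s) (N₀ := 2 ^ (t - 1)) (lam := 1 / T ^ 3)
      hs4 (by positivity) (by rw [div_le_one (by positivity)]; exact hT3) hnet m hm1 hmE N hN8'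
      hE2N hmN
    refine h.trans ?_
    have h5 : Real.sqrt (1 / 2 ^ s) ≤ 1 / T ^ 3 := by
      rw [Real.sqrt_le_left (by positivity), div_pow, one_pow]
      refine one_div_le_one_div_of_le (by positivity) ?_
      calc (T ^ 3) ^ 2 = T ^ 6 := by ring
        _ ≤ 2 ^ s := hs1
    have h6 : 2 * (1 / T ^ 3) + 50 * Real.sqrt (1 / 2 ^ s) ≤ 1 / T ^ 2 := by
      have e1 : 2 * (1 / T ^ 3) + 50 * (1 / T ^ 3) = 52 / T ^ 3 := by ring
      have e2 : 52 / T ^ 3 ≤ 1 / T ^ 2 := by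
        rw [div_le_div_iff₀ (by positivity) (by positivity), one_mul]
        calc 52 * T ^ 2 ≤ T * T ^ 2 := by
              refine mul_le_mul_of_nonneg_right ?_ (by positivity)
              linarith
          _ = T ^ 3 := by ring
      linarith
    have h7 : (0 : ℝ) ≤ (m : ℝ) * N := by positivity
    calc (2 * (1 / T ^ 3) + 50 * Real.sqrt (1 / 2 ^ s)) * m * N
        = (2 * (1 / T ^ 3) + 50 * Real.sqrt (1 / 2 ^ s)) * ((m : ℝ) * N) := by ring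
      _ ≤ (1 / T ^ 2) * ((m : ℝ) * N) := mul_le_mul_of_nonneg_right h6 h7
      _ = 1 / T ^ 2 * m * N := by ring

end Pool.Agent.P4f18dfW
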