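import Pool.Agent.Lib.P4f18dfW.PVPrim
import Pool.Agent.Lib.P4f18df.TwJac
import Pool.Agent.Lib.KeZhao.Char
import Pool.Agent.Lib.KeZhao.Divisor

/-!
# The inequality of Polya and Vinogradov for Jacobi symbols
-/

set_option autoImplicit false

open Finset

namespace Pool.Agent.P4f18dfW

open Pool.Agent.P4f18df NumberTheorySymbols

open Classical in
/-- removing the multiples of finitely many primes -/
theorem sieve_bound {g : ℕ → ℂ} (hmul : ∀ a b, g (a * b) = g a * g b) (hg : ∀ a, ‖g a‖ ≤ 1)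
    {B : ℝ} (hB : ∀ D, ‖∑ k ∈ Finset.Icc 1 D, g k‖ ≤ B) (s : Finset ℕ) (hs : ∀ p ∈ s, p.Prime) :
    ∀ D, ‖∑ k ∈ (Finset.Icc 1 D).filter (fun k => ∀ p ∈ s, ¬ p ∣ k), g k‖ ≤ 2 ^ s.card * B := by
  have hB0 : 0 ≤ B := (norm_nonneg _).trans (hB 0)
  induction s using Finset.induction_on with
  | empty => intro D; simpa using hB D
  | insert p s hps ih =>
    intro D
    have hp : p.Prime := hs p (Finset.mem_insert_self p s)
    have hs' : ∀ q ∈ s, q.Prime := fun q hq => hs q (Finset.mem_insert_of_mem hq)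
    have ih' := ih hs'
    have h1 : ∑ k ∈ (Finset.Icc 1 D).filter (fun k => ∀ q ∈ insert p s, ¬ q ∣ k), g k =
        ∑ k ∈ (Finset.Icc 1 D).filter (fun k => ∀ q ∈ s, ¬ q ∣ k), g k -
        g p * ∑ k ∈ (Finset.Icc 1 (D / p)).filter (fun k => ∀ q ∈ s, ¬ q ∣ k), g k := by
      have h2 : ((Finset.Icc 1 D).filter (fun k => ∀ q ∈ s, ¬ q ∣ k)) =
          ((Finset.Icc 1 D).filter (fun k => ∀ q ∈ insert p s, ¬ q ∣ k)) ∪
          ((Finset.Icc 1 (D / p)).filter (fun k => ∀ q ∈ s, ¬ q ∣ k)).image (fun k => p * k) := by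
        ext k
        simp only [Finset.mem_filter, Finset.mem_union, Finset.mem_image, Finset.mem_Icc,
          Finset.mem_insert, forall_eq_or_imp]
        constructor
        · rintro ⟨⟨hk1, hk2⟩, hk3⟩
          by_cases hpk : p ∣ k
          · right
            obtain ⟨l, rfl⟩ := hpk
            refine ⟨l, ⟨⟨?_, ?_⟩, fun q hq hql => hk3 q hq (hql.mul_left p)⟩, rfl⟩
            · exact Nat.pos_of_ne_zero (by rintro rfl; simp at hk1)
            · rw [Nat.le_div_iff_mul_le hp.pos, mul_comm]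
              exact hk2
          · left
            exact ⟨⟨hk1, hk2⟩, hpk, hk3⟩
        · rintro (⟨h, -, h3⟩ | ⟨l, ⟨⟨hl1, hl2⟩, hl3⟩, rfl⟩)
          · exact ⟨h, h3⟩
          · rw [Nat.le_div_iff_mul_le hp.pos, mul_comm] at hl2
            refine ⟨⟨Nat.mul_pos hp.pos hl1, hl2⟩, fun q hq hqd => ?_⟩
            rcases (Nat.Prime.dvd_mul (hs' q hq)).1 hqd with h | h
            · have : q = p := (Nat.prime_dvd_prime_iff_eq (hs' q hq) hp).1 h
              exact hps (this ▸ hq)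
            · exact hl3 q hq h
      rw [h2, Finset.sum_union, Finset.sum_image, Finset.mul_sum]
      · simp_rw [hmul]
        ring
      · intro a _ b _ hab
        exact Nat.eq_of_mul_eq_mul_left hp.pos hab
      · rw [Finset.disjoint_left]
        intro k hk hk'
        rw [Finset.mem_filter] at hk
        obtain ⟨l, -, rfl⟩ := Finset.mem_image.1 hk'
        exact hk.2 p (Finset.mem_insert_self p s) (dvd_mul_right p l)
    rw [h1, Finset.card_insert_of_notMem hps, pow_succ]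
    refine (norm_sub_le _ _).trans ?_
    rw [norm_mul]
    have h3 := ih' D
    have h4 := ih' (D / p)
    have h5 : ‖g p‖ * ‖∑ k ∈ (Finset.Icc 1 (D / p)).filter (fun k => ∀ q ∈ s, ¬ q ∣ k), g k‖ ≤
        1 * (2 ^ s.card * B) := mul_le_mul (hg p) h4 (norm_nonneg _) zero_le_one
    linarith

/-- Polya-Vinogradov for all nonprincipal characters, with the loss of a power of two -/
theorem pv_char {m : ℕ} [NeZero m] {χ : DirichletCharacter ℂ m} (hχ : χ ≠ 1) (D : ℕ) :
    ‖∑ k ∈ Finset.Icc 1 D, χ (k : ZMod m)‖ ≤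
      2 ^ m.primeFactors.card * (Real.sqrt m * (1 + Real.log m)) := by
  classical
  have hm : 0 < m := Nat.pos_of_ne_zero (NeZero.ne m)
  have hf0 : χ.conductor ≠ 0 := DirichletCharacter.conductor_ne_zero χ
  haveI : NeZero χ.conductor := ⟨hf0⟩
  have hf1 : χ.conductor ≠ 1 := fun h => hχ (DirichletCharacter.eq_one_iff_conductor_eq_one.2 h)
  have hf2 : 2 ≤ χ.conductor := by omega
  have hfm : χ.conductor ≤ m := Nat.le_of_dvd hm χ.conductor_dvd_level
  have hf0' : (0 : ℝ) < χ.conductor := by exact_mod_cast Nat.pos_of_ne_zero hf0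
  have hfm' : (χ.conductor : ℝ) ≤ m := by exact_mod_cast hfm
  have hB : ∀ D : ℕ, ‖∑ k ∈ Finset.Icc 1 D, χ.primitiveCharacter (k : ZMod χ.conductor)‖ ≤
      Real.sqrt m * (1 + Real.log m) := by
    intro D
    refine (pv_prim hf2 χ.primitiveCharacter_isPrimitive D).trans ?_
    refine mul_le_mul (Real.sqrt_le_sqrt hfm') ?_ ?_ (Real.sqrt_nonneg _)
    · have := Real.log_le_log hf0' hfm'
      linarith
    · have : 0 ≤ Real.log χ.conductor := Real.log_nonneg (by exact_mod_cast (by omega : 1 ≤ χ.conductor))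
      linarith
  have h1 := sieve_bound (g := fun k => χ.primitiveCharacter (k : ZMod χ.conductor))
    (fun a b => by push_cast; rw [map_mul]) (fun a => DirichletCharacter.norm_le_one _ _) hB
    m.primeFactors (fun p hp => Nat.prime_of_mem_primeFactors hp) D
  have h2 : ∑ k ∈ Finset.Icc 1 D, χ (k : ZMod m) =
      ∑ k ∈ (Finset.Icc 1 D).filter (fun k => ∀ p ∈ m.primeFactors, ¬ p ∣ k),
        χ.primitiveCharacter (k : ZMod χ.conductor) := by
    rw [Finset.sum_filter]
    refine Finset.sum_congr rfl fun k _ => ?_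
    split_ifs with h
    · have hcop : Nat.Coprime k m := by
        by_contra hne
        obtain ⟨p, hp, hpk, hpm⟩ := Nat.Prime.not_coprime_iff_dvd.1 hne
        exact h p (Nat.mem_primeFactors.2 ⟨hp, hpm, hm.ne'⟩) hpk
      have h3 := χ.primitiveCharacter_apply_of_isCoprime (a := (k : ℤ))
        (Nat.isCoprime_iff_coprime.2 hcop)
      push_cast at h3
      exact h3.symm
    · push Not at h
      obtain ⟨p, hp, hpk⟩ := h
      refine MulChar.map_nonunit χ fun hu => ?_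
      rw [ZMod.isUnit_iff_coprime] at hu
      have hp' := Nat.mem_primeFactors.1 hp
      have : p ∣ Nat.gcd k m := Nat.dvd_gcd hpk hp'.2.1
      rw [hu] at this
      exact hp'.1.one_lt.ne' (Nat.dvd_one.1 this)
  rw [h2]
  exact h1

lemma jo_eq_chi (n : ℕ) [NeZero n] (d : ℕ) :
    ((jo n d : ℤ) : ℂ) = Pool.Agent.KeZhao.chi n (d : ZMod (4 * n)) := by
  by_cases h : Nat.Coprime d (4 * n)
  · rw [Pool.Agent.KeZhao.chi_apply n h]
    have hodd : d % 2 = 1 := by
      have : d.Coprime 2 := Nat.Coprime.coprime_mul_left_right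
        (show d.Coprime ((2 * n) * 2) by rw [show 2 * n * 2 = 4 * n by ring]; exact h)
      exact Nat.odd_iff.1 ((Nat.coprime_two_right).1 this)
    unfold jo
    rw [if_pos hodd]
  · rw [MulChar.map_nonunit _ fun hu => h ((ZMod.isUnit_iff_coprime d (4 * n)).1 hu)]
    unfold jo
    split_ifs with hodd
    · have h0 : J((n : ℤ) | d) = 0 := by
        rw [jacobiSym.eq_zero_iff]
        refine ⟨by rintro rfl; simp at hodd, ?_⟩
        rw [Int.gcd_natCast_natCast]
        intro hc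
        apply h
        have h4 : d.Coprime 4 := by
          rw [show (4:ℕ) = 2 ^ 2 by norm_num]
          exact Nat.Coprime.pow_right 2 ((Nat.coprime_two_right).2 (Nat.odd_iff.2 hodd))
        exact Nat.Coprime.mul_right h4 (Nat.Coprime.symm hc)
      rw [h0]
      simp
    · simp

lemma chi_ne {n : ℕ} [NeZero n] (hsq : ¬ IsSquare n) : Pool.Agent.KeZhao.chi n ≠ 1 := by
  obtain ⟨b, hb, hJ⟩ := exists_jacobi_neg (Nat.pos_of_ne_zero (NeZero.ne n)) hsq
  intro h
  have h1 := Pool.Agent.KeZhao.chi_apply n hb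
  rw [h, hJ, MulChar.one_apply ((ZMod.isUnit_iff_coprime b (4 * n)).2 hb)] at h1
  norm_num at h1

lemma two_pow_le_divisors {m : ℕ} (hm : m ≠ 0) : 2 ^ m.primeFactors.card ≤ m.divisors.card := by
  rw [Nat.card_divisors hm]
  have h1 : (2:ℕ) ^ m.primeFactors.card = ∏ p ∈ m.primeFactors, 2 := by
    rw [Finset.prod_const]
  rw [h1]
  refine Finset.prod_le_prod' fun p hp => ?_
  have := (Nat.Prime.factorization_pos_of_dvd (Nat.prime_of_mem_primeFactors hp) hm
    (Nat.dvd_of_mem_primeFactors hp))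
  omega

/-- Polya-Vinogradov for the Jacobi symbols `(n | d)` -/
theorem pv (ε : ℝ) (hε : 0 < ε) : ∃ C : ℝ, 0 < C ∧ ∀ n : ℕ, 0 < n → ¬ IsSquare n → ∀ D : ℕ,
    |((∑ d ∈ range D, jo n d : ℤ) : ℝ)| ≤ C * (n : ℝ) ^ (1 / 2 + ε) := by
  obtain ⟨C₁, hC₁, hdiv⟩ := Pool.Agent.KeZhao.divisor_bound (ε / 2) (by positivity)
  -- `1 + log m ≤ (1 + 2 / ε) m ^ (ε / 2)`
  have hlog : ∀ m : ℝ, 1 ≤ m → 1 + Real.log m ≤ (1 + 2 / ε) * m ^ (ε / 2) := by
    intro m hm
    have h1 := Real.log_le_rpow_div (x := m) (by linarith) (ε := ε / 2) (by positivity)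
    have h2 : 1 ≤ m ^ (ε / 2) := Real.one_le_rpow hm (by positivity)
    have h3 : m ^ (ε / 2) / (ε / 2) = 2 / ε * m ^ (ε / 2) := by
      field_simp
    rw [h3] at h1
    nlinarith
  refine ⟨C₁ * (1 + 2 / ε) * 4 ^ (1 / 2 + ε), by positivity, fun n hn hsq D => ?_⟩
  haveI : NeZero n := ⟨hn.ne'⟩
  haveI : NeZero (4 * n) := ⟨by omega⟩
  have hn' : (0 : ℝ) < n := by exact_mod_cast hn
  -- pass to the character
  have h1 : |((∑ d ∈ range D, jo n d : ℤ) : ℝ)| =
      ‖∑ k ∈ Finset.Icc 1 (D - 1), Pool.Agent.KeZhao.chi n (k : ZMod (4 * n))‖ := by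
    have h2 : ((∑ d ∈ range D, jo n d : ℤ) : ℂ) =
        ∑ k ∈ Finset.Icc 1 (D - 1), Pool.Agent.KeZhao.chi n (k : ZMod (4 * n)) := by
      push_cast
      rcases Nat.eq_zero_or_pos D with h0 | hpos
      · subst h0; simp
      · have h5 : Finset.range D = insert 0 (Finset.Icc 1 (D - 1)) := by
          ext c
          simp only [Finset.mem_range, Finset.mem_insert, Finset.mem_Icc]
          omega
        rw [h5, Finset.sum_insert (by simp)]
        have h6 : jo n 0 = 0 := by simp [jo]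
        rw [h6, Int.cast_zero, zero_add]
        exact Finset.sum_congr rfl fun d _ => jo_eq_chi n d
    rw [← h2]
    have h3 : ((∑ d ∈ range D, jo n d : ℤ) : ℂ) = (((∑ d ∈ range D, jo n d : ℤ) : ℝ) : ℂ) := by
      norm_cast
    rw [h3, Complex.norm_real, Real.norm_eq_abs]
  rw [h1]
  refine (pv_char (chi_ne hsq) (D - 1)).trans ?_
  have hm1 : (1 : ℝ) ≤ ((4 * n : ℕ) : ℝ) := by exact_mod_cast (by omega : 1 ≤ 4 * n)
  have hm0 : (0 : ℝ) < ((4 * n : ℕ) : ℝ) := by linarith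
  have h2 : (2 : ℝ) ^ (4 * n).primeFactors.card ≤ C₁ * ((4 * n : ℕ) : ℝ) ^ (ε / 2) := by
    refine le_trans ?_ (hdiv (4 * n) (by omega))
    exact_mod_cast two_pow_le_divisors (by omega)
  have h3 := hlog _ hm1
  have h4 : Real.sqrt ((4 * n : ℕ) : ℝ) = ((4 * n : ℕ) : ℝ) ^ (1 / 2 : ℝ) := Real.sqrt_eq_rpow _
  have h0 : 0 ≤ 1 + Real.log ((4 * n : ℕ) : ℝ) := by
    have := Real.log_nonneg hm1
    linarith
  calc (2 : ℝ) ^ (4 * n).primeFactors.card * (Real.sqrt ((4 * n : ℕ) : ℝ) *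
        (1 + Real.log ((4 * n : ℕ) : ℝ)))
      ≤ (C₁ * ((4 * n : ℕ) : ℝ) ^ (ε / 2)) * (((4 * n : ℕ) : ℝ) ^ (1 / 2 : ℝ) *
        ((1 + 2 / ε) * ((4 * n : ℕ) : ℝ) ^ (ε / 2))) := by
        rw [h4]
        refine mul_le_mul h2 (mul_le_mul_of_nonneg_left h3 (by positivity)) ?_ (by positivity)
        exact mul_nonneg (by positivity) h0
    _ = C₁ * (1 + 2 / ε) * ((4 * n : ℕ) : ℝ) ^ (1 / 2 + ε) := by
        have : (1 / 2 + ε : ℝ) = ε / 2 + (1 / 2 + ε / 2) := by ring
        rw [this, Real.rpow_add hm0, Real.rpow_add hm0]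
        ring
    _ = C₁ * (1 + 2 / ε) * 4 ^ (1 / 2 + ε) * (n : ℝ) ^ (1 / 2 + ε) := by
        push_cast
        rw [Real.mul_rpow (by norm_num) hn'.le]
        ring

end Pool.Agent.P4f18dfW
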