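import Pool.Agent.Lib.BVH.Gauss
import Pool.Agent.Lib.HLT.Geom

/-!
# The inequality of Polya and Vinogradov for primitive characters
-/

set_option autoImplicit false

open Finset

namespace Pool.Agent.P4f18dfW

open Pool.Agent.BVH.GaussAux Pool.Agent.HLT

lemma nrm_frac {q c : ℕ} (hc : 1 ≤ c) (hcq : c < q) :
    1 / (2 * nrm ((c : ℝ) / q)) ≤ (q : ℝ) / 2 * (1 / c + 1 / ((q - c : ℕ) : ℝ)) ∧
      0 < nrm ((c : ℝ) / q) := by
  have hq : (0 : ℝ) < q := by exact_mod_cast (by omega : 0 < q)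
  have hc0 : (0 : ℝ) < c := by exact_mod_cast (by omega : 0 < c)
  have hd0 : (0 : ℝ) < ((q - c : ℕ) : ℝ) := by exact_mod_cast (by omega : 0 < q - c)
  have hdc : ((q - c : ℕ) : ℝ) = q - c := by push_cast [Nat.cast_sub hcq.le]; ring
  -- the distance to the nearest integer is at least the smaller of the two
  have hlow : (c : ℝ) / q ≤ nrm ((c : ℝ) / q) ∨ ((q - c : ℕ) : ℝ) / q ≤ nrm ((c : ℝ) / q) := by
    unfold nrm
    rcases le_or_gt (round ((c : ℝ) / q)) 0 with h | h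
    · left
      have h1 : ((round ((c : ℝ) / q) : ℤ) : ℝ) ≤ 0 := by exact_mod_cast h
      refine le_trans ?_ (le_abs_self _)
      linarith
    · right
      have h1 : (1 : ℝ) ≤ ((round ((c : ℝ) / q) : ℤ) : ℝ) := by exact_mod_cast h
      refine le_trans ?_ (neg_le_abs _)
      rw [hdc, sub_div, div_self hq.ne']
      linarith
  have hpos : 0 < nrm ((c : ℝ) / q) := by
    rcases hlow with h | h
    · exact lt_of_lt_of_le (by positivity) h
    · exact lt_of_lt_of_le (by positivity) h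
  refine ⟨?_, hpos⟩
  have e1 : (q : ℝ) / 2 * (1 / c + 1 / ((q - c : ℕ) : ℝ)) =
      1 / (2 * ((c : ℝ) / q)) + 1 / (2 * (((q - c : ℕ) : ℝ) / q)) := by
    field_simp
  rw [e1]
  have p1 : 0 ≤ 1 / (2 * ((c : ℝ) / q)) := by positivity
  have p2 : 0 ≤ 1 / (2 * (((q - c : ℕ) : ℝ) / q)) := by positivity
  rcases hlow with h | h
  · have : 1 / (2 * nrm ((c : ℝ) / q)) ≤ 1 / (2 * ((c : ℝ) / q)) :=
      one_div_le_one_div_of_le (by positivity) (by linarith)
    linarith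
  · have : 1 / (2 * nrm ((c : ℝ) / q)) ≤ 1 / (2 * (((q - c : ℕ) : ℝ) / q)) :=
      one_div_le_one_div_of_le (by positivity) (by linarith)
    linarith

lemma sum_inv_le (q : ℕ) (hq : 2 ≤ q) : ∑ c ∈ Finset.Icc 1 (q - 1), (1 : ℝ) / c ≤ 1 + Real.log q := by
  have h := harmonic_le_one_add_log (q - 1)
  have h1 : ((harmonic (q - 1) : ℚ) : ℝ) = ∑ c ∈ Finset.Icc 1 (q - 1), (1 : ℝ) / c := by
    rw [harmonic_eq_sum_Icc]
    push_cast
    exact Finset.sum_congr rfl fun c _ => by rw [one_div]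
  rw [← h1]
  refine h.trans ?_
  have h2 : Real.log ((q - 1 : ℕ) : ℝ) ≤ Real.log q :=
    Real.log_le_log (by exact_mod_cast (by omega : 0 < q - 1)) (by exact_mod_cast Nat.sub_le q 1)
  linarith

theorem pv_prim {q : ℕ} [NeZero q] (hq : 2 ≤ q) {χ : DirichletCharacter ℂ q}
    (hχ : χ.IsPrimitive) (D : ℕ) :
    ‖∑ k ∈ Finset.Icc 1 D, χ (k : ZMod q)‖ ≤ Real.sqrt q * (1 + Real.log q) := by
  set G : ℂ := gaussSum χ⁻¹ (ee (q := q)) with hG
  have hGn : ‖G‖ ^ 2 = q := gauss_norm hχ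
  have hGs : ‖G‖ = Real.sqrt q := by
    rw [← hGn, Real.sqrt_sq (norm_nonneg _)]
  have hχ' : (χ⁻¹).IsPrimitive := by
    rw [DirichletCharacter.isPrimitive_def, DirichletCharacter.conductor_inv]
    exact hχ
  have h1 : ∀ n : ZMod q, ∑ b : ZMod q, χ⁻¹ b * ee (n * b) = χ n * G := by
    intro n
    have := gaussSum_mulShift_of_isPrimitive (ee (q := q)) hχ' n
    rw [inv_inv] at this
    rw [hG, ← this]
    rfl
  have h2 : (∑ k ∈ Finset.Icc 1 D, χ (k : ZMod q)) * G =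
      ∑ b : ZMod q, χ⁻¹ b * ∑ k ∈ Finset.Icc 1 D, ee ((k : ZMod q) * b) := by
    have e0 : ∀ k : ℕ, χ (k : ZMod q) * G = ∑ b : ZMod q, χ⁻¹ b * ee ((k : ZMod q) * b) :=
      fun k => (h1 (k : ZMod q)).symm
    rw [Finset.sum_mul]
    simp_rw [e0]
    rw [Finset.sum_comm]
    exact Finset.sum_congr rfl fun b _ => (Finset.mul_sum _ _ _).symm
  have h3 : ‖∑ b : ZMod q, χ⁻¹ b * ∑ k ∈ Finset.Icc 1 D, ee ((k : ZMod q) * b)‖ ≤
      ∑ c ∈ Finset.Icc 1 (q - 1), (q : ℝ) / 2 * (1 / c + 1 / ((q - c : ℕ) : ℝ)) := by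
    refine (norm_sum_le _ _).trans ?_
    have h4 : ∑ b : ZMod q, ‖χ⁻¹ b * ∑ k ∈ Finset.Icc 1 D, ee ((k : ZMod q) * b)‖ =
        ∑ c ∈ Finset.range q, ‖χ⁻¹ (c : ZMod q) *
          ∑ k ∈ Finset.Icc 1 D, ee ((k : ZMod q) * (c : ZMod q))‖ := by
      symm
      refine Finset.sum_bij' (i := fun c _ => ((c : ℕ) : ZMod q)) (j := fun x _ => x.val)
        (fun _ _ => Finset.mem_univ _) (fun x _ => Finset.mem_range.2 (ZMod.val_lt x)) ?_ ?_ ?_
      · intro c hc
        exact ZMod.val_cast_of_lt (Finset.mem_range.1 hc)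
      · intro x _
        exact ZMod.natCast_zmod_val x
      · intro c hc
        rfl
    rw [h4]
    have h5 : Finset.range q = insert 0 (Finset.Icc 1 (q - 1)) := by
      ext c
      simp only [Finset.mem_range, Finset.mem_insert, Finset.mem_Icc]
      omega
    rw [h5, Finset.sum_insert (by simp)]
    have h6 : χ⁻¹ ((0 : ℕ) : ZMod q) = 0 := by
      rw [Nat.cast_zero]
      exact DirichletCharacter.map_zero' _ (by omega)
    rw [h6, zero_mul, norm_zero, zero_add]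
    refine Finset.sum_le_sum fun c hc => ?_
    rw [Finset.mem_Icc] at hc
    obtain ⟨h7, h8⟩ := nrm_frac (q := q) hc.1 (by omega)
    rw [norm_mul]
    have h9 : ‖∑ k ∈ Finset.Icc 1 D, ee ((k : ZMod q) * (c : ZMod q))‖ ≤
        1 / (2 * nrm ((c : ℝ) / q)) := by
      rw [Finset.sum_congr rfl fun k _ => ee_mul k c]
      exact (geom D ((c : ℝ) / q)).trans (mn_le_right (Nat.cast_nonneg D) h8)
    have h10 : ‖χ⁻¹ (c : ZMod q)‖ ≤ 1 := DirichletCharacter.norm_le_one _ _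
    calc ‖χ⁻¹ (c : ZMod q)‖ * ‖∑ k ∈ Finset.Icc 1 D, ee ((k : ZMod q) * (c : ZMod q))‖
        ≤ 1 * (1 / (2 * nrm ((c : ℝ) / q))) :=
          mul_le_mul h10 h9 (norm_nonneg _) zero_le_one
      _ ≤ _ := by rw [one_mul]; exact h7
  have h4 : ∑ c ∈ Finset.Icc 1 (q - 1), (q : ℝ) / 2 * (1 / c + 1 / ((q - c : ℕ) : ℝ)) =
      q * ∑ c ∈ Finset.Icc 1 (q - 1), (1 : ℝ) / c := by
    rw [← Finset.mul_sum, Finset.sum_add_distrib]
    have h5 : ∑ c ∈ Finset.Icc 1 (q - 1), 1 / (((q - c : ℕ)) : ℝ) =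
        ∑ c ∈ Finset.Icc 1 (q - 1), (1 : ℝ) / c := by
      refine Finset.sum_bij' (i := fun c _ => q - c) (j := fun c _ => q - c) ?_ ?_ ?_ ?_ ?_
      · intro c hc
        rw [Finset.mem_Icc] at hc ⊢
        omega
      · intro c hc
        rw [Finset.mem_Icc] at hc ⊢
        omega
      · intro c hc
        rw [Finset.mem_Icc] at hc
        omega
      · intro c hc
        rw [Finset.mem_Icc] at hc
        omega
      · intro c hc
        rfl
    rw [h5]
    ring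
  have h5 := sum_inv_le q hq
  have hq0 : (0 : ℝ) < q := by exact_mod_cast (by omega : 0 < q)
  have hs0 : 0 < Real.sqrt q := Real.sqrt_pos.2 hq0
  have h6 : ‖∑ k ∈ Finset.Icc 1 D, χ (k : ZMod q)‖ * Real.sqrt q ≤ q * (1 + Real.log q) := by
    rw [← hGs, ← norm_mul, h2]
    refine h3.trans ?_
    rw [h4]
    exact mul_le_mul_of_nonneg_left h5 hq0.le
  have h7 : (q : ℝ) * (1 + Real.log q) = (Real.sqrt q * (1 + Real.log q)) * Real.sqrt q := by
    have := Real.mul_self_sqrt hq0.le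
    calc (q : ℝ) * (1 + Real.log q) = (Real.sqrt q * Real.sqrt q) * (1 + Real.log q) := by rw [this]
      _ = _ := by ring
  rw [h7] at h6
  exact le_of_mul_le_mul_right h6 hs0

end Pool.Agent.P4f18dfW
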