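import Pool.Agent.Lib.P4f18dfW.Cnt
import Pool.Agent.Lib.P4f18df.TwJac

/-!
# The exceptional primes for one length and one scale, small scales

Module W.SmallOne.  For `p ∈ PP P`, `2 N < P`, `h ≤ N`: `p` divides no `n ≤ N + h`, so
`Uk (fm p) h N = ∑_a card (Q h a) + S_p`, `S_k = ∑_(z ∈ Prs (N+h) h) w(z) μ(z.1) μ(z.2) jo(z.1 z.2, k)`,
`w(z) = #{a ∈ Ioc 0 N : a < z.1, z.2 ≤ a + h, ..} ≤ h`.  `∑_(p ∈ PP P) S_p² ≤ ∑_(k ∈ Ioc P (2P)) S_k²`
(`jo n k = 0` for even `k`), expand the square: squares by `count`, nonsquares by `TwJac.abs_sum_jo_le`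
(`|∑_(k ∈ Ioc P (2P)) jo n k| ≤ 8 n`, `n ≤ 16 N^4`); `card (Prs (N+h) h) ≤ 4 N h`.  So
`∑_(p ∈ PP P) S_p² ≤ C h³ N^(1+ε') P + 2^11 h^4 N^6`.  Chebyshev with `lam = P^(-c) / 2`, `c = ε² / 10`,
`ε' = ε / 2`, and `sum_card_Q_cum` (`10 h √N ≤ P^(-c) h N / 2`).
-/

set_option autoImplicit false

namespace Pool.Agent.P4f18dfW

open Finset Filter Pool.Agent.P4f18dfQ Pool.Agent.P4f18df NumberTheorySymbols

namespace SmallOneAux

/-- the number of windows which contain both members -/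
def wt (N h : ℕ) (z : ℕ × ℕ) : ℕ :=
  ((Ioc 0 N).filter (fun a => z.1 ∈ Ioc a (a + h) ∧ z.2 ∈ Ioc a (a + h))).card

lemma wt_le (N h : ℕ) (z : ℕ × ℕ) : wt N h z ≤ h := by
  unfold wt
  have h1 : (Ioc 0 N).filter (fun a => z.1 ∈ Ioc a (a + h) ∧ z.2 ∈ Ioc a (a + h)) ⊆
      Ico (z.1 - h) z.1 := by
    intro a ha
    rw [mem_filter, mem_Ioc, mem_Ioc, mem_Ioc] at ha
    rw [mem_Ico]
    omega
  refine (card_le_card h1).trans ?_
  rw [Nat.card_Ico]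
  omega

lemma wt_far {N h : ℕ} {z : ℕ × ℕ} (hz : ¬ (z.1 < z.2 + h ∧ z.2 < z.1 + h)) : wt N h z = 0 := by
  unfold wt
  rw [card_eq_zero, filter_eq_empty_iff]
  intro a _ h2
  rw [mem_Ioc, mem_Ioc] at h2
  omega

/-- the coefficient of a pair -/
noncomputable def cf (N h : ℕ) (z : ℕ × ℕ) : ℝ :=
  (wt N h z : ℝ) * ((ArithmeticFunction.moebius z.1 : ℝ) * (ArithmeticFunction.moebius z.2 : ℝ))

lemma abs_cf_le (N h : ℕ) (z : ℕ × ℕ) : |cf N h z| ≤ h := by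
  unfold cf
  rw [abs_mul, abs_mul, Nat.abs_cast]
  have h1 := abs_moebius_le z.1
  have h2 := abs_moebius_le z.2
  have h3 : (wt N h z : ℝ) ≤ h := by exact_mod_cast wt_le N h z
  have h4 : |(ArithmeticFunction.moebius z.1 : ℝ)| * |(ArithmeticFunction.moebius z.2 : ℝ)| ≤ 1 := by
    calc _ ≤ (1 : ℝ) * 1 := mul_le_mul h1 h2 (abs_nonneg _) zero_le_one
      _ = 1 := by norm_num
  calc _ ≤ (h : ℝ) * 1 := mul_le_mul h3 h4 (mul_nonneg (abs_nonneg _) (abs_nonneg _))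
        (Nat.cast_nonneg _)
    _ = h := mul_one _

/-- the off-diagonal sum for the modulus `k` -/
noncomputable def TT (N h k : ℕ) : ℝ :=
  ∑ z ∈ Prs (N + h) h, cf N h z * ((jo (z.1 * z.2) k : ℤ) : ℝ)

lemma lg_eq_jo {p : ℕ} (hp : p % 2 = 1) (n : ℕ) : lg p n = ((jo n p : ℤ) : ℝ) := by
  unfold lg jo
  rw [if_pos hp]

lemma U_eq {p N h : ℕ} (hp : p.Prime) (hp2 : 2 < p)
    (hd : ∀ n, 1 ≤ n → n ≤ N + h → ¬ p ∣ n) :
    Uk (fm p) h N = ∑ a ∈ Ioc 0 N, ((Q h a).card : ℝ) + TT N h p := by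
  classical
  have hodd : p % 2 = 1 := by
    rcases hp.eq_two_or_odd with h1 | h1
    · omega
    · exact h1
  have hsq : ∀ n, 1 ≤ n → n ≤ N + h → fm p n * fm p n = if Squarefree n then (1 : ℝ) else 0 := by
    intro n h1 h2
    unfold fm
    split_ifs with h3
    · have hM : (ArithmeticFunction.moebius n : ℝ) = 1 ∨ (ArithmeticFunction.moebius n : ℝ) = -1 := by
        rcases ArithmeticFunction.moebius_ne_zero_iff_eq_or.1
          (ArithmeticFunction.moebius_ne_zero_iff_squarefree.2 h3) with h | h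
        · left; rw [h]; norm_num
        · right; rw [h]; norm_num
      rcases hM with h4 | h4 <;> rcases lg_sq_of_not_dvd hp (hd n h1 h2) with h5 | h5 <;>
        rw [h4, h5] <;> norm_num
    · rw [ArithmeticFunction.moebius_eq_zero_of_not_squarefree h3]
      simp
  have hW : ∀ a ∈ Ioc 0 N, (Wd (fm p) h a) ^ 2 = ((Q h a).card : ℝ) +
      ∑ z ∈ (Icc 1 (N + h)) ×ˢ (Icc 1 (N + h)),
        (if (z.1 ≠ z.2 ∧ z.1 ∈ Ioc a (a + h) ∧ z.2 ∈ Ioc a (a + h)) then fm p z.1 * fm p z.2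
          else 0) := by
    intro a ha
    rw [mem_Ioc] at ha
    unfold Wd
    rw [pow_two, Finset.sum_mul_sum, ← Finset.sum_product',
      ← Finset.sum_filter_add_sum_filter_not (Ioc a (a + h) ×ˢ Ioc a (a + h))
        (fun z : ℕ × ℕ => z.1 = z.2)]
    congr 1
    · have h1 : ∑ z ∈ (Ioc a (a + h) ×ˢ Ioc a (a + h)).filter (fun z : ℕ × ℕ => z.1 = z.2),
          fm p z.1 * fm p z.2 = ∑ i ∈ Ioc a (a + h), fm p i * fm p i := by
        refine Finset.sum_nbij' (fun z => z.1) (fun i => (i, i)) ?_ ?_ ?_ ?_ ?_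
        · intro z hz
          exact (mem_product.1 (mem_filter.1 hz).1).1
        · intro i hi
          rw [mem_filter, mem_product]
          exact ⟨⟨hi, hi⟩, rfl⟩
        · intro z hz
          have := (mem_filter.1 hz).2
          exact Prod.ext rfl this
        · intro i _
          rfl
        · intro z hz
          rw [(mem_filter.1 hz).2]
      rw [h1, Q, Finset.card_filter]
      push_cast
      refine Finset.sum_congr rfl fun i hi => ?_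
      rw [mem_Ioc] at hi
      exact hsq i (by omega) (by omega)
    · rw [← Finset.sum_filter]
      refine Finset.sum_congr ?_ fun _ _ => rfl
      ext z
      simp only [mem_filter, mem_product, mem_Ioc, mem_Icc]
      constructor
      · rintro ⟨⟨h1, h2⟩, h3⟩
        exact ⟨⟨⟨by omega, by omega⟩, by omega, by omega⟩, h3, h1, h2⟩
      · rintro ⟨-, h3, h1, h2⟩
        exact ⟨⟨h1, h2⟩, h3⟩
  unfold Uk
  rw [Finset.sum_congr rfl hW, Finset.sum_add_distrib, Finset.sum_comm]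
  congr 1
  unfold TT Prs
  rw [Finset.sum_filter]
  refine Finset.sum_congr rfl fun z hz => ?_
  have h1 : ∑ a ∈ Ioc 0 N, (if (z.1 ≠ z.2 ∧ z.1 ∈ Ioc a (a + h) ∧ z.2 ∈ Ioc a (a + h)) then
      fm p z.1 * fm p z.2 else 0) =
      (if z.1 ≠ z.2 then (wt N h z : ℝ) * (fm p z.1 * fm p z.2) else 0) := by
    by_cases hz' : z.1 = z.2
    · rw [if_neg (not_not.2 hz')]
      refine Finset.sum_eq_zero fun a _ => ?_
      rw [if_neg]
      rintro ⟨h, -⟩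
      exact h hz'
    · rw [if_pos hz', ← Finset.sum_filter, Finset.sum_const, nsmul_eq_mul]
      congr 2
      unfold wt
      congr 1
      refine Finset.filter_congr fun a _ => ?_
      constructor
      · rintro ⟨-, h⟩
        exact h
      · intro h
        exact ⟨hz', h⟩
  rw [h1]
  by_cases hne : z.1 = z.2
  · rw [if_neg (not_not.2 hne), if_neg]
    rintro ⟨h, -⟩
    exact h hne
  · rw [if_pos hne]
    by_cases hs1 : Squarefree z.1
    · by_cases hs2 : Squarefree z.2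
      · by_cases hcl : z.1 < z.2 + h ∧ z.2 < z.1 + h
        · rw [if_pos ⟨hne, hs1, hs2, hcl.1, hcl.2⟩]
          unfold cf
          rw [← lg_eq_jo hodd, lg_mul]
          unfold fm
          ring
        · rw [if_neg, wt_far hcl]
          · simp
          · rintro ⟨-, -, -, h3, h4⟩
            exact hcl ⟨h3, h4⟩
      · rw [if_neg]
        · unfold fm
          rw [ArithmeticFunction.moebius_eq_zero_of_not_squarefree hs2]
          simp
        · rintro ⟨-, -, h3, -⟩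
          exact hs2 h3
    · rw [if_neg]
      · unfold fm
        rw [ArithmeticFunction.moebius_eq_zero_of_not_squarefree hs1]
        simp
      · rintro ⟨-, h3, -⟩
        exact hs1 h3

lemma sum_jo_bound {n : ℕ} (P : ℕ) (hn : 0 < n) (hsq : ¬ IsSquare n) :
    |∑ k ∈ Ioc P (2 * P), jo n k| ≤ 8 * n := by
  have h1 : Ioc P (2 * P) = Ico (P + 1) (2 * P + 1) := by
    ext k
    rw [mem_Ioc, mem_Ico]
    omega
  rw [h1, Finset.sum_Ico_eq_sub _ (by omega)]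
  refine (abs_sub _ _).trans ?_
  have h2 := abs_sum_jo_le hn hsq (2 * P + 1)
  have h3 := abs_sum_jo_le hn hsq (P + 1)
  linarith

lemma jo_mul_jo (a b k : ℕ) : jo a k * jo b k = jo (a * b) k := by
  unfold jo
  split_ifs
  · push_cast
    rw [jacobiSym.mul_left]
  · simp

open Classical in
lemma moment (N h P : ℕ) :
    ∑ k ∈ Ioc P (2 * P), TT N h k ^ 2 ≤ (h : ℝ) ^ 2 *
      (((((Prs (N + h) h) ×ˢ (Prs (N + h) h)).filter
        (fun w => IsSquare (w.1.1 * w.1.2 * (w.2.1 * w.2.2)))).card : ℝ) * P +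
        ((Prs (N + h) h).card : ℝ) ^ 2 * (8 * ((N + h : ℕ) : ℝ) ^ 4)) := by
  obtain ⟨L, hL⟩ : ∃ L, L = N + h := ⟨_, rfl⟩
  have e1 : ∑ k ∈ Ioc P (2 * P), TT N h k ^ 2 =
      ∑ w ∈ (Prs (N + h) h) ×ˢ (Prs (N + h) h), cf N h w.1 * cf N h w.2 *
        ((∑ k ∈ Ioc P (2 * P), jo (w.1.1 * w.1.2 * (w.2.1 * w.2.2)) k : ℤ) : ℝ) := by
    have e2 : ∀ k ∈ Ioc P (2 * P), TT N h k ^ 2 =
        ∑ w ∈ (Prs (N + h) h) ×ˢ (Prs (N + h) h), cf N h w.1 * cf N h w.2 *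
          ((jo (w.1.1 * w.1.2 * (w.2.1 * w.2.2)) k : ℤ) : ℝ) := by
      intro k _
      unfold TT
      rw [pow_two, Finset.sum_mul_sum, ← Finset.sum_product']
      refine Finset.sum_congr rfl fun w _ => ?_
      rw [← jo_mul_jo (w.1.1 * w.1.2)]
      push_cast
      ring
    rw [Finset.sum_congr rfl e2, Finset.sum_comm]
    refine Finset.sum_congr rfl fun w _ => ?_
    rw [← Finset.mul_sum]
    push_cast
    rfl
  rw [e1]
  have e3 : ∀ w ∈ (Prs (N + h) h) ×ˢ (Prs (N + h) h), cf N h w.1 * cf N h w.2 *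
        ((∑ k ∈ Ioc P (2 * P), jo (w.1.1 * w.1.2 * (w.2.1 * w.2.2)) k : ℤ) : ℝ) ≤
        (h : ℝ) ^ 2 * ((if IsSquare (w.1.1 * w.1.2 * (w.2.1 * w.2.2)) then (P : ℝ) else 0) +
          8 * ((N + h : ℕ) : ℝ) ^ 4) := by
    intro w hw
    rw [mem_product] at hw
    unfold Prs at hw
    rw [mem_filter, mem_filter, mem_product, mem_product, mem_Icc, mem_Icc, mem_Icc, mem_Icc] at hw
    obtain ⟨⟨⟨⟨a1, a2⟩, a3, a4⟩, -⟩, ⟨⟨b1, b2⟩, b3, b4⟩, -⟩ := hw
    refine (le_abs_self _).trans ?_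
    rw [abs_mul, abs_mul]
    have c1 : |cf N h w.1| * |cf N h w.2| ≤ (h : ℝ) ^ 2 := by
      rw [pow_two]
      exact mul_le_mul (abs_cf_le _ _ _) (abs_cf_le _ _ _) (abs_nonneg _) (Nat.cast_nonneg _)
    refine mul_le_mul c1 ?_ (abs_nonneg _) (by positivity)
    have hL4 : (0 : ℝ) ≤ 8 * ((N + h : ℕ) : ℝ) ^ 4 := by positivity
    split_ifs with hsq
    · have c2 : |((∑ k ∈ Ioc P (2 * P), jo (w.1.1 * w.1.2 * (w.2.1 * w.2.2)) k : ℤ) : ℝ)| ≤ P := by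
        have c3 : |∑ k ∈ Ioc P (2 * P), jo (w.1.1 * w.1.2 * (w.2.1 * w.2.2)) k| ≤ (P : ℤ) := by
          refine (Finset.abs_sum_le_sum_abs _ _).trans ?_
          refine (Finset.sum_le_sum fun k _ => abs_jo_le _ k).trans ?_
          rw [Finset.sum_const, Nat.card_Ioc, nsmul_eq_mul, mul_one]
          push_cast [show 2 * P - P = P by omega]
          exact le_refl _
        exact_mod_cast c3
      linarith
    · have hn : 0 < w.1.1 * w.1.2 * (w.2.1 * w.2.2) := by positivity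
      have c3 := sum_jo_bound P hn hsq
      have c4 : |((∑ k ∈ Ioc P (2 * P), jo (w.1.1 * w.1.2 * (w.2.1 * w.2.2)) k : ℤ) : ℝ)| ≤
          8 * ((w.1.1 * w.1.2 * (w.2.1 * w.2.2) : ℕ) : ℝ) := by exact_mod_cast c3
      have c5 : w.1.1 * w.1.2 * (w.2.1 * w.2.2) ≤ (N + h) ^ 4 := by
        calc w.1.1 * w.1.2 * (w.2.1 * w.2.2) ≤ (N + h) * (N + h) * ((N + h) * (N + h)) :=
              Nat.mul_le_mul (Nat.mul_le_mul a2 a4) (Nat.mul_le_mul b2 b4)
          _ = (N + h) ^ 4 := by ring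
      have c6 : ((w.1.1 * w.1.2 * (w.2.1 * w.2.2) : ℕ) : ℝ) ≤ ((N + h : ℕ) : ℝ) ^ 4 := by
        exact_mod_cast c5
      linarith
  refine (Finset.sum_le_sum e3).trans (le_of_eq ?_)
  rw [← Finset.mul_sum, Finset.sum_add_distrib, ← Finset.sum_filter, Finset.sum_const,
    Finset.sum_const, nsmul_eq_mul, nsmul_eq_mul, card_product]
  push_cast
  ring

lemma card_Prs_le (L h : ℕ) : (Prs L h).card ≤ L * (2 * h) := by
  have h1 : (Prs L h).card ≤ ((Icc 1 L) ×ˢ (range (2 * h))).card := by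
    refine Finset.card_le_card_of_injOn (fun z => (z.1, z.2 + h - z.1)) ?_ ?_
    · intro z hz
      rw [Finset.mem_coe] at hz
      unfold Prs at hz
      rw [mem_filter, mem_product, mem_Icc, mem_Icc] at hz
      rw [Finset.mem_coe, mem_product, mem_Icc, mem_range]
      dsimp only
      omega
    · intro z hz z' hz' h2
      rw [Finset.mem_coe] at hz hz'
      unfold Prs at hz hz'
      rw [mem_filter, mem_product, mem_Icc, mem_Icc] at hz hz'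
      have h3 : z.1 = z'.1 ∧ z.2 + h - z.1 = z'.2 + h - z'.1 := by
        simpa only [Prod.mk.injEq] using h2
      exact Prod.ext h3.1 (by omega)
  refine h1.trans (le_of_eq ?_)
  rw [card_product, Nat.card_Icc, card_range]
  simp

/-- Chebyshev -/
lemma cheby (S : Finset ℕ) (T : ℕ → ℝ) {x M : ℝ} (hx : 0 < x) (hM : ∑ k ∈ S, T k ^ 2 ≤ M) :
    ((S.filter (fun k => x < |T k|)).card : ℝ) ≤ M / x ^ 2 := by
  rw [le_div_iff₀ (by positivity)]
  refine le_trans ?_ hM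
  calc ((S.filter (fun k => x < |T k|)).card : ℝ) * x ^ 2 =
      ∑ _k ∈ S.filter (fun k => x < |T k|), x ^ 2 := by rw [Finset.sum_const, nsmul_eq_mul]
    _ ≤ ∑ k ∈ S.filter (fun k => x < |T k|), T k ^ 2 := by
        refine Finset.sum_le_sum fun k hk => ?_
        rw [mem_filter] at hk
        rw [← sq_abs (T k)]
        exact pow_le_pow_left₀ hx.le hk.2.le 2
    _ ≤ ∑ k ∈ S, T k ^ 2 :=
        Finset.sum_le_sum_of_subset_of_nonneg (filter_subset _ _) fun _ _ _ => sq_nonneg _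

end SmallOneAux

open SmallOneAux

theorem small_one (ε : ℝ) (hε : 0 < ε) (hε1 : ε < 1 / 6) : ∃ c : ℝ, 0 < c ∧ ∃ P₀ : ℕ,
    ∀ P : ℕ, P₀ ≤ P → ∀ h N : ℕ, 1 ≤ h → (h : ℝ) ≤ (N : ℝ) ^ (1 - ε) → (P : ℝ) ^ ε ≤ N →
      (N : ℝ) ≤ (P : ℝ) ^ (1 / 6 - ε) →
      (((PP P).filter (fun p => (P : ℝ) ^ (-c) * h * N < |Uk (fm p) h N - c2 * h * N|)).card : ℝ) ≤
        (P : ℝ) ^ (1 - c) := by
  obtain ⟨C, hC, hcount⟩ := count (ε / 2) (by linarith)
  obtain ⟨c, hc⟩ : ∃ c : ℝ, c = ε ^ 2 / 10 := ⟨_, rfl⟩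
  have hc0 : 0 < c := by rw [hc]; positivity
  have hcε : c ≤ ε / 60 := by
    rw [hc]
    nlinarith
  obtain ⟨P1, hP1⟩ := eventually_atTop.1
    ((((tendsto_rpow_atTop (show 0 < 2 * c by linarith)).comp
      tendsto_natCast_atTop_atTop).eventually_ge_atTop (4 * (4 * C + 2 ^ 13))).and
    (((tendsto_rpow_atTop (show 0 < ε / 2 - c by linarith)).comp
      tendsto_natCast_atTop_atTop).eventually_ge_atTop (20 : ℝ)))
  refine ⟨c, hc0, max P1 4, ?_⟩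
  intro P hP h N hh hhN hPN hNP
  have hPP1 : P1 ≤ P := (le_max_left _ _).trans hP
  have hP4 : 4 ≤ P := (le_max_right _ _).trans hP
  obtain ⟨hbig, hbig2⟩ := hP1 P hPP1
  have hPr : (4 : ℝ) ≤ P := by exact_mod_cast hP4
  have hP1' : (1 : ℝ) ≤ P := by linarith
  have hP0 : (0 : ℝ) < P := by linarith
  have hN1 : (1 : ℝ) ≤ N := le_trans (Real.one_le_rpow hP1' hε.le) hPN
  have hN0 : (0 : ℝ) < N := by linarith
  have hNn : 1 ≤ N := by exact_mod_cast hN1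
  have hhr : (1 : ℝ) ≤ h := by exact_mod_cast hh
  have hhN' : (h : ℝ) ≤ N := by
    refine hhN.trans ?_
    calc (N : ℝ) ^ (1 - ε) ≤ (N : ℝ) ^ (1 : ℝ) :=
          Real.rpow_le_rpow_of_exponent_le hN1 (by linarith)
      _ = N := Real.rpow_one _
  have hhNn : h ≤ N := by exact_mod_cast hhN'
  have h2N : 2 * N < P := by
    have h1 : (N : ℝ) ≤ (P : ℝ) ^ (1 / 6 : ℝ) :=
      hNP.trans (Real.rpow_le_rpow_of_exponent_le hP1' (by linarith))
    have h2 : (2 : ℝ) < (P : ℝ) ^ (5 / 6 : ℝ) := by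
      calc (2 : ℝ) = (4 : ℝ) ^ (1 / 2 : ℝ) := by
            rw [show (4 : ℝ) = 2 ^ (2 : ℝ) by norm_num, ← Real.rpow_mul (by norm_num)]
            norm_num
        _ < (4 : ℝ) ^ (5 / 6 : ℝ) := Real.rpow_lt_rpow_of_exponent_lt (by norm_num) (by norm_num)
        _ ≤ (P : ℝ) ^ (5 / 6 : ℝ) := Real.rpow_le_rpow (by norm_num) hPr (by norm_num)
    have h3 : (P : ℝ) = (P : ℝ) ^ (5 / 6 : ℝ) * (P : ℝ) ^ (1 / 6 : ℝ) := by
      rw [← Real.rpow_add hP0]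
      norm_num
    have h4 : (2 : ℝ) * N < P := by
      have h5 : 0 < (P : ℝ) ^ (1 / 6 : ℝ) := Real.rpow_pos_of_pos hP0 _
      calc (2 : ℝ) * N ≤ 2 * (P : ℝ) ^ (1 / 6 : ℝ) := by linarith
        _ < (P : ℝ) ^ (5 / 6 : ℝ) * (P : ℝ) ^ (1 / 6 : ℝ) := mul_lt_mul_of_pos_right h2 h5
        _ = P := h3.symm
    exact_mod_cast h4
  -- the diagonal
  have hdiag := sum_card_Q_cum hhNn
  have hdiag2 : 10 * (h : ℝ) * Real.sqrt N ≤ (P : ℝ) ^ (-c) * h * N / 2 := by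
    have h1 : (P : ℝ) ^ (ε / 2) ≤ Real.sqrt N := by
      rw [Real.sqrt_eq_rpow]
      calc (P : ℝ) ^ (ε / 2) = ((P : ℝ) ^ ε) ^ (1 / 2 : ℝ) := by
            rw [← Real.rpow_mul hP0.le]
            congr 1
            ring
        _ ≤ (N : ℝ) ^ (1 / 2 : ℝ) := Real.rpow_le_rpow (by positivity) hPN (by norm_num)
    have h2 : 20 ≤ (P : ℝ) ^ (-c) * Real.sqrt N := by
      have h3 : (P : ℝ) ^ (ε / 2 - c) = (P : ℝ) ^ (-c) * (P : ℝ) ^ (ε / 2) := by
        rw [← Real.rpow_add hP0]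
        congr 1
        ring
      have h4 : (20 : ℝ) ≤ (P : ℝ) ^ (ε / 2 - c) := hbig2
      rw [h3] at h4
      exact h4.trans (mul_le_mul_of_nonneg_left h1 (Real.rpow_nonneg hP0.le _))
    have h5 : (N : ℝ) = Real.sqrt N * Real.sqrt N := (Real.mul_self_sqrt hN0.le).symm
    have h6 : 0 ≤ (h : ℝ) * Real.sqrt N := by positivity
    calc 10 * (h : ℝ) * Real.sqrt N = 20 * ((h : ℝ) * Real.sqrt N) / 2 := by ring
      _ ≤ ((P : ℝ) ^ (-c) * Real.sqrt N) * ((h : ℝ) * Real.sqrt N) / 2 :=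
          div_le_div_of_nonneg_right (mul_le_mul_of_nonneg_right h2 h6) (by norm_num)
      _ = (P : ℝ) ^ (-c) * h * (Real.sqrt N * Real.sqrt N) / 2 := by ring
      _ = (P : ℝ) ^ (-c) * h * N / 2 := by rw [← h5]
  -- the moment
  have hmom := moment N h P
  have hL2 : ((N + h : ℕ) : ℝ) ≤ 2 * N := by
    push_cast
    linarith
  have hcnt := hcount (N + h) h (by omega) hh
  have hcard : ((Prs (N + h) h).card : ℝ) ≤ 4 * N * h := by
    have h1 : ((Prs (N + h) h).card : ℝ) ≤ ((N + h : ℕ) : ℝ) * (2 * h) := by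
      exact_mod_cast card_Prs_le (N + h) h
    calc _ ≤ ((N + h : ℕ) : ℝ) * (2 * h) := h1
      _ ≤ (2 * N) * (2 * h) := mul_le_mul_of_nonneg_right hL2 (by positivity)
      _ = 4 * N * h := by ring
  have hcnt2 : C * ((N + h : ℕ) : ℝ) ^ (1 + ε / 2) * h ≤ 4 * C * (N : ℝ) ^ (1 + ε / 2) * h := by
    have h1 : ((N + h : ℕ) : ℝ) ^ (1 + ε / 2) ≤ 4 * (N : ℝ) ^ (1 + ε / 2) := by
      calc ((N + h : ℕ) : ℝ) ^ (1 + ε / 2) ≤ (2 * N : ℝ) ^ (1 + ε / 2) :=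
            Real.rpow_le_rpow (by positivity) hL2 (by positivity)
        _ = (2 : ℝ) ^ (1 + ε / 2) * (N : ℝ) ^ (1 + ε / 2) := Real.mul_rpow (by norm_num) hN0.le
        _ ≤ 4 * (N : ℝ) ^ (1 + ε / 2) := by
            refine mul_le_mul_of_nonneg_right ?_ (by positivity)
            calc (2 : ℝ) ^ (1 + ε / 2) ≤ (2 : ℝ) ^ (2 : ℝ) :=
                  Real.rpow_le_rpow_of_exponent_le (by norm_num) (by linarith)
              _ = 4 := by norm_num
    calc C * ((N + h : ℕ) : ℝ) ^ (1 + ε / 2) * h ≤ C * (4 * (N : ℝ) ^ (1 + ε / 2)) * h :=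
          mul_le_mul_of_nonneg_right (mul_le_mul_of_nonneg_left h1 hC.le) (by positivity)
      _ = 4 * C * (N : ℝ) ^ (1 + ε / 2) * h := by ring
  obtain ⟨M, hM⟩ : ∃ M : ℝ, M = (h : ℝ) ^ 2 * (4 * C * (N : ℝ) ^ (1 + ε / 2) * h * P +
    (4 * N * h) ^ 2 * (8 * (2 * N) ^ 4)) := ⟨_, rfl⟩
  have hmom2 : ∑ k ∈ Ioc P (2 * P), TT N h k ^ 2 ≤ M := by
    refine hmom.trans ?_
    rw [hM]
    refine mul_le_mul_of_nonneg_left (add_le_add ?_ ?_) (by positivity)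
    · exact mul_le_mul_of_nonneg_right (hcnt.trans hcnt2) hP0.le
    · refine mul_le_mul ?_ ?_ (by positivity) (by positivity)
      · exact pow_le_pow_left₀ (by positivity) hcard 2
      · exact mul_le_mul_of_nonneg_left (pow_le_pow_left₀ (by positivity) hL2 4) (by norm_num)
  have hx0 : 0 < (P : ℝ) ^ (-c) * h * N / 2 := by positivity
  have hch := cheby (Ioc P (2 * P)) (TT N h) hx0 hmom2
  -- the exceptional primes are among the exceptional moduli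
  have hsub : (PP P).filter (fun p => (P : ℝ) ^ (-c) * h * N < |Uk (fm p) h N - c2 * h * N|) ⊆
      (Ioc P (2 * P)).filter (fun k => (P : ℝ) ^ (-c) * h * N / 2 < |TT N h k|) := by
    intro p hp
    rw [mem_filter, mem_PP] at hp
    obtain ⟨⟨⟨hp1, hp2⟩, hpp⟩, hp3⟩ := hp
    rw [mem_filter, mem_Ioc]
    refine ⟨⟨hp1, hp2⟩, ?_⟩
    have hU := U_eq (p := p) (N := N) (h := h) hpp (by omega) (by
      intro n hn1 hn2 hdv
      have := Nat.le_of_dvd (by omega) hdv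
      omega)
    rw [hU] at hp3
    have e1 : ∑ a ∈ Ioc 0 N, ((Q h a).card : ℝ) + TT N h p - c2 * h * N =
        (∑ a ∈ Ioc 0 N, ((Q h a).card : ℝ) - c2 * h * N) + TT N h p := by ring
    rw [e1] at hp3
    have h1 := abs_add_le (∑ a ∈ Ioc 0 N, ((Q h a).card : ℝ) - c2 * h * N) (TT N h p)
    linarith
  have hcard2 : (((PP P).filter (fun p => (P : ℝ) ^ (-c) * h * N <
      |Uk (fm p) h N - c2 * h * N|)).card : ℝ) ≤ M / ((P : ℝ) ^ (-c) * h * N / 2) ^ 2 :=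
    le_trans (by exact_mod_cast card_le_card hsub) hch
  refine hcard2.trans ?_
  -- the computation
  have hNε : (h : ℝ) * (N : ℝ) ^ (ε / 2 - 1) ≤ (P : ℝ) ^ (-(5 * c)) := by
    have h1 : (N : ℝ) ^ (1 - ε) * (N : ℝ) ^ (ε / 2 - 1) = (N : ℝ) ^ (-(ε / 2)) := by
      rw [← Real.rpow_add hN0]
      congr 1
      ring
    have h2 : (N : ℝ) ^ (-(ε / 2)) ≤ ((P : ℝ) ^ ε) ^ (-(ε / 2)) :=
      Real.rpow_le_rpow_of_nonpos (by positivity) hPN (by linarith)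
    calc (h : ℝ) * (N : ℝ) ^ (ε / 2 - 1) ≤ (N : ℝ) ^ (1 - ε) * (N : ℝ) ^ (ε / 2 - 1) :=
          mul_le_mul_of_nonneg_right hhN (by positivity)
      _ = (N : ℝ) ^ (-(ε / 2)) := h1
      _ ≤ ((P : ℝ) ^ ε) ^ (-(ε / 2)) := h2
      _ = (P : ℝ) ^ (-(5 * c)) := by
          rw [← Real.rpow_mul hP0.le, hc]
          congr 1
          ring
  have hN6 : (h : ℝ) ^ 2 * (N : ℝ) ^ 4 ≤ (P : ℝ) ^ (1 - 5 * c) := by
    have h1 : (h : ℝ) ^ 2 * (N : ℝ) ^ 4 ≤ (N : ℝ) ^ 6 := by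
      calc (h : ℝ) ^ 2 * (N : ℝ) ^ 4 ≤ (N : ℝ) ^ 2 * (N : ℝ) ^ 4 :=
            mul_le_mul_of_nonneg_right (pow_le_pow_left₀ (by positivity) hhN' 2) (by positivity)
        _ = (N : ℝ) ^ 6 := by ring
    refine h1.trans ?_
    calc (N : ℝ) ^ 6 ≤ ((P : ℝ) ^ (1 / 6 - ε)) ^ 6 := pow_le_pow_left₀ hN0.le hNP 6
      _ = (P : ℝ) ^ (1 - 6 * ε) := by
          rw [← Real.rpow_natCast, ← Real.rpow_mul hP0.le]
          congr 1
          push_cast
          ring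
      _ ≤ (P : ℝ) ^ (1 - 5 * c) := Real.rpow_le_rpow_of_exponent_le hP1' (by linarith)
  have hkey : M / ((P : ℝ) ^ (-c) * h * N / 2) ^ 2 =
      4 * (P : ℝ) ^ (2 * c) * (4 * C * ((h : ℝ) * (N : ℝ) ^ (ε / 2 - 1)) * P +
        2 ^ 11 * ((h : ℝ) ^ 2 * (N : ℝ) ^ 4)) := by
    have e1 : ((P : ℝ) ^ (-c)) ^ 2 * (P : ℝ) ^ (2 * c) = 1 := by
      rw [← Real.rpow_natCast, ← Real.rpow_mul hP0.le, ← Real.rpow_add hP0]
      have : -c * ((2 : ℕ) : ℝ) + 2 * c = 0 := by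
        push_cast
        ring
      rw [this, Real.rpow_zero]
    have e2 : (N : ℝ) ^ (1 + ε / 2) = (N : ℝ) ^ (ε / 2 - 1) * (N : ℝ) ^ 2 := by
      rw [← Real.rpow_natCast, ← Real.rpow_add hN0]
      congr 1
      push_cast
      ring
    rw [div_eq_iff (by positivity), hM, e2]
    have e3 : 4 * (P : ℝ) ^ (2 * c) * (4 * C * ((h : ℝ) * (N : ℝ) ^ (ε / 2 - 1)) * P +
        2 ^ 11 * ((h : ℝ) ^ 2 * (N : ℝ) ^ 4)) * ((P : ℝ) ^ (-c) * h * N / 2) ^ 2 =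
        (((P : ℝ) ^ (-c)) ^ 2 * (P : ℝ) ^ (2 * c)) *
          ((4 * C * ((h : ℝ) * (N : ℝ) ^ (ε / 2 - 1)) * P +
            2 ^ 11 * ((h : ℝ) ^ 2 * (N : ℝ) ^ 4)) * (h ^ 2 * N ^ 2)) := by ring
    rw [e3, e1]
    ring
  rw [hkey]
  have hA : 4 * C * ((h : ℝ) * (N : ℝ) ^ (ε / 2 - 1)) * P ≤ 4 * C * (P : ℝ) ^ (1 - 5 * c) := by
    have e1 : (P : ℝ) ^ (1 - 5 * c) = (P : ℝ) ^ (-(5 * c)) * P := by
      rw [show (1 : ℝ) - 5 * c = -(5 * c) + 1 by ring, Real.rpow_add hP0, Real.rpow_one]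
    rw [e1]
    calc 4 * C * ((h : ℝ) * (N : ℝ) ^ (ε / 2 - 1)) * P ≤ 4 * C * (P : ℝ) ^ (-(5 * c)) * P :=
          mul_le_mul_of_nonneg_right (mul_le_mul_of_nonneg_left hNε (by positivity)) hP0.le
      _ = 4 * C * ((P : ℝ) ^ (-(5 * c)) * P) := by ring
  have hB : (2 : ℝ) ^ 11 * ((h : ℝ) ^ 2 * (N : ℝ) ^ 4) ≤ 2 ^ 11 * (P : ℝ) ^ (1 - 5 * c) :=
    mul_le_mul_of_nonneg_left hN6 (by norm_num)
  have hfin : (P : ℝ) ^ (1 - c) = (P : ℝ) ^ (2 * c) * ((P : ℝ) ^ (2 * c) * (P : ℝ) ^ (1 - 5 * c)) := by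
    rw [← Real.rpow_add hP0, ← Real.rpow_add hP0]
    congr 1
    ring
  have hbig' : 4 * (4 * C + 2 ^ 13) ≤ (P : ℝ) ^ (2 * c) := hbig
  calc 4 * (P : ℝ) ^ (2 * c) * (4 * C * ((h : ℝ) * (N : ℝ) ^ (ε / 2 - 1)) * P +
        2 ^ 11 * ((h : ℝ) ^ 2 * (N : ℝ) ^ 4)) ≤
      4 * (P : ℝ) ^ (2 * c) * (4 * C * (P : ℝ) ^ (1 - 5 * c) + 2 ^ 11 * (P : ℝ) ^ (1 - 5 * c)) :=
        mul_le_mul_of_nonneg_left (add_le_add hA hB) (by positivity)
    _ = (P : ℝ) ^ (2 * c) * ((4 * (4 * C + 2 ^ 11)) * (P : ℝ) ^ (1 - 5 * c)) := by ring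
    _ ≤ (P : ℝ) ^ (2 * c) * ((P : ℝ) ^ (2 * c) * (P : ℝ) ^ (1 - 5 * c)) := by
        refine mul_le_mul_of_nonneg_left (mul_le_mul_of_nonneg_right ?_ (by positivity))
          (by positivity)
        linarith
    _ = (P : ℝ) ^ (1 - c) := hfin.symm

end Pool.Agent.P4f18dfW
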