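import Pool.Agent.Lib.P4f18dfW.SmallOne
import Pool.Agent.Lib.P4f18dfW.PV

/-!
# The exceptional primes for one length and one scale, scales up to `P^(1/4 - ε)`

`moment_K`: the second moment of the off-diagonal sums with the bound `K` for the sums of
`jo n k` over `k ∈ Ioc P (2P)`, `n` no square, as a parameter; `small_quarter`: the statement of
`small_one` with `N ≤ P^(1/4 - ε)`, from the inequality of Polya and Vinogradov (`PV.pv`).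
-/

set_option autoImplicit false

namespace Pool.Agent.P4f18dfW

open Finset Filter Pool.Agent.P4f18dfQ Pool.Agent.P4f18df NumberTheorySymbols SmallOneAux

namespace SmallQAux

open Classical in
/-- the second moment, with the bound for the nonsquares as a parameter -/
lemma moment_K (N h P : ℕ) {K : ℝ} (hK0 : 0 ≤ K)
    (hK : ∀ n : ℕ, 0 < n → ¬ IsSquare n → n ≤ (N + h) ^ 4 →
      |((∑ k ∈ Ioc P (2 * P), jo n k : ℤ) : ℝ)| ≤ K) :
    ∑ k ∈ Ioc P (2 * P), TT N h k ^ 2 ≤ (h : ℝ) ^ 2 *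
      (((((Prs (N + h) h) ×ˢ (Prs (N + h) h)).filter
        (fun w => IsSquare (w.1.1 * w.1.2 * (w.2.1 * w.2.2)))).card : ℝ) * P +
        ((Prs (N + h) h).card : ℝ) ^ 2 * K) := by
  have e1 : ∑ k ∈ Ioc P (2 * P), TT N h k ^ 2 =
      ∑ w ∈ (Prs (N + h) h) ×ˢ (Prs (N + h) h), cf N h w.1 * cf N h w.2 *
        ((∑ k ∈ Ioc P (2 * P), jo (w.1.1 * w.1.2 * (w.2.1 * w.2.2)) k : ℤ) : ℝ) := by
    have e2 : ∀ k ∈ Ioc P (2 * P), TT N h k ^ 2 =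
        ∑ w ∈ (Prs (N + h) h) ×ˢ (Prs (N + h) h), cf N h w.1 * cf N h w.2 *
          ((jo (w.1.1 * w.1.2 * (w.2.1 * w.2.2)) k : ℤ) : ℝ) := by
      intro k _
      unfold TT
      rw [pow_two, Finset.sum_mul_sum, ← Finset.sum_product']
      refine Finset.sum_congr rfl fun w _ => ?_
      rw [← jo_mul_jo (w.1.1 * w.1.2)]
      push_cast
      ring
    rw [Finset.sum_congr rfl e2, Finset.sum_comm]
    refine Finset.sum_congr rfl fun w _ => ?_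
    rw [← Finset.mul_sum]
    push_cast
    rfl
  rw [e1]
  have e3 : ∀ w ∈ (Prs (N + h) h) ×ˢ (Prs (N + h) h), cf N h w.1 * cf N h w.2 *
        ((∑ k ∈ Ioc P (2 * P), jo (w.1.1 * w.1.2 * (w.2.1 * w.2.2)) k : ℤ) : ℝ) ≤
        (h : ℝ) ^ 2 * ((if IsSquare (w.1.1 * w.1.2 * (w.2.1 * w.2.2)) then (P : ℝ) else 0) +
          K) := by
    intro w hw
    rw [mem_product] at hw
    unfold Prs at hw
    rw [mem_filter, mem_filter, mem_product, mem_product, mem_Icc, mem_Icc, mem_Icc, mem_Icc] at hw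
    obtain ⟨⟨⟨⟨a1, a2⟩, a3, a4⟩, -⟩, ⟨⟨b1, b2⟩, b3, b4⟩, -⟩ := hw
    refine (le_abs_self _).trans ?_
    rw [abs_mul, abs_mul]
    have c1 : |cf N h w.1| * |cf N h w.2| ≤ (h : ℝ) ^ 2 := by
      rw [pow_two]
      exact mul_le_mul (abs_cf_le _ _ _) (abs_cf_le _ _ _) (abs_nonneg _) (Nat.cast_nonneg _)
    refine mul_le_mul c1 ?_ (abs_nonneg _) (by positivity)
    split_ifs with hsq
    · have c2 : |((∑ k ∈ Ioc P (2 * P), jo (w.1.1 * w.1.2 * (w.2.1 * w.2.2)) k : ℤ) : ℝ)| ≤ P := by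
        have c3 : |∑ k ∈ Ioc P (2 * P), jo (w.1.1 * w.1.2 * (w.2.1 * w.2.2)) k| ≤ (P : ℤ) := by
          refine (Finset.abs_sum_le_sum_abs _ _).trans ?_
          refine (Finset.sum_le_sum fun k _ => abs_jo_le _ k).trans ?_
          rw [Finset.sum_const, Nat.card_Ioc, nsmul_eq_mul, mul_one]
          push_cast [show 2 * P - P = P by omega]
          exact le_refl _
        exact_mod_cast c3
      linarith
    · have hn : 0 < w.1.1 * w.1.2 * (w.2.1 * w.2.2) := by positivity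
      have c5 : w.1.1 * w.1.2 * (w.2.1 * w.2.2) ≤ (N + h) ^ 4 := by
        calc w.1.1 * w.1.2 * (w.2.1 * w.2.2) ≤ (N + h) * (N + h) * ((N + h) * (N + h)) :=
              Nat.mul_le_mul (Nat.mul_le_mul a2 a4) (Nat.mul_le_mul b2 b4)
          _ = (N + h) ^ 4 := by ring
      have c6 := hK _ hn hsq c5
      linarith
  refine (Finset.sum_le_sum e3).trans (le_of_eq ?_)
  rw [← Finset.mul_sum, Finset.sum_add_distrib, ← Finset.sum_filter, Finset.sum_const,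
    Finset.sum_const, nsmul_eq_mul, nsmul_eq_mul, card_product]
  push_cast
  ring

/-- Polya and Vinogradov on `Ioc P (2P)`, for the nonsquares up to `(2N)^4` -/
lemma bound_quarter (ε : ℝ) (hε : 0 < ε) (hε1 : ε < 1 / 4) : ∃ C : ℝ, 0 < C ∧
    ∀ P h N : ℕ, h ≤ N → 1 ≤ N → ∀ n : ℕ, 0 < n → ¬ IsSquare n → n ≤ (N + h) ^ 4 →
      |((∑ k ∈ Ioc P (2 * P), jo n k : ℤ) : ℝ)| ≤ C * (N : ℝ) ^ (2 + 4 * ε) := by
  obtain ⟨C, hC, hpv⟩ := pv ε hε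
  refine ⟨16 * C, by positivity, ?_⟩
  intro P h N hh hN n hn hsq hn4
  have hN0 : (0 : ℝ) < N := by exact_mod_cast hN
  have h1 : Ioc P (2 * P) = Ico (P + 1) (2 * P + 1) := by
    ext k
    rw [mem_Ioc, mem_Ico]
    omega
  have h0 : (∑ k ∈ Ioc P (2 * P), jo n k : ℤ) =
      ∑ k ∈ range (2 * P + 1), jo n k - ∑ k ∈ range (P + 1), jo n k := by
    rw [h1, Finset.sum_Ico_eq_sub _ (by omega)]
  have h2 := hpv n hn hsq (2 * P + 1)
  have h3 := hpv n hn hsq (P + 1)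
  have h4 : |((∑ k ∈ Ioc P (2 * P), jo n k : ℤ) : ℝ)| ≤ 2 * (C * (n : ℝ) ^ (1 / 2 + ε)) := by
    rw [h0, Int.cast_sub]
    refine (abs_sub _ _).trans ?_
    linarith
  have h5 : (n : ℝ) ≤ (2 * N : ℝ) ^ 4 := by
    have h6 : n ≤ (2 * N) ^ 4 := hn4.trans (Nat.pow_le_pow_left (by omega) 4)
    exact_mod_cast h6
  have h6 : (n : ℝ) ^ (1 / 2 + ε) ≤ 8 * (N : ℝ) ^ (2 + 4 * ε) := by
    calc (n : ℝ) ^ (1 / 2 + ε) ≤ ((2 * N : ℝ) ^ 4) ^ (1 / 2 + ε) :=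
          Real.rpow_le_rpow (Nat.cast_nonneg _) h5 (by linarith)
      _ = (2 * N : ℝ) ^ (2 + 4 * ε) := by
          rw [← Real.rpow_natCast, ← Real.rpow_mul (by positivity)]
          congr 1
          push_cast
          ring
      _ = (2 : ℝ) ^ (2 + 4 * ε) * (N : ℝ) ^ (2 + 4 * ε) := Real.mul_rpow (by norm_num) hN0.le
      _ ≤ 8 * (N : ℝ) ^ (2 + 4 * ε) := by
          refine mul_le_mul_of_nonneg_right ?_ (by positivity)
          calc (2 : ℝ) ^ (2 + 4 * ε) ≤ (2 : ℝ) ^ (3 : ℝ) :=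
                Real.rpow_le_rpow_of_exponent_le (by norm_num) (by linarith)
            _ = 8 := by norm_num
  calc _ ≤ 2 * (C * (n : ℝ) ^ (1 / 2 + ε)) := h4
    _ ≤ 2 * (C * (8 * (N : ℝ) ^ (2 + 4 * ε))) := by
        refine mul_le_mul_of_nonneg_left (mul_le_mul_of_nonneg_left h6 hC.le) (by norm_num)
    _ = 16 * C * (N : ℝ) ^ (2 + 4 * ε) := by ring

end SmallQAux

open SmallQAux

theorem small_quarter (ε : ℝ) (hε : 0 < ε) (hε1 : ε < 1 / 4) : ∃ c : ℝ, 0 < c ∧ ∃ P₀ : ℕ,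
    ∀ P : ℕ, P₀ ≤ P → ∀ h N : ℕ, 1 ≤ h → (h : ℝ) ≤ (N : ℝ) ^ (1 - ε) → (P : ℝ) ^ ε ≤ N →
      (N : ℝ) ≤ (P : ℝ) ^ (1 / 4 - ε) →
      (((PP P).filter (fun p => (P : ℝ) ^ (-c) * h * N < |Uk (fm p) h N - c2 * h * N|)).card : ℝ) ≤
        (P : ℝ) ^ (1 - c) := by
  obtain ⟨C, hC, hcount⟩ := count (ε / 2) (by linarith)
  obtain ⟨K, hK, hpv⟩ := bound_quarter ε hε hε1
  obtain ⟨c, hc⟩ : ∃ c : ℝ, c = ε ^ 2 / 10 := ⟨_, rfl⟩
  have hc0 : 0 < c := by rw [hc]; positivity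
  have hcε : c ≤ ε / 40 := by
    rw [hc]
    nlinarith
  obtain ⟨P1, hP1⟩ := eventually_atTop.1
    ((((tendsto_rpow_atTop (show 0 < 2 * c by linarith)).comp
      tendsto_natCast_atTop_atTop).eventually_ge_atTop (4 * (4 * C + 16 * K))).and
    (((tendsto_rpow_atTop (show 0 < ε / 2 - c by linarith)).comp
      tendsto_natCast_atTop_atTop).eventually_ge_atTop (20 : ℝ)))
  refine ⟨c, hc0, max P1 4, ?_⟩
  intro P hP h N hh hhN hPN hNP
  have hPP1 : P1 ≤ P := (le_max_left _ _).trans hP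
  have hP4 : 4 ≤ P := (le_max_right _ _).trans hP
  obtain ⟨hbig, hbig2⟩ := hP1 P hPP1
  have hPr : (4 : ℝ) ≤ P := by exact_mod_cast hP4
  have hP1' : (1 : ℝ) ≤ P := by linarith
  have hP0 : (0 : ℝ) < P := by linarith
  have hN1 : (1 : ℝ) ≤ N := le_trans (Real.one_le_rpow hP1' hε.le) hPN
  have hN0 : (0 : ℝ) < N := by linarith
  have hNn : 1 ≤ N := by exact_mod_cast hN1
  have hhr : (1 : ℝ) ≤ h := by exact_mod_cast hh
  have hhN' : (h : ℝ) ≤ N := by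
    refine hhN.trans ?_
    calc (N : ℝ) ^ (1 - ε) ≤ (N : ℝ) ^ (1 : ℝ) :=
          Real.rpow_le_rpow_of_exponent_le hN1 (by linarith)
      _ = N := Real.rpow_one _
  have hhNn : h ≤ N := by exact_mod_cast hhN'
  have h2N : 2 * N < P := by
    have h1 : (N : ℝ) ≤ (P : ℝ) ^ (1 / 4 : ℝ) :=
      hNP.trans (Real.rpow_le_rpow_of_exponent_le hP1' (by linarith))
    have h2 : (2 : ℝ) < (P : ℝ) ^ (3 / 4 : ℝ) := by
      calc (2 : ℝ) = (4 : ℝ) ^ (1 / 2 : ℝ) := by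
            rw [show (4 : ℝ) = 2 ^ (2 : ℝ) by norm_num, ← Real.rpow_mul (by norm_num)]
            norm_num
        _ < (4 : ℝ) ^ (3 / 4 : ℝ) := Real.rpow_lt_rpow_of_exponent_lt (by norm_num) (by norm_num)
        _ ≤ (P : ℝ) ^ (3 / 4 : ℝ) := Real.rpow_le_rpow (by norm_num) hPr (by norm_num)
    have h3 : (P : ℝ) = (P : ℝ) ^ (3 / 4 : ℝ) * (P : ℝ) ^ (1 / 4 : ℝ) := by
      rw [← Real.rpow_add hP0]
      norm_num
    have h4 : (2 : ℝ) * N < P := by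
      have h5 : 0 < (P : ℝ) ^ (1 / 4 : ℝ) := Real.rpow_pos_of_pos hP0 _
      calc (2 : ℝ) * N ≤ 2 * (P : ℝ) ^ (1 / 4 : ℝ) := by linarith
        _ < (P : ℝ) ^ (3 / 4 : ℝ) * (P : ℝ) ^ (1 / 4 : ℝ) := mul_lt_mul_of_pos_right h2 h5
        _ = P := h3.symm
    exact_mod_cast h4
  -- the diagonal
  have hdiag := sum_card_Q_cum hhNn
  have hdiag2 : 10 * (h : ℝ) * Real.sqrt N ≤ (P : ℝ) ^ (-c) * h * N / 2 := by
    have h1 : (P : ℝ) ^ (ε / 2) ≤ Real.sqrt N := by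
      rw [Real.sqrt_eq_rpow]
      calc (P : ℝ) ^ (ε / 2) = ((P : ℝ) ^ ε) ^ (1 / 2 : ℝ) := by
            rw [← Real.rpow_mul hP0.le]
            congr 1
            ring
        _ ≤ (N : ℝ) ^ (1 / 2 : ℝ) := Real.rpow_le_rpow (by positivity) hPN (by norm_num)
    have h2 : 20 ≤ (P : ℝ) ^ (-c) * Real.sqrt N := by
      have h3 : (P : ℝ) ^ (ε / 2 - c) = (P : ℝ) ^ (-c) * (P : ℝ) ^ (ε / 2) := by
        rw [← Real.rpow_add hP0]
        congr 1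
        ring
      have h4 : (20 : ℝ) ≤ (P : ℝ) ^ (ε / 2 - c) := hbig2
      rw [h3] at h4
      exact h4.trans (mul_le_mul_of_nonneg_left h1 (Real.rpow_nonneg hP0.le _))
    have h5 : (N : ℝ) = Real.sqrt N * Real.sqrt N := (Real.mul_self_sqrt hN0.le).symm
    have h6 : 0 ≤ (h : ℝ) * Real.sqrt N := by positivity
    calc 10 * (h : ℝ) * Real.sqrt N = 20 * ((h : ℝ) * Real.sqrt N) / 2 := by ring
      _ ≤ ((P : ℝ) ^ (-c) * Real.sqrt N) * ((h : ℝ) * Real.sqrt N) / 2 :=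
          div_le_div_of_nonneg_right (mul_le_mul_of_nonneg_right h2 h6) (by norm_num)
      _ = (P : ℝ) ^ (-c) * h * (Real.sqrt N * Real.sqrt N) / 2 := by ring
      _ = (P : ℝ) ^ (-c) * h * N / 2 := by rw [← h5]
  -- the moment
  have hmom := moment_K N h P (K := K * (N : ℝ) ^ (2 + 4 * ε)) (by positivity)
    (hpv P h N hhNn hNn)
  have hL2 : ((N + h : ℕ) : ℝ) ≤ 2 * N := by
    push_cast
    linarith
  have hcnt := hcount (N + h) h (by omega) hh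
  have hcard : ((Prs (N + h) h).card : ℝ) ≤ 4 * N * h := by
    have h1 : ((Prs (N + h) h).card : ℝ) ≤ ((N + h : ℕ) : ℝ) * (2 * h) := by
      exact_mod_cast card_Prs_le (N + h) h
    calc _ ≤ ((N + h : ℕ) : ℝ) * (2 * h) := h1
      _ ≤ (2 * N) * (2 * h) := mul_le_mul_of_nonneg_right hL2 (by positivity)
      _ = 4 * N * h := by ring
  have hcnt2 : C * ((N + h : ℕ) : ℝ) ^ (1 + ε / 2) * h ≤ 4 * C * (N : ℝ) ^ (1 + ε / 2) * h := by
    have h1 : ((N + h : ℕ) : ℝ) ^ (1 + ε / 2) ≤ 4 * (N : ℝ) ^ (1 + ε / 2) := by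
      calc ((N + h : ℕ) : ℝ) ^ (1 + ε / 2) ≤ (2 * N : ℝ) ^ (1 + ε / 2) :=
            Real.rpow_le_rpow (by positivity) hL2 (by positivity)
        _ = (2 : ℝ) ^ (1 + ε / 2) * (N : ℝ) ^ (1 + ε / 2) := Real.mul_rpow (by norm_num) hN0.le
        _ ≤ 4 * (N : ℝ) ^ (1 + ε / 2) := by
            refine mul_le_mul_of_nonneg_right ?_ (by positivity)
            calc (2 : ℝ) ^ (1 + ε / 2) ≤ (2 : ℝ) ^ (2 : ℝ) :=
                  Real.rpow_le_rpow_of_exponent_le (by norm_num) (by linarith)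
              _ = 4 := by norm_num
    calc C * ((N + h : ℕ) : ℝ) ^ (1 + ε / 2) * h ≤ C * (4 * (N : ℝ) ^ (1 + ε / 2)) * h :=
          mul_le_mul_of_nonneg_right (mul_le_mul_of_nonneg_left h1 hC.le) (by positivity)
      _ = 4 * C * (N : ℝ) ^ (1 + ε / 2) * h := by ring
  obtain ⟨M, hM⟩ : ∃ M : ℝ, M = (h : ℝ) ^ 2 * (4 * C * (N : ℝ) ^ (1 + ε / 2) * h * P +
    (4 * N * h) ^ 2 * (K * (N : ℝ) ^ (2 + 4 * ε))) := ⟨_, rfl⟩
  have hmom2 : ∑ k ∈ Ioc P (2 * P), TT N h k ^ 2 ≤ M := by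
    refine hmom.trans ?_
    rw [hM]
    refine mul_le_mul_of_nonneg_left (add_le_add ?_ ?_) (by positivity)
    · exact mul_le_mul_of_nonneg_right (hcnt.trans hcnt2) hP0.le
    · exact mul_le_mul_of_nonneg_right (pow_le_pow_left₀ (by positivity) hcard 2) (by positivity)
  have hx0 : 0 < (P : ℝ) ^ (-c) * h * N / 2 := by positivity
  have hch := cheby (Ioc P (2 * P)) (TT N h) hx0 hmom2
  -- the exceptional primes are among the exceptional moduli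
  have hsub : (PP P).filter (fun p => (P : ℝ) ^ (-c) * h * N < |Uk (fm p) h N - c2 * h * N|) ⊆
      (Ioc P (2 * P)).filter (fun k => (P : ℝ) ^ (-c) * h * N / 2 < |TT N h k|) := by
    intro p hp
    rw [mem_filter, mem_PP] at hp
    obtain ⟨⟨⟨hp1, hp2⟩, hpp⟩, hp3⟩ := hp
    rw [mem_filter, mem_Ioc]
    refine ⟨⟨hp1, hp2⟩, ?_⟩
    have hU := U_eq (p := p) (N := N) (h := h) hpp (by omega) (by
      intro n hn1 hn2 hdv
      have := Nat.le_of_dvd (by omega) hdv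
      omega)
    rw [hU] at hp3
    have e1 : ∑ a ∈ Ioc 0 N, ((Q h a).card : ℝ) + TT N h p - c2 * h * N =
        (∑ a ∈ Ioc 0 N, ((Q h a).card : ℝ) - c2 * h * N) + TT N h p := by ring
    rw [e1] at hp3
    have h1 := abs_add_le (∑ a ∈ Ioc 0 N, ((Q h a).card : ℝ) - c2 * h * N) (TT N h p)
    linarith
  have hcard2 : (((PP P).filter (fun p => (P : ℝ) ^ (-c) * h * N <
      |Uk (fm p) h N - c2 * h * N|)).card : ℝ) ≤ M / ((P : ℝ) ^ (-c) * h * N / 2) ^ 2 :=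
    le_trans (by exact_mod_cast card_le_card hsub) hch
  refine hcard2.trans ?_
  -- the computation
  have hNε : (h : ℝ) * (N : ℝ) ^ (ε / 2 - 1) ≤ (P : ℝ) ^ (-(5 * c)) := by
    have h1 : (N : ℝ) ^ (1 - ε) * (N : ℝ) ^ (ε / 2 - 1) = (N : ℝ) ^ (-(ε / 2)) := by
      rw [← Real.rpow_add hN0]
      congr 1
      ring
    have h2 : (N : ℝ) ^ (-(ε / 2)) ≤ ((P : ℝ) ^ ε) ^ (-(ε / 2)) :=
      Real.rpow_le_rpow_of_nonpos (by positivity) hPN (by linarith)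
    calc (h : ℝ) * (N : ℝ) ^ (ε / 2 - 1) ≤ (N : ℝ) ^ (1 - ε) * (N : ℝ) ^ (ε / 2 - 1) :=
          mul_le_mul_of_nonneg_right hhN (by positivity)
      _ = (N : ℝ) ^ (-(ε / 2)) := h1
      _ ≤ ((P : ℝ) ^ ε) ^ (-(ε / 2)) := h2
      _ = (P : ℝ) ^ (-(5 * c)) := by
          rw [← Real.rpow_mul hP0.le, hc]
          congr 1
          ring
  have hN6 : (h : ℝ) ^ 2 * (N : ℝ) ^ (2 + 4 * ε) ≤ (P : ℝ) ^ (1 - 5 * c) := by
    have h1 : (h : ℝ) ^ 2 * (N : ℝ) ^ (2 + 4 * ε) ≤ (N : ℝ) ^ (4 + 4 * ε) := by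
      calc (h : ℝ) ^ 2 * (N : ℝ) ^ (2 + 4 * ε) ≤ (N : ℝ) ^ 2 * (N : ℝ) ^ (2 + 4 * ε) :=
            mul_le_mul_of_nonneg_right (pow_le_pow_left₀ (by positivity) hhN' 2) (by positivity)
        _ = (N : ℝ) ^ (4 + 4 * ε) := by
            rw [← Real.rpow_natCast, ← Real.rpow_add hN0]
            congr 1
            push_cast
            ring
    refine h1.trans ?_
    calc (N : ℝ) ^ (4 + 4 * ε) ≤ ((P : ℝ) ^ (1 / 4 - ε)) ^ (4 + 4 * ε) :=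
          Real.rpow_le_rpow hN0.le hNP (by linarith)
      _ = (P : ℝ) ^ ((1 / 4 - ε) * (4 + 4 * ε)) := by rw [← Real.rpow_mul hP0.le]
      _ ≤ (P : ℝ) ^ (1 - 5 * c) := Real.rpow_le_rpow_of_exponent_le hP1' (by nlinarith)
  have hkey : M / ((P : ℝ) ^ (-c) * h * N / 2) ^ 2 =
      4 * (P : ℝ) ^ (2 * c) * (4 * C * ((h : ℝ) * (N : ℝ) ^ (ε / 2 - 1)) * P +
        16 * K * ((h : ℝ) ^ 2 * (N : ℝ) ^ (2 + 4 * ε))) := by
    have e1 : ((P : ℝ) ^ (-c)) ^ 2 * (P : ℝ) ^ (2 * c) = 1 := by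
      rw [← Real.rpow_natCast, ← Real.rpow_mul hP0.le, ← Real.rpow_add hP0]
      have : -c * ((2 : ℕ) : ℝ) + 2 * c = 0 := by
        push_cast
        ring
      rw [this, Real.rpow_zero]
    have e2 : (N : ℝ) ^ (1 + ε / 2) = (N : ℝ) ^ (ε / 2 - 1) * (N : ℝ) ^ 2 := by
      rw [← Real.rpow_natCast, ← Real.rpow_add hN0]
      congr 1
      push_cast
      ring
    rw [div_eq_iff (by positivity), hM, e2]
    have e3 : 4 * (P : ℝ) ^ (2 * c) * (4 * C * ((h : ℝ) * (N : ℝ) ^ (ε / 2 - 1)) * P +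
        16 * K * ((h : ℝ) ^ 2 * (N : ℝ) ^ (2 + 4 * ε))) * ((P : ℝ) ^ (-c) * h * N / 2) ^ 2 =
        (((P : ℝ) ^ (-c)) ^ 2 * (P : ℝ) ^ (2 * c)) *
          ((4 * C * ((h : ℝ) * (N : ℝ) ^ (ε / 2 - 1)) * P +
            16 * K * ((h : ℝ) ^ 2 * (N : ℝ) ^ (2 + 4 * ε))) * (h ^ 2 * N ^ 2)) := by ring
    rw [e3, e1]
    ring
  rw [hkey]
  have hA : 4 * C * ((h : ℝ) * (N : ℝ) ^ (ε / 2 - 1)) * P ≤ 4 * C * (P : ℝ) ^ (1 - 5 * c) := by
    have e1 : (P : ℝ) ^ (1 - 5 * c) = (P : ℝ) ^ (-(5 * c)) * P := by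
      rw [show (1 : ℝ) - 5 * c = -(5 * c) + 1 by ring, Real.rpow_add hP0, Real.rpow_one]
    rw [e1]
    calc 4 * C * ((h : ℝ) * (N : ℝ) ^ (ε / 2 - 1)) * P ≤ 4 * C * (P : ℝ) ^ (-(5 * c)) * P :=
          mul_le_mul_of_nonneg_right (mul_le_mul_of_nonneg_left hNε (by positivity)) hP0.le
      _ = 4 * C * ((P : ℝ) ^ (-(5 * c)) * P) := by ring
  have hB : 16 * K * ((h : ℝ) ^ 2 * (N : ℝ) ^ (2 + 4 * ε)) ≤ 16 * K * (P : ℝ) ^ (1 - 5 * c) :=
    mul_le_mul_of_nonneg_left hN6 (by positivity)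
  have hfin : (P : ℝ) ^ (1 - c) = (P : ℝ) ^ (2 * c) * ((P : ℝ) ^ (2 * c) * (P : ℝ) ^ (1 - 5 * c)) := by
    rw [← Real.rpow_add hP0, ← Real.rpow_add hP0]
    congr 1
    ring
  have hbig' : 4 * (4 * C + 16 * K) ≤ (P : ℝ) ^ (2 * c) := hbig
  calc 4 * (P : ℝ) ^ (2 * c) * (4 * C * ((h : ℝ) * (N : ℝ) ^ (ε / 2 - 1)) * P +
        16 * K * ((h : ℝ) ^ 2 * (N : ℝ) ^ (2 + 4 * ε))) ≤
      4 * (P : ℝ) ^ (2 * c) * (4 * C * (P : ℝ) ^ (1 - 5 * c) + 16 * K * (P : ℝ) ^ (1 - 5 * c)) :=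
        mul_le_mul_of_nonneg_left (add_le_add hA hB) (by positivity)
    _ = (P : ℝ) ^ (2 * c) * ((4 * (4 * C + 16 * K)) * (P : ℝ) ^ (1 - 5 * c)) := by ring
    _ ≤ (P : ℝ) ^ (2 * c) * ((P : ℝ) ^ (2 * c) * (P : ℝ) ^ (1 - 5 * c)) := by
        refine mul_le_mul_of_nonneg_left (mul_le_mul_of_nonneg_right ?_ (by positivity))
          (by positivity)
        linarith
    _ = (P : ℝ) ^ (1 - c) := hfin.symm

end Pool.Agent.P4f18dfW
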