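import Pool.Agent.Lib.P4f18dfW.Norm

/-!
# Symmetrization

Module W.Sym.  All functions on the product of finite nonempty types.  For fixed `ω` the sum
`∑_i (C_i(ω_i) - mean C_i)` is the average over `ω'` of `∑_i (C_i(ω_i) - C_i(ω'_i))`; Jensen for
`x ↦ ‖x‖^m`; for each sign vector `e` the entries `ω_i` and `ω'_i` are exchanged for the `i` with
`e i = false` (a bijection of pairs); average over `e`.
-/

set_option autoImplicit false

namespace Pool.Agent.P4f18dfW

open Matrix Finset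

namespace SymAux

section

variable {ι : Type*} [Fintype ι] [DecidableEq ι] {Ω : ι → Type*} [∀ i, Fintype (Ω i)]

/-- the sum over the product of a function of one coordinate -/
theorem sum_coord {E : Type*} [AddCommGroup E] [Module ℝ E] [∀ i, Nonempty (Ω i)] (i : ι)
    (f : Ω i → E) : (1 / (Fintype.card (∀ i, Ω i) : ℝ)) • ∑ ω : ∀ i, Ω i, f (ω i) =
      (1 / (Fintype.card (Ω i) : ℝ)) • ∑ x, f x := by
  have h1 : ∑ ω : ∀ i, Ω i, f (ω i) =
      ∑ p : Ω i × (∀ j : {j // j ≠ i}, Ω j), f p.1 :=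
    Fintype.sum_equiv (Equiv.piSplitAt i Ω) _ _ (fun ω => rfl)
  have h2 : Fintype.card (∀ i, Ω i) =
      Fintype.card (Ω i) * Fintype.card (∀ j : {j // j ≠ i}, Ω j) := by
    rw [← Fintype.card_prod]
    exact Fintype.card_congr (Equiv.piSplitAt i Ω)
  have h3 : (Fintype.card (∀ j : {j // j ≠ i}, Ω j) : ℝ) ≠ 0 := by
    have : 0 < Fintype.card (∀ j : {j // j ≠ i}, Ω j) := Fintype.card_pos
    positivity
  have h4 : (Fintype.card (Ω i) : ℝ) ≠ 0 := by
    have : 0 < Fintype.card (Ω i) := Fintype.card_pos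
    positivity
  rw [h1, Fintype.sum_prod_type, h2]
  simp only [sum_const, card_univ]
  rw [sum_nsmul, ← Nat.cast_smul_eq_nsmul ℝ, smul_smul]
  congr 1
  push_cast
  field_simp

/-- exchange the entries with a negative sign -/
def swp (e : ι → Bool) (p : (∀ i, Ω i) × (∀ i, Ω i)) : (∀ i, Ω i) × (∀ i, Ω i) :=
  (fun i => if e i then p.1 i else p.2 i, fun i => if e i then p.2 i else p.1 i)

omit [Fintype ι] [DecidableEq ι] [∀ i, Fintype (Ω i)] in
theorem swp_swp (e : ι → Bool) : Function.Involutive (swp (Ω := Ω) e) := by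
  intro p
  unfold swp
  ext i <;> cases h : e i <;> simp [h]

end

end SymAux

open SymAux

theorem symmetrize {ι n : Type*} [Fintype ι] [DecidableEq ι] [Fintype n] [DecidableEq n]
    {Ω : ι → Type*} [∀ i, Fintype (Ω i)] [∀ i, Nonempty (Ω i)]
    (C : ∀ i, Ω i → Matrix n n ℝ) {m : ℕ} (hm : 1 ≤ m) :
    ∑ ω : ∀ i, Ω i, nr (∑ i, (C i (ω i) - (1 / (Fintype.card (Ω i) : ℝ)) • ∑ x, C i x)) ^ m ≤
      2 ^ m * ((∑ ω : ∀ i, Ω i, ∑ e : ι → Bool, nr (∑ i, sg (e i) • C i (ω i)) ^ m) /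
        2 ^ Fintype.card ι) := by
  set W : ℝ := (Fintype.card (∀ i, Ω i) : ℝ) with hW
  have hW0 : 0 < W := by
    have : 0 < Fintype.card (∀ i, Ω i) := Fintype.card_pos
    rw [hW]
    exact_mod_cast this
  set S : ℝ := ∑ ω : ∀ i, Ω i, ∑ ω' : ∀ i, Ω i, nr (∑ i, (C i (ω i) - C i (ω' i))) ^ m with hS
  -- step 1: the average over a copy
  have step1 : ∀ ω : ∀ i, Ω i,
      nr (∑ i, (C i (ω i) - (1 / (Fintype.card (Ω i) : ℝ)) • ∑ x, C i x)) ^ m ≤
        ∑ ω' : ∀ i, Ω i, (1 / W) * nr (∑ i, (C i (ω i) - C i (ω' i))) ^ m := by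
    intro ω
    have e1 : ∑ i, (C i (ω i) - (1 / (Fintype.card (Ω i) : ℝ)) • ∑ x, C i x) =
        ∑ ω' : ∀ i, Ω i, (1 / W) • ∑ i, (C i (ω i) - C i (ω' i)) := by
      rw [← smul_sum, sum_comm, smul_sum]
      refine sum_congr rfl fun i _ => ?_
      rw [sum_sub_distrib, smul_sub, sum_const, card_univ, ← Nat.cast_smul_eq_nsmul ℝ, smul_smul,
        ← hW, one_div_mul_cancel hW0.ne', one_smul, hW, sum_coord i (C i)]
    have e2 : nr (∑ i, (C i (ω i) - (1 / (Fintype.card (Ω i) : ℝ)) • ∑ x, C i x)) ≤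
        ∑ ω' : ∀ i, Ω i, (1 / W) * nr (∑ i, (C i (ω i) - C i (ω' i))) := by
      rw [e1]
      refine (nr_sum_le _ _).trans (le_of_eq (sum_congr rfl fun ω' _ => ?_))
      rw [nr_smul, abs_of_nonneg (by positivity)]
    refine (pow_le_pow_left₀ (nr_nonneg _) e2 m).trans ?_
    refine Real.pow_arith_mean_le_arith_mean_pow _ _ _ (fun _ _ => by positivity) ?_
      (fun _ _ => nr_nonneg _) m
    rw [sum_const, card_univ, nsmul_eq_mul, ← hW, mul_one_div_cancel hW0.ne']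
  -- step 2: the exchange of entries
  have step2 : ∀ e : ι → Bool, S = ∑ ω : ∀ i, Ω i, ∑ ω' : ∀ i, Ω i,
      nr (∑ i, sg (e i) • (C i (ω i) - C i (ω' i))) ^ m := by
    intro e
    rw [hS, ← Fintype.sum_prod_type', ← Fintype.sum_prod_type']
    refine Fintype.sum_equiv (swp_swp (Ω := Ω) e).toPerm _ _ (fun p => ?_)
    rw [Function.Involutive.coe_toPerm]
    congr 2
    refine sum_congr rfl fun i _ => ?_
    unfold swp sg
    cases h : e i <;> simp [h]
  -- step 3: the triangle inequality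
  have step3 : ∀ e : ι → Bool, S ≤ 2 ^ m * (W * ∑ ω : ∀ i, Ω i,
      nr (∑ i, sg (e i) • C i (ω i)) ^ m) := by
    intro e
    rw [step2 e]
    have h1 : ∀ ω ω' : ∀ i, Ω i, nr (∑ i, sg (e i) • (C i (ω i) - C i (ω' i))) ^ m ≤
        2 ^ (m - 1) * (nr (∑ i, sg (e i) • C i (ω i)) ^ m +
          nr (∑ i, sg (e i) • C i (ω' i)) ^ m) := by
      intro ω ω'
      have h2 : ∑ i, sg (e i) • (C i (ω i) - C i (ω' i)) =
          ∑ i, sg (e i) • C i (ω i) + (-1 : ℝ) • ∑ i, sg (e i) • C i (ω' i) := by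
        rw [neg_one_smul, ← sub_eq_add_neg, ← sum_sub_distrib]
        exact sum_congr rfl fun i _ => smul_sub _ _ _
      have h3 : nr (∑ i, sg (e i) • (C i (ω i) - C i (ω' i))) ≤
          nr (∑ i, sg (e i) • C i (ω i)) + nr (∑ i, sg (e i) • C i (ω' i)) := by
        rw [h2]
        refine (nr_add_le _ _).trans (le_of_eq ?_)
        rw [nr_smul, abs_neg, abs_one, one_mul]
      exact (pow_le_pow_left₀ (nr_nonneg _) h3 m).trans
        (add_pow_le (nr_nonneg _) (nr_nonneg _) m)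
    refine (sum_le_sum fun ω _ => sum_le_sum fun ω' _ => h1 ω ω').trans (le_of_eq ?_)
    simp only [← mul_sum, sum_add_distrib, sum_const, card_univ, nsmul_eq_mul, ← hW]
    obtain ⟨k, rfl⟩ : ∃ k, m = k + 1 := ⟨m - 1, by omega⟩
    rw [Nat.add_sub_cancel, pow_succ (2 : ℝ) k]
    ring
  -- the average over the signs
  have hE : (0 : ℝ) < 2 ^ Fintype.card ι := by positivity
  have hcE : (Fintype.card (ι → Bool) : ℝ) = 2 ^ Fintype.card ι := by
    rw [Fintype.card_fun, Fintype.card_bool]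
    push_cast
    rfl
  have step4 : 2 ^ Fintype.card ι * S ≤ 2 ^ m * (W * ∑ ω : ∀ i, Ω i, ∑ e : ι → Bool,
      nr (∑ i, sg (e i) • C i (ω i)) ^ m) := by
    calc 2 ^ Fintype.card ι * S = ∑ _e : ι → Bool, S := by
          rw [sum_const, card_univ, nsmul_eq_mul, hcE]
      _ ≤ ∑ e : ι → Bool, 2 ^ m * (W * ∑ ω : ∀ i, Ω i,
            nr (∑ i, sg (e i) • C i (ω i)) ^ m) := sum_le_sum fun e _ => step3 e
      _ = _ := by
          rw [← mul_sum, ← mul_sum, sum_comm]
  calc ∑ ω : ∀ i, Ω i,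
        nr (∑ i, (C i (ω i) - (1 / (Fintype.card (Ω i) : ℝ)) • ∑ x, C i x)) ^ m ≤
        ∑ ω : ∀ i, Ω i, ∑ ω' : ∀ i, Ω i, (1 / W) * nr (∑ i, (C i (ω i) - C i (ω' i))) ^ m :=
        sum_le_sum fun ω _ => step1 ω
    _ = S / W := by
        simp only [← mul_sum]
        rw [← hS]
        ring
    _ ≤ _ := by
        rw [div_le_iff₀ hW0]
        rw [← mul_div_assoc, div_mul_eq_mul_div, le_div_iff₀ hE]
        calc S * 2 ^ Fintype.card ι = 2 ^ Fintype.card ι * S := mul_comm _ _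
          _ ≤ _ := step4
          _ = _ := by ring

end Pool.Agent.P4f18dfW
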