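import Pool.Agent.Lib.P4f18dfW.Defs

/-!
# The trace inequality behind the matrix Khintchine inequality

Module W.TrIneq.  Spectral decompositions `W = ∑ λ_i u_i u_iᵀ`, `Y = ∑ μ_j w_j w_jᵀ`
(`Matrix.IsHermitian.spectral_theorem`, `eigenvectorUnitary`, `eigenvalues`): with
`c_ij = (u_iᵀ H w_j)²` the left side is `∑ (λ_i^q μ_j^s + λ_i^s μ_j^q) c_ij` and the right side is
`∑ (λ_i^(q+s) + μ_j^(q+s)) c_ij`; scalar inequality for `q + s` even:
`(|x|^q - |y|^q)(|x|^s - |y|^s) ≥ 0`.  Matrix form: `W = U D Uᵀ`, `Y = V E Vᵀ`, `G = Uᵀ H V`,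
`trace (H W^q H Y^s) = trace (D^q G E^s Gᵀ) = ∑_ij λ_i^q μ_j^s G_ij²`.
-/

set_option autoImplicit false

namespace Pool.Agent.P4f18dfW

open Matrix

/-- orthogonal diagonalization, all powers at once -/
lemma spec {n : Type*} [Fintype n] [DecidableEq n] {W : Matrix n n ℝ} (hW : W.IsHermitian) :
    ∃ (U : Matrix n n ℝ) (d : n → ℝ), Uᵀ * U = 1 ∧ U * Uᵀ = 1 ∧
      ∀ q : ℕ, W ^ q = U * diagonal (fun i => d i ^ q) * Uᵀ := by
  have h1 : (star (hW.eigenvectorUnitary : Matrix n n ℝ)) * (hW.eigenvectorUnitary : Matrix n n ℝ) = 1 :=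
    Unitary.coe_star_mul_self _
  have h2 : (hW.eigenvectorUnitary : Matrix n n ℝ) * star (hW.eigenvectorUnitary : Matrix n n ℝ) = 1 :=
    Unitary.coe_mul_star_self _
  have hs : star (hW.eigenvectorUnitary : Matrix n n ℝ) = (hW.eigenvectorUnitary : Matrix n n ℝ)ᵀ := by
    rw [Matrix.star_eq_conjTranspose, Matrix.conjTranspose_eq_transpose_of_trivial]
  rw [hs] at h1 h2
  refine ⟨(hW.eigenvectorUnitary : Matrix n n ℝ), hW.eigenvalues, h1, h2, ?_⟩
  have h3 : W = (hW.eigenvectorUnitary : Matrix n n ℝ) * diagonal hW.eigenvalues *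
      (hW.eigenvectorUnitary : Matrix n n ℝ)ᵀ := by
    conv_lhs => rw [hW.spectral_theorem]
    rw [Unitary.conjStarAlgAut_apply, ← hs]
    rfl
  intro q
  induction q with
  | zero => simp [h2]
  | succ q ih =>
    set U := (hW.eigenvectorUnitary : Matrix n n ℝ) with hU
    rw [pow_succ, ih]
    calc U * diagonal (fun i => hW.eigenvalues i ^ q) * Uᵀ * W
        = U * diagonal (fun i => hW.eigenvalues i ^ q) * Uᵀ * (U * diagonal hW.eigenvalues * Uᵀ) := by
          rw [← h3]
      _ = U * diagonal (fun i => hW.eigenvalues i ^ q) * (Uᵀ * U) * diagonal hW.eigenvalues * Uᵀ := by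
          simp only [Matrix.mul_assoc]
      _ = U * (diagonal (fun i => hW.eigenvalues i ^ q) * diagonal hW.eigenvalues) * Uᵀ := by
          rw [h1, Matrix.mul_one]
          simp only [Matrix.mul_assoc]
      _ = U * diagonal (fun i => hW.eigenvalues i ^ (q + 1)) * Uᵀ := by
          rw [diagonal_mul_diagonal]
          simp only [pow_succ]

/-- the scalar inequality -/
lemma scal (x y : ℝ) {q s : ℕ} (h : Even (q + s)) :
    x ^ q * y ^ s + x ^ s * y ^ q ≤ x ^ (q + s) + y ^ (q + s) := by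
  have h1 : |x| ^ (q + s) = x ^ (q + s) := h.pow_abs x
  have h2 : |y| ^ (q + s) = y ^ (q + s) := h.pow_abs y
  have h3 : 0 ≤ (|x| ^ q - |y| ^ q) * (|x| ^ s - |y| ^ s) := by
    rcases le_total |x| |y| with hxy | hxy
    · have a := pow_le_pow_left₀ (abs_nonneg x) hxy q
      have b := pow_le_pow_left₀ (abs_nonneg x) hxy s
      nlinarith
    · have a := pow_le_pow_left₀ (abs_nonneg y) hxy q
      have b := pow_le_pow_left₀ (abs_nonneg y) hxy s
      nlinarith
  have h4 : x ^ q * y ^ s ≤ |x| ^ q * |y| ^ s := by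
    calc x ^ q * y ^ s ≤ |x ^ q * y ^ s| := le_abs_self _
      _ = |x| ^ q * |y| ^ s := by rw [abs_mul, abs_pow, abs_pow]
  have h5 : x ^ s * y ^ q ≤ |x| ^ s * |y| ^ q := by
    calc x ^ s * y ^ q ≤ |x ^ s * y ^ q| := le_abs_self _
      _ = |x| ^ s * |y| ^ q := by rw [abs_mul, abs_pow, abs_pow]
  rw [← h1, ← h2, pow_add, pow_add]
  nlinarith

lemma trace_four {n : Type*} [Fintype n] [DecidableEq n] (G : Matrix n n ℝ) (a b : n → ℝ) :
    (diagonal a * G * diagonal b * Gᵀ).trace = ∑ i, ∑ j, a i * b j * G i j ^ 2 := by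
  unfold Matrix.trace
  refine Finset.sum_congr rfl fun i _ => ?_
  rw [Matrix.diag_apply, Matrix.mul_apply]
  refine Finset.sum_congr rfl fun j _ => ?_
  rw [Matrix.mul_diagonal, Matrix.diagonal_mul, Matrix.transpose_apply]
  ring

theorem gm_am {n : Type*} [Fintype n] [DecidableEq n] {H W Y : Matrix n n ℝ} (hH : H.IsHermitian)
    (hW : W.IsHermitian) (hY : Y.IsHermitian) {q s : ℕ} (hqs : Even (q + s)) :
    (H * W ^ q * H * Y ^ s).trace + (H * W ^ s * H * Y ^ q).trace ≤
      (H * H * W ^ (q + s)).trace + (H * H * Y ^ (q + s)).trace := by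
  obtain ⟨U, d, hU1, hU2, hWq⟩ := spec hW
  obtain ⟨V, e, hV1, hV2, hYq⟩ := spec hY
  have hHt : Hᵀ = H := by
    rw [← Matrix.conjTranspose_eq_transpose_of_trivial]; exact hH
  set G := Uᵀ * H * V with hG
  have hGt : Gᵀ = Vᵀ * H * U := by
    rw [hG, Matrix.transpose_mul, Matrix.transpose_mul, Matrix.transpose_transpose, hHt,
      Matrix.mul_assoc]
  have key : ∀ a b : ℕ, (H * W ^ a * H * Y ^ b).trace = ∑ i, ∑ j, d i ^ a * e j ^ b * G i j ^ 2 := by
    intro a b
    rw [← trace_four G (fun i => d i ^ a) (fun j => e j ^ b), hGt, hWq, hYq]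
    calc (H * (U * diagonal (fun i => d i ^ a) * Uᵀ) * H *
          (V * diagonal (fun i => e i ^ b) * Vᵀ)).trace
        = (H * U * (diagonal (fun i => d i ^ a) * (Uᵀ * H * V) *
          diagonal (fun i => e i ^ b) * Vᵀ)).trace := by
          simp only [Matrix.mul_assoc]
      _ = ((diagonal (fun i => d i ^ a) * (Uᵀ * H * V) *
          diagonal (fun i => e i ^ b) * Vᵀ) * (H * U)).trace := Matrix.trace_mul_comm _ _
      _ = _ := by
          rw [hG]
          simp only [Matrix.mul_assoc]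
  have keyW : ∀ a : ℕ, (H * H * W ^ a).trace = ∑ i, ∑ j, d i ^ a * G i j ^ 2 := by
    intro a
    have h := key a 0
    rw [pow_zero, Matrix.mul_one] at h
    have h' : (H * H * W ^ a).trace = (H * W ^ a * H).trace := by
      rw [Matrix.mul_assoc, Matrix.trace_mul_comm, ]
    rw [h', h]
    simp
  have keyY : ∀ b : ℕ, (H * H * Y ^ b).trace = ∑ i, ∑ j, e j ^ b * G i j ^ 2 := by
    intro b
    have h := key 0 b
    rw [pow_zero, Matrix.mul_one] at h
    rw [h]
    simp
  rw [key, key, keyW, keyY, ← Finset.sum_add_distrib, ← Finset.sum_add_distrib]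
  refine Finset.sum_le_sum fun i _ => ?_
  rw [← Finset.sum_add_distrib, ← Finset.sum_add_distrib]
  refine Finset.sum_le_sum fun j _ => ?_
  have h := scal (d i) (e j) hqs
  have h' := mul_le_mul_of_nonneg_right h (sq_nonneg (G i j))
  linarith

end Pool.Agent.P4f18dfW
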